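import Pool.Agent.Lib.MP_d8f801_lc.SC.V.Stmt
import Pool.Agent.Lib.MP_4d8715_gt.KR.E.ExtK

/-!
# SC/V: the formulas (module V-Fml)

For every definition `P` of `V/Stmt.lean` there are the formula `fP` and its Boolean reading `Kc.P`.
-/

set_option autoImplicit false
set_option linter.unusedSimpArgs false

universe u

namespace Pool.MP_d8f801_lc.SC

open Pool.Agent.Lib.MP_4d8715_gt.KR

/-! ### Boolean readings -/

namespace Kc

open BSet

variable {B : Type u} [CompleteBooleanAlgebra B]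

/-- `x` is transitive -/
def Trans (x : BSet B) : B := ⨅ y, ⨅ z, bmem y x ⇨ bmem z y ⇨ bmem z x

/-- `x` is an ordinal -/
def Ord (x : BSet B) : B := Trans x ⊓ (⨅ y, bmem y x ⇨ Trans y)

/-- some function with domain `a` takes all elements of `b` as values -/
def Cov (a b : BSet B) : B :=
  ⨆ f, Kb.FunOn f a ⊓ (⨅ z, bmem z b ⇨ (⨆ i, bmem i a ⊓ Kb.App f i z))

/-- `o` is `ω₁` -/
def Omega1 (w o : BSet B) : B := Ord o ⊓ ((Cov w o)ᶜ ⊓ (⨅ x, bmem x o ⇨ Cov w x))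

/-- `k` is `ω₂` -/
def Omega2 (o k : BSet B) : B := Ord k ⊓ ((Cov o k)ᶜ ⊓ (⨅ x, bmem x k ⇨ Cov o x))

/-- `v = f(γ)` for some `f ∈ h''N` -/
def Val (h N γ v : BSet B) : B := ⨆ ξ, ⨆ f, bmem ξ N ⊓ (Kb.App h ξ f ⊓ Kb.App f γ v)

/-- the sets `Val γ` and `Val 0` have the same countable ordinals -/
def Pres (o e h N γ : BSet B) : B := ⨅ v, bmem v o ⇨ iffB (Val h N γ v) (Val h N e v)

/-- the instance of `SCC` for `N` -/
def AtScc (o k e h N : BSet B) : B := ⨆ γ, bmem γ k ⊓ ((Val h N e γ)ᶜ ⊓ Pres o e h N γ)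

/-- the instance of `SCC^cof` for `N` -/
def AtCof (o k e h N : BSet B) : B :=
  ⨅ β, bmem β k ⇨ (⨆ γ, bmem γ k ⊓ ((bmem γ β)ᶜ ⊓ Pres o e h N γ))

/-- the instance of `SCC^split` for `N` -/
def AtSplit (o k e h N : BSet B) : B :=
  ⨆ γ, ⨆ γ', bmem γ k ⊓ (bmem γ' k ⊓ (Pres o e h N γ ⊓ (Pres o e h N γ' ⊓
    ((⨆ v, Val h N γ v ⊓ (Val h N γ' v)ᶜ) ⊓ (⨆ v, Val h N γ' v ⊓ (Val h N γ v)ᶜ)))))

/-- `h` is a function from `Z` onto the set of all functions from `k` to `k` -/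
def Enum (k Z h : BSet B) : B :=
  Kb.FunOn h Z ⊓ ((⨅ ξ, ⨅ f, Kb.App h ξ f ⇨ Kb.FunTo f k k) ⊓
    (⨅ f, Kb.FunTo f k k ⇨ (⨆ ξ, bmem ξ Z ⊓ Kb.App h ξ f)))

/-- the condition on `N` -/
def Cl (w o e Z h Φ N : BSet B) : B :=
  Kb.Sub N Z ⊓ (Kb.Sub w N ⊓ (Cov w N ⊓
    ((⨅ x, ⨅ y, ⨅ z, bmem x N ⇨ bmem y N ⇨ Kb.App2 Φ x y z ⇨ bmem z N) ⊓
    (⨅ v, ⨅ u, bmem v o ⇨ Val h N e v ⇨ bmem u v ⇨ Val h N e u))))

/-- the parameters -/
def Par (w o k e : BSet B) : B := Kb.Omega w ⊓ (Omega1 w o ⊓ (Omega2 o k ⊓ Kb.Emp e))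

/-- for club many countable subsets of some `Z`, which is mapped onto `^{ω₂}ω₂`, the instance holds -/
def Club (A : BSet B → BSet B → BSet B → BSet B → BSet B → B) : B :=
  ⨆ w, ⨆ o, ⨆ k, ⨆ e, ⨆ Z, ⨆ h, ⨆ Φ, Par w o k e ⊓ (Kb.Sub w Z ⊓ (Enum k Z h ⊓ (Kb.BinOp Z Φ ⊓
    (⨅ N, Cl w o e Z h Φ N ⇨ A o k e h N))))

end Kc

/-! ### The formulas -/

namespace Fl

open Fml

/-- `x` is transitive -/
def fTrans {n : ℕ} (x : Fin n) : Fml n :=
  all (all (imp (mem (0 : Fin _).succ x.succ.succ) (imp (mem 0 (0 : Fin _).succ) (mem 0 x.succ.succ))))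

/-- `x` is an ordinal -/
def fOrd {n : ℕ} (x : Fin n) : Fml n :=
  and (fTrans x) (all (imp (mem 0 x.succ) (fTrans 0)))

/-- some function with domain `a` takes all elements of `b` as values -/
def fCov {n : ℕ} (a b : Fin n) : Fml n :=
  ex (and (fFunOn 0 a.succ) (all (imp (mem 0 b.succ.succ) (ex (and (mem 0 a.succ.succ.succ) (fApp (0 : Fin _).succ.succ 0 (0 : Fin _).succ))))))

/-- `o` is `ω₁` -/
def fOmega1 {n : ℕ} (w o : Fin n) : Fml n :=
  and (fOrd o) (and (neg (fCov w o)) (all (imp (mem 0 o.succ) (fCov w.succ 0))))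

/-- `k` is `ω₂` -/
def fOmega2 {n : ℕ} (o k : Fin n) : Fml n :=
  and (fOrd k) (and (neg (fCov o k)) (all (imp (mem 0 k.succ) (fCov o.succ 0))))

/-- `v = f(γ)` for some `f ∈ h''N` -/
def fVal {n : ℕ} (h N γ v : Fin n) : Fml n :=
  ex (ex (and (mem (0 : Fin _).succ N.succ.succ) (and (fApp h.succ.succ (0 : Fin _).succ 0) (fApp 0 γ.succ.succ v.succ.succ))))

/-- the sets `Val γ` and `Val 0` have the same countable ordinals -/
def fPres {n : ℕ} (o e h N γ : Fin n) : Fml n :=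
  all (imp (mem 0 o.succ) (iff (fVal h.succ N.succ γ.succ 0) (fVal h.succ N.succ e.succ 0)))

/-- the instance of `SCC` for `N` -/
def fAtScc {n : ℕ} (o k e h N : Fin n) : Fml n :=
  ex (and (mem 0 k.succ) (and (neg (fVal h.succ N.succ e.succ 0)) (fPres o.succ e.succ h.succ N.succ 0)))

/-- the instance of `SCC^cof` for `N` -/
def fAtCof {n : ℕ} (o k e h N : Fin n) : Fml n :=
  all (imp (mem 0 k.succ) (ex (and (mem 0 k.succ.succ) (and (neg (mem 0 (0 : Fin _).succ)) (fPres o.succ.succ e.succ.succ h.succ.succ N.succ.succ 0)))))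

/-- the instance of `SCC^split` for `N` -/
def fAtSplit {n : ℕ} (o k e h N : Fin n) : Fml n :=
  ex (ex (and (mem (0 : Fin _).succ k.succ.succ) (and (mem 0 k.succ.succ) (and (fPres o.succ.succ e.succ.succ h.succ.succ N.succ.succ (0 : Fin _).succ)
    (and (fPres o.succ.succ e.succ.succ h.succ.succ N.succ.succ 0) (and
      (ex (and (fVal h.succ.succ.succ N.succ.succ.succ (0 : Fin _).succ.succ 0) (neg (fVal h.succ.succ.succ N.succ.succ.succ (0 : Fin _).succ 0))))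
      (ex (and (fVal h.succ.succ.succ N.succ.succ.succ (0 : Fin _).succ 0) (neg (fVal h.succ.succ.succ N.succ.succ.succ (0 : Fin _).succ.succ 0))))))))))

/-- `h` is a function from `Z` onto the set of all functions from `k` to `k` -/
def fEnum {n : ℕ} (k Z h : Fin n) : Fml n :=
  and (fFunOn h Z) (and (all (all (imp (fApp h.succ.succ (0 : Fin _).succ 0) (fFunTo 0 k.succ.succ k.succ.succ))))
    (all (imp (fFunTo 0 k.succ k.succ) (ex (and (mem 0 Z.succ.succ) (fApp h.succ.succ 0 (0 : Fin _).succ))))))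

/-- the condition on `N` -/
def fCl {n : ℕ} (w o e Z h Φ N : Fin n) : Fml n :=
  and (fSub N Z) (and (fSub w N) (and (fCov w N) (and
    (all (all (all (imp (mem (0 : Fin _).succ.succ N.succ.succ.succ) (imp (mem (0 : Fin _).succ N.succ.succ.succ) (imp (fApp2 Φ.succ.succ.succ (0 : Fin _).succ.succ (0 : Fin _).succ 0) (mem 0 N.succ.succ.succ)))))))
    (all (all (imp (mem (0 : Fin _).succ o.succ.succ) (imp (fVal h.succ.succ N.succ.succ e.succ.succ (0 : Fin _).succ) (imp (mem 0 (0 : Fin _).succ)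
      (fVal h.succ.succ N.succ.succ e.succ.succ 0)))))))))

/-- the parameters -/
def fPar {n : ℕ} (w o k e : Fin n) : Fml n :=
  and (fOmega w) (and (fOmega1 w o) (and (fOmega2 o k) (fEmp e)))

/-- the sentence `Club A`; the variables of `A` are `N, Φ, h, Z, e, k, o, w` -/
def fClub (A : Fml 8) : Fml 0 :=
  ex (ex (ex (ex (ex (ex (ex (and (fPar (0 : Fin _).succ.succ.succ.succ.succ.succ (0 : Fin _).succ.succ.succ.succ.succ (0 : Fin _).succ.succ.succ.succ (0 : Fin _).succ.succ.succ) (and (fSub (0 : Fin _).succ.succ.succ.succ.succ.succ (0 : Fin _).succ.succ) (and (fEnum (0 : Fin _).succ.succ.succ.succ (0 : Fin _).succ.succ (0 : Fin _).succ)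
    (and (fBinOp (0 : Fin _).succ.succ 0) (all (imp (fCl (0 : Fin _).succ.succ.succ.succ.succ.succ.succ (0 : Fin _).succ.succ.succ.succ.succ.succ (0 : Fin _).succ.succ.succ.succ (0 : Fin _).succ.succ.succ (0 : Fin _).succ.succ (0 : Fin _).succ 0) A))))))))))))

end Fl

/-- the sentence `SCC` -/
def fSCC : Fml 0 := Fl.fClub (Fl.fAtScc (0 : Fin _).succ.succ.succ.succ.succ.succ (0 : Fin _).succ.succ.succ.succ.succ (0 : Fin _).succ.succ.succ.succ (0 : Fin _).succ.succ 0)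
/-- the sentence `SCC^cof` -/
def fSCCcof : Fml 0 := Fl.fClub (Fl.fAtCof (0 : Fin _).succ.succ.succ.succ.succ.succ (0 : Fin _).succ.succ.succ.succ.succ (0 : Fin _).succ.succ.succ.succ (0 : Fin _).succ.succ 0)
/-- the sentence `SCC^split` -/
def fSCCsplit : Fml 0 := Fl.fClub (Fl.fAtSplit (0 : Fin _).succ.succ.succ.succ.succ.succ (0 : Fin _).succ.succ.succ.succ.succ (0 : Fin _).succ.succ.succ.succ (0 : Fin _).succ.succ 0)

/-! ### Satisfaction -/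

namespace Fl

open Fml

section sat

variable {M : Type*} (E : M → M → Prop)

theorem sat_fTrans {n : ℕ} (x : Fin n) (t : Fin n → M) :
    Sat E (fTrans x) t ↔ Sc.Trans E (t x) := by
  simp only [fTrans, Sc.Trans, sat_all, sat_ex, sat_imp, sat_and, sat_or, sat_neg, sat_iff, sat_mem, sat_eq, Fin.cons_zero, Fin.cons_succ]

theorem sat_fOrd {n : ℕ} (x : Fin n) (t : Fin n → M) :
    Sat E (fOrd x) t ↔ Sc.Ord E (t x) := by
  simp only [fOrd, Sc.Ord, sat_all, sat_ex, sat_imp, sat_and, sat_or, sat_neg, sat_iff, sat_mem, sat_eq, Fin.cons_zero, Fin.cons_succ, sat_fTrans]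

theorem sat_fCov {n : ℕ} (a b : Fin n) (t : Fin n → M) :
    Sat E (fCov a b) t ↔ Sc.Cov E (t a) (t b) := by
  simp only [fCov, Sc.Cov, sat_all, sat_ex, sat_imp, sat_and, sat_or, sat_neg, sat_iff, sat_mem, sat_eq, Fin.cons_zero, Fin.cons_succ, sat_fFunOn, sat_fApp]

theorem sat_fOmega1 {n : ℕ} (w o : Fin n) (t : Fin n → M) :
    Sat E (fOmega1 w o) t ↔ Sc.Omega1 E (t w) (t o) := by
  simp only [fOmega1, Sc.Omega1, sat_all, sat_ex, sat_imp, sat_and, sat_or, sat_neg, sat_iff, sat_mem, sat_eq, Fin.cons_zero, Fin.cons_succ, sat_fOrd, sat_fCov]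

theorem sat_fOmega2 {n : ℕ} (o k : Fin n) (t : Fin n → M) :
    Sat E (fOmega2 o k) t ↔ Sc.Omega2 E (t o) (t k) := by
  simp only [fOmega2, Sc.Omega2, sat_all, sat_ex, sat_imp, sat_and, sat_or, sat_neg, sat_iff, sat_mem, sat_eq, Fin.cons_zero, Fin.cons_succ, sat_fOrd, sat_fCov]

theorem sat_fVal {n : ℕ} (h N γ v : Fin n) (t : Fin n → M) :
    Sat E (fVal h N γ v) t ↔ Sc.Val E (t h) (t N) (t γ) (t v) := by
  simp only [fVal, Sc.Val, sat_all, sat_ex, sat_imp, sat_and, sat_or, sat_neg, sat_iff, sat_mem, sat_eq, Fin.cons_zero, Fin.cons_succ, sat_fApp]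

theorem sat_fPres {n : ℕ} (o e h N γ : Fin n) (t : Fin n → M) :
    Sat E (fPres o e h N γ) t ↔ Sc.Pres E (t o) (t e) (t h) (t N) (t γ) := by
  simp only [fPres, Sc.Pres, sat_all, sat_ex, sat_imp, sat_and, sat_or, sat_neg, sat_iff, sat_mem, sat_eq, Fin.cons_zero, Fin.cons_succ, sat_fVal]

theorem sat_fAtScc {n : ℕ} (o k e h N : Fin n) (t : Fin n → M) :
    Sat E (fAtScc o k e h N) t ↔ Sc.AtScc E (t o) (t k) (t e) (t h) (t N) := by
  simp only [fAtScc, Sc.AtScc, sat_all, sat_ex, sat_imp, sat_and, sat_or, sat_neg, sat_iff, sat_mem, sat_eq, Fin.cons_zero, Fin.cons_succ, sat_fVal, sat_fPres]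

theorem sat_fAtCof {n : ℕ} (o k e h N : Fin n) (t : Fin n → M) :
    Sat E (fAtCof o k e h N) t ↔ Sc.AtCof E (t o) (t k) (t e) (t h) (t N) := by
  simp only [fAtCof, Sc.AtCof, sat_all, sat_ex, sat_imp, sat_and, sat_or, sat_neg, sat_iff, sat_mem, sat_eq, Fin.cons_zero, Fin.cons_succ, sat_fPres]

theorem sat_fAtSplit {n : ℕ} (o k e h N : Fin n) (t : Fin n → M) :
    Sat E (fAtSplit o k e h N) t ↔ Sc.AtSplit E (t o) (t k) (t e) (t h) (t N) := by
  simp only [fAtSplit, Sc.AtSplit, sat_all, sat_ex, sat_imp, sat_and, sat_or, sat_neg, sat_iff, sat_mem, sat_eq, Fin.cons_zero, Fin.cons_succ, sat_fVal, sat_fPres]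

theorem sat_fEnum {n : ℕ} (k Z h : Fin n) (t : Fin n → M) :
    Sat E (fEnum k Z h) t ↔ Sc.Enum E (t k) (t Z) (t h) := by
  simp only [fEnum, Sc.Enum, sat_all, sat_ex, sat_imp, sat_and, sat_or, sat_neg, sat_iff, sat_mem, sat_eq, Fin.cons_zero, Fin.cons_succ, sat_fFunOn, sat_fApp, sat_fFunTo]

theorem sat_fCl {n : ℕ} (w o e Z h Φ N : Fin n) (t : Fin n → M) :
    Sat E (fCl w o e Z h Φ N) t ↔ Sc.Cl E (t w) (t o) (t e) (t Z) (t h) (t Φ) (t N) := by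
  simp only [fCl, Sc.Cl, sat_all, sat_ex, sat_imp, sat_and, sat_or, sat_neg, sat_iff, sat_mem, sat_eq, Fin.cons_zero, Fin.cons_succ, sat_fSub, sat_fCov, sat_fApp2, sat_fVal]

theorem sat_fPar {n : ℕ} (w o k e : Fin n) (t : Fin n → M) :
    Sat E (fPar w o k e) t ↔ Sc.Par E (t w) (t o) (t k) (t e) := by
  simp only [fPar, Sc.Par, sat_all, sat_ex, sat_imp, sat_and, sat_or, sat_neg, sat_iff, sat_mem, sat_eq, Fin.cons_zero, Fin.cons_succ, sat_fOmega, sat_fOmega1, sat_fOmega2, sat_fEmp]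

end sat

section bv

variable {B : Type u} [CompleteBooleanAlgebra B]

theorem bv_fTrans {n : ℕ} (x : Fin n) (t : Fin n → BSet B) :
    bv (fTrans x) t = Kc.Trans (t x) := by
  simp only [fTrans, Kc.Trans, bv_all, bv_ex, bv_imp, bv_and, bv_or, bv_neg, bv_iffB, bv_mem, bv_eq, Fin.cons_zero, Fin.cons_succ]

theorem bv_fOrd {n : ℕ} (x : Fin n) (t : Fin n → BSet B) :
    bv (fOrd x) t = Kc.Ord (t x) := by
  simp only [fOrd, Kc.Ord, bv_all, bv_ex, bv_imp, bv_and, bv_or, bv_neg, bv_iffB, bv_mem, bv_eq, Fin.cons_zero, Fin.cons_succ, bv_fTrans]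

theorem bv_fCov {n : ℕ} (a b : Fin n) (t : Fin n → BSet B) :
    bv (fCov a b) t = Kc.Cov (t a) (t b) := by
  simp only [fCov, Kc.Cov, bv_all, bv_ex, bv_imp, bv_and, bv_or, bv_neg, bv_iffB, bv_mem, bv_eq, Fin.cons_zero, Fin.cons_succ, bv_fFunOn, bv_fApp]

theorem bv_fOmega1 {n : ℕ} (w o : Fin n) (t : Fin n → BSet B) :
    bv (fOmega1 w o) t = Kc.Omega1 (t w) (t o) := by
  simp only [fOmega1, Kc.Omega1, bv_all, bv_ex, bv_imp, bv_and, bv_or, bv_neg, bv_iffB, bv_mem, bv_eq, Fin.cons_zero, Fin.cons_succ, bv_fOrd, bv_fCov]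

theorem bv_fOmega2 {n : ℕ} (o k : Fin n) (t : Fin n → BSet B) :
    bv (fOmega2 o k) t = Kc.Omega2 (t o) (t k) := by
  simp only [fOmega2, Kc.Omega2, bv_all, bv_ex, bv_imp, bv_and, bv_or, bv_neg, bv_iffB, bv_mem, bv_eq, Fin.cons_zero, Fin.cons_succ, bv_fOrd, bv_fCov]

theorem bv_fVal {n : ℕ} (h N γ v : Fin n) (t : Fin n → BSet B) :
    bv (fVal h N γ v) t = Kc.Val (t h) (t N) (t γ) (t v) := by
  simp only [fVal, Kc.Val, bv_all, bv_ex, bv_imp, bv_and, bv_or, bv_neg, bv_iffB, bv_mem, bv_eq, Fin.cons_zero, Fin.cons_succ, bv_fApp]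

theorem bv_fPres {n : ℕ} (o e h N γ : Fin n) (t : Fin n → BSet B) :
    bv (fPres o e h N γ) t = Kc.Pres (t o) (t e) (t h) (t N) (t γ) := by
  simp only [fPres, Kc.Pres, bv_all, bv_ex, bv_imp, bv_and, bv_or, bv_neg, bv_iffB, bv_mem, bv_eq, Fin.cons_zero, Fin.cons_succ, bv_fVal]

theorem bv_fAtScc {n : ℕ} (o k e h N : Fin n) (t : Fin n → BSet B) :
    bv (fAtScc o k e h N) t = Kc.AtScc (t o) (t k) (t e) (t h) (t N) := by
  simp only [fAtScc, Kc.AtScc, bv_all, bv_ex, bv_imp, bv_and, bv_or, bv_neg, bv_iffB, bv_mem, bv_eq, Fin.cons_zero, Fin.cons_succ, bv_fVal, bv_fPres]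

theorem bv_fAtCof {n : ℕ} (o k e h N : Fin n) (t : Fin n → BSet B) :
    bv (fAtCof o k e h N) t = Kc.AtCof (t o) (t k) (t e) (t h) (t N) := by
  simp only [fAtCof, Kc.AtCof, bv_all, bv_ex, bv_imp, bv_and, bv_or, bv_neg, bv_iffB, bv_mem, bv_eq, Fin.cons_zero, Fin.cons_succ, bv_fPres]

theorem bv_fAtSplit {n : ℕ} (o k e h N : Fin n) (t : Fin n → BSet B) :
    bv (fAtSplit o k e h N) t = Kc.AtSplit (t o) (t k) (t e) (t h) (t N) := by
  simp only [fAtSplit, Kc.AtSplit, bv_all, bv_ex, bv_imp, bv_and, bv_or, bv_neg, bv_iffB, bv_mem, bv_eq, Fin.cons_zero, Fin.cons_succ, bv_fVal, bv_fPres]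

theorem bv_fEnum {n : ℕ} (k Z h : Fin n) (t : Fin n → BSet B) :
    bv (fEnum k Z h) t = Kc.Enum (t k) (t Z) (t h) := by
  simp only [fEnum, Kc.Enum, bv_all, bv_ex, bv_imp, bv_and, bv_or, bv_neg, bv_iffB, bv_mem, bv_eq, Fin.cons_zero, Fin.cons_succ, bv_fFunOn, bv_fApp, bv_fFunTo]

theorem bv_fCl {n : ℕ} (w o e Z h Φ N : Fin n) (t : Fin n → BSet B) :
    bv (fCl w o e Z h Φ N) t = Kc.Cl (t w) (t o) (t e) (t Z) (t h) (t Φ) (t N) := by
  simp only [fCl, Kc.Cl, bv_all, bv_ex, bv_imp, bv_and, bv_or, bv_neg, bv_iffB, bv_mem, bv_eq, Fin.cons_zero, Fin.cons_succ, bv_fSub, bv_fCov, bv_fApp2, bv_fVal]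

theorem bv_fPar {n : ℕ} (w o k e : Fin n) (t : Fin n → BSet B) :
    bv (fPar w o k e) t = Kc.Par (t w) (t o) (t k) (t e) := by
  simp only [fPar, Kc.Par, bv_all, bv_ex, bv_imp, bv_and, bv_or, bv_neg, bv_iffB, bv_mem, bv_eq, Fin.cons_zero, Fin.cons_succ, bv_fOmega, bv_fOmega1, bv_fOmega2, bv_fEmp]

end bv

end Fl

section sentences

open Fml Fl

theorem sat_fSCC {M : Type*} (E : M → M → Prop) : Fml.Sat E fSCC ![] ↔ Sc.SCC E := by
  simp only [fSCC, fClub, Sc.SCC, Sc.Club, sat_all, sat_ex, sat_imp, sat_and, Fin.cons_zero, Fin.cons_succ, sat_fPar, sat_fSub, sat_fEnum, sat_fBinOp, sat_fCl, sat_fAtScc]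

theorem sat_fSCCcof {M : Type*} (E : M → M → Prop) : Fml.Sat E fSCCcof ![] ↔ Sc.SCCcof E := by
  simp only [fSCCcof, fClub, Sc.SCCcof, Sc.Club, sat_all, sat_ex, sat_imp, sat_and, Fin.cons_zero, Fin.cons_succ, sat_fPar, sat_fSub, sat_fEnum, sat_fBinOp, sat_fCl, sat_fAtCof]

theorem sat_fSCCsplit {M : Type*} (E : M → M → Prop) : Fml.Sat E fSCCsplit ![] ↔ Sc.SCCsplit E := by
  simp only [fSCCsplit, fClub, Sc.SCCsplit, Sc.Club, sat_all, sat_ex, sat_imp, sat_and, Fin.cons_zero, Fin.cons_succ, sat_fPar, sat_fSub, sat_fEnum, sat_fBinOp, sat_fCl, sat_fAtSplit]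

theorem bvc_fSCC {B : Type u} [CompleteBooleanAlgebra B] :
    Fml.bv fSCC (![] : Fin 0 → BSet B) = Kc.Club (B := B) Kc.AtScc := by
  simp only [fSCC, fClub, Kc.Club, bv_all, bv_ex, bv_imp, bv_and, Fin.cons_zero, Fin.cons_succ, bv_fPar, bv_fSub, bv_fEnum, bv_fBinOp, bv_fCl, bv_fAtScc]

theorem bvc_fSCCcof {B : Type u} [CompleteBooleanAlgebra B] :
    Fml.bv fSCCcof (![] : Fin 0 → BSet B) = Kc.Club (B := B) Kc.AtCof := by
  simp only [fSCCcof, fClub, Kc.Club, bv_all, bv_ex, bv_imp, bv_and, Fin.cons_zero, Fin.cons_succ, bv_fPar, bv_fSub, bv_fEnum, bv_fBinOp, bv_fCl, bv_fAtCof]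

theorem bvc_fSCCsplit {B : Type u} [CompleteBooleanAlgebra B] :
    Fml.bv fSCCsplit (![] : Fin 0 → BSet B) = Kc.Club (B := B) Kc.AtSplit := by
  simp only [fSCCsplit, fClub, Kc.Club, bv_all, bv_ex, bv_imp, bv_and, Fin.cons_zero, Fin.cons_succ, bv_fPar, bv_fSub, bv_fEnum, bv_fBinOp, bv_fCl, bv_fAtSplit]

end sentences

/-! ### The Boolean readings respect equality -/

namespace Kc

open BSet

variable {B : Type u} [CompleteBooleanAlgebra B]

theorem ext_Trans_x :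
    Ext (fun x : BSet B => Trans x) := by
  have h0 := Fml.ext_bv (B := B) (Fl.fTrans (0 : Fin 1)) ![]
  simp only [Fl.bv_fTrans] at h0
  exact h0

theorem ext_Ord_x :
    Ext (fun x : BSet B => Ord x) := by
  have h0 := Fml.ext_bv (B := B) (Fl.fOrd (0 : Fin 1)) ![]
  simp only [Fl.bv_fOrd] at h0
  exact h0

theorem ext_Cov_a (b : BSet B) :
    Ext (fun a : BSet B => Cov a b) := by
  have h0 := Fml.ext_bv (B := B) (Fl.fCov (0 : Fin 2) (1 : Fin 2)) ![b]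
  simp only [Fl.bv_fCov] at h0
  exact h0

theorem ext_Cov_b (a : BSet B) :
    Ext (fun b : BSet B => Cov a b) := by
  have h0 := Fml.ext_bv (B := B) (Fl.fCov (1 : Fin 2) (0 : Fin 2)) ![a]
  simp only [Fl.bv_fCov] at h0
  exact h0

theorem ext_Omega1_w (o : BSet B) :
    Ext (fun w : BSet B => Omega1 w o) := by
  have h0 := Fml.ext_bv (B := B) (Fl.fOmega1 (0 : Fin 2) (1 : Fin 2)) ![o]
  simp only [Fl.bv_fOmega1] at h0
  exact h0

theorem ext_Omega1_o (w : BSet B) :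
    Ext (fun o : BSet B => Omega1 w o) := by
  have h0 := Fml.ext_bv (B := B) (Fl.fOmega1 (1 : Fin 2) (0 : Fin 2)) ![w]
  simp only [Fl.bv_fOmega1] at h0
  exact h0

theorem ext_Omega2_o (k : BSet B) :
    Ext (fun o : BSet B => Omega2 o k) := by
  have h0 := Fml.ext_bv (B := B) (Fl.fOmega2 (0 : Fin 2) (1 : Fin 2)) ![k]
  simp only [Fl.bv_fOmega2] at h0
  exact h0

theorem ext_Omega2_k (o : BSet B) :
    Ext (fun k : BSet B => Omega2 o k) := by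
  have h0 := Fml.ext_bv (B := B) (Fl.fOmega2 (1 : Fin 2) (0 : Fin 2)) ![o]
  simp only [Fl.bv_fOmega2] at h0
  exact h0

theorem ext_Val_h (N γ v : BSet B) :
    Ext (fun h : BSet B => Val h N γ v) := by
  have h0 := Fml.ext_bv (B := B) (Fl.fVal (0 : Fin 4) (1 : Fin 4) (2 : Fin 4) (3 : Fin 4)) ![N, γ, v]
  simp only [Fl.bv_fVal] at h0
  exact h0

theorem ext_Val_N (h γ v : BSet B) :
    Ext (fun N : BSet B => Val h N γ v) := by
  have h0 := Fml.ext_bv (B := B) (Fl.fVal (1 : Fin 4) (0 : Fin 4) (2 : Fin 4) (3 : Fin 4)) ![h, γ, v]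
  simp only [Fl.bv_fVal] at h0
  exact h0

theorem ext_Val_γ (h N v : BSet B) :
    Ext (fun γ : BSet B => Val h N γ v) := by
  have h0 := Fml.ext_bv (B := B) (Fl.fVal (1 : Fin 4) (2 : Fin 4) (0 : Fin 4) (3 : Fin 4)) ![h, N, v]
  simp only [Fl.bv_fVal] at h0
  exact h0

theorem ext_Val_v (h N γ : BSet B) :
    Ext (fun v : BSet B => Val h N γ v) := by
  have h0 := Fml.ext_bv (B := B) (Fl.fVal (1 : Fin 4) (2 : Fin 4) (3 : Fin 4) (0 : Fin 4)) ![h, N, γ]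
  simp only [Fl.bv_fVal] at h0
  exact h0

theorem ext_Pres_o (e h N γ : BSet B) :
    Ext (fun o : BSet B => Pres o e h N γ) := by
  have h0 := Fml.ext_bv (B := B) (Fl.fPres (0 : Fin 5) (1 : Fin 5) (2 : Fin 5) (3 : Fin 5) (4 : Fin 5)) ![e, h, N, γ]
  simp only [Fl.bv_fPres] at h0
  exact h0

theorem ext_Pres_e (o h N γ : BSet B) :
    Ext (fun e : BSet B => Pres o e h N γ) := by
  have h0 := Fml.ext_bv (B := B) (Fl.fPres (1 : Fin 5) (0 : Fin 5) (2 : Fin 5) (3 : Fin 5) (4 : Fin 5)) ![o, h, N, γ]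
  simp only [Fl.bv_fPres] at h0
  exact h0

theorem ext_Pres_h (o e N γ : BSet B) :
    Ext (fun h : BSet B => Pres o e h N γ) := by
  have h0 := Fml.ext_bv (B := B) (Fl.fPres (1 : Fin 5) (2 : Fin 5) (0 : Fin 5) (3 : Fin 5) (4 : Fin 5)) ![o, e, N, γ]
  simp only [Fl.bv_fPres] at h0
  exact h0

theorem ext_Pres_N (o e h γ : BSet B) :
    Ext (fun N : BSet B => Pres o e h N γ) := by
  have h0 := Fml.ext_bv (B := B) (Fl.fPres (1 : Fin 5) (2 : Fin 5) (3 : Fin 5) (0 : Fin 5) (4 : Fin 5)) ![o, e, h, γ]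
  simp only [Fl.bv_fPres] at h0
  exact h0

theorem ext_Pres_γ (o e h N : BSet B) :
    Ext (fun γ : BSet B => Pres o e h N γ) := by
  have h0 := Fml.ext_bv (B := B) (Fl.fPres (1 : Fin 5) (2 : Fin 5) (3 : Fin 5) (4 : Fin 5) (0 : Fin 5)) ![o, e, h, N]
  simp only [Fl.bv_fPres] at h0
  exact h0

theorem ext_AtScc_o (k e h N : BSet B) :
    Ext (fun o : BSet B => AtScc o k e h N) := by
  have h0 := Fml.ext_bv (B := B) (Fl.fAtScc (0 : Fin 5) (1 : Fin 5) (2 : Fin 5) (3 : Fin 5) (4 : Fin 5)) ![k, e, h, N]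
  simp only [Fl.bv_fAtScc] at h0
  exact h0

theorem ext_AtScc_k (o e h N : BSet B) :
    Ext (fun k : BSet B => AtScc o k e h N) := by
  have h0 := Fml.ext_bv (B := B) (Fl.fAtScc (1 : Fin 5) (0 : Fin 5) (2 : Fin 5) (3 : Fin 5) (4 : Fin 5)) ![o, e, h, N]
  simp only [Fl.bv_fAtScc] at h0
  exact h0

theorem ext_AtScc_e (o k h N : BSet B) :
    Ext (fun e : BSet B => AtScc o k e h N) := by
  have h0 := Fml.ext_bv (B := B) (Fl.fAtScc (1 : Fin 5) (2 : Fin 5) (0 : Fin 5) (3 : Fin 5) (4 : Fin 5)) ![o, k, h, N]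
  simp only [Fl.bv_fAtScc] at h0
  exact h0

theorem ext_AtScc_h (o k e N : BSet B) :
    Ext (fun h : BSet B => AtScc o k e h N) := by
  have h0 := Fml.ext_bv (B := B) (Fl.fAtScc (1 : Fin 5) (2 : Fin 5) (3 : Fin 5) (0 : Fin 5) (4 : Fin 5)) ![o, k, e, N]
  simp only [Fl.bv_fAtScc] at h0
  exact h0

theorem ext_AtScc_N (o k e h : BSet B) :
    Ext (fun N : BSet B => AtScc o k e h N) := by
  have h0 := Fml.ext_bv (B := B) (Fl.fAtScc (1 : Fin 5) (2 : Fin 5) (3 : Fin 5) (4 : Fin 5) (0 : Fin 5)) ![o, k, e, h]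
  simp only [Fl.bv_fAtScc] at h0
  exact h0

theorem ext_AtCof_o (k e h N : BSet B) :
    Ext (fun o : BSet B => AtCof o k e h N) := by
  have h0 := Fml.ext_bv (B := B) (Fl.fAtCof (0 : Fin 5) (1 : Fin 5) (2 : Fin 5) (3 : Fin 5) (4 : Fin 5)) ![k, e, h, N]
  simp only [Fl.bv_fAtCof] at h0
  exact h0

theorem ext_AtCof_k (o e h N : BSet B) :
    Ext (fun k : BSet B => AtCof o k e h N) := by
  have h0 := Fml.ext_bv (B := B) (Fl.fAtCof (1 : Fin 5) (0 : Fin 5) (2 : Fin 5) (3 : Fin 5) (4 : Fin 5)) ![o, e, h, N]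
  simp only [Fl.bv_fAtCof] at h0
  exact h0

theorem ext_AtCof_e (o k h N : BSet B) :
    Ext (fun e : BSet B => AtCof o k e h N) := by
  have h0 := Fml.ext_bv (B := B) (Fl.fAtCof (1 : Fin 5) (2 : Fin 5) (0 : Fin 5) (3 : Fin 5) (4 : Fin 5)) ![o, k, h, N]
  simp only [Fl.bv_fAtCof] at h0
  exact h0

theorem ext_AtCof_h (o k e N : BSet B) :
    Ext (fun h : BSet B => AtCof o k e h N) := by
  have h0 := Fml.ext_bv (B := B) (Fl.fAtCof (1 : Fin 5) (2 : Fin 5) (3 : Fin 5) (0 : Fin 5) (4 : Fin 5)) ![o, k, e, N]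
  simp only [Fl.bv_fAtCof] at h0
  exact h0

theorem ext_AtCof_N (o k e h : BSet B) :
    Ext (fun N : BSet B => AtCof o k e h N) := by
  have h0 := Fml.ext_bv (B := B) (Fl.fAtCof (1 : Fin 5) (2 : Fin 5) (3 : Fin 5) (4 : Fin 5) (0 : Fin 5)) ![o, k, e, h]
  simp only [Fl.bv_fAtCof] at h0
  exact h0

theorem ext_AtSplit_o (k e h N : BSet B) :
    Ext (fun o : BSet B => AtSplit o k e h N) := by
  have h0 := Fml.ext_bv (B := B) (Fl.fAtSplit (0 : Fin 5) (1 : Fin 5) (2 : Fin 5) (3 : Fin 5) (4 : Fin 5)) ![k, e, h, N]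
  simp only [Fl.bv_fAtSplit] at h0
  exact h0

theorem ext_AtSplit_k (o e h N : BSet B) :
    Ext (fun k : BSet B => AtSplit o k e h N) := by
  have h0 := Fml.ext_bv (B := B) (Fl.fAtSplit (1 : Fin 5) (0 : Fin 5) (2 : Fin 5) (3 : Fin 5) (4 : Fin 5)) ![o, e, h, N]
  simp only [Fl.bv_fAtSplit] at h0
  exact h0

theorem ext_AtSplit_e (o k h N : BSet B) :
    Ext (fun e : BSet B => AtSplit o k e h N) := by
  have h0 := Fml.ext_bv (B := B) (Fl.fAtSplit (1 : Fin 5) (2 : Fin 5) (0 : Fin 5) (3 : Fin 5) (4 : Fin 5)) ![o, k, h, N]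
  simp only [Fl.bv_fAtSplit] at h0
  exact h0

theorem ext_AtSplit_h (o k e N : BSet B) :
    Ext (fun h : BSet B => AtSplit o k e h N) := by
  have h0 := Fml.ext_bv (B := B) (Fl.fAtSplit (1 : Fin 5) (2 : Fin 5) (3 : Fin 5) (0 : Fin 5) (4 : Fin 5)) ![o, k, e, N]
  simp only [Fl.bv_fAtSplit] at h0
  exact h0

theorem ext_AtSplit_N (o k e h : BSet B) :
    Ext (fun N : BSet B => AtSplit o k e h N) := by
  have h0 := Fml.ext_bv (B := B) (Fl.fAtSplit (1 : Fin 5) (2 : Fin 5) (3 : Fin 5) (4 : Fin 5) (0 : Fin 5)) ![o, k, e, h]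
  simp only [Fl.bv_fAtSplit] at h0
  exact h0

theorem ext_Enum_k (Z h : BSet B) :
    Ext (fun k : BSet B => Enum k Z h) := by
  have h0 := Fml.ext_bv (B := B) (Fl.fEnum (0 : Fin 3) (1 : Fin 3) (2 : Fin 3)) ![Z, h]
  simp only [Fl.bv_fEnum] at h0
  exact h0

theorem ext_Enum_Z (k h : BSet B) :
    Ext (fun Z : BSet B => Enum k Z h) := by
  have h0 := Fml.ext_bv (B := B) (Fl.fEnum (1 : Fin 3) (0 : Fin 3) (2 : Fin 3)) ![k, h]
  simp only [Fl.bv_fEnum] at h0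
  exact h0

theorem ext_Enum_h (k Z : BSet B) :
    Ext (fun h : BSet B => Enum k Z h) := by
  have h0 := Fml.ext_bv (B := B) (Fl.fEnum (1 : Fin 3) (2 : Fin 3) (0 : Fin 3)) ![k, Z]
  simp only [Fl.bv_fEnum] at h0
  exact h0

theorem ext_Cl_w (o e Z h Φ N : BSet B) :
    Ext (fun w : BSet B => Cl w o e Z h Φ N) := by
  have h0 := Fml.ext_bv (B := B) (Fl.fCl (0 : Fin 7) (1 : Fin 7) (2 : Fin 7) (3 : Fin 7) (4 : Fin 7) (5 : Fin 7) (6 : Fin 7)) ![o, e, Z, h, Φ, N]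
  simp only [Fl.bv_fCl] at h0
  exact h0

theorem ext_Cl_o (w e Z h Φ N : BSet B) :
    Ext (fun o : BSet B => Cl w o e Z h Φ N) := by
  have h0 := Fml.ext_bv (B := B) (Fl.fCl (1 : Fin 7) (0 : Fin 7) (2 : Fin 7) (3 : Fin 7) (4 : Fin 7) (5 : Fin 7) (6 : Fin 7)) ![w, e, Z, h, Φ, N]
  simp only [Fl.bv_fCl] at h0
  exact h0

theorem ext_Cl_e (w o Z h Φ N : BSet B) :
    Ext (fun e : BSet B => Cl w o e Z h Φ N) := by
  have h0 := Fml.ext_bv (B := B) (Fl.fCl (1 : Fin 7) (2 : Fin 7) (0 : Fin 7) (3 : Fin 7) (4 : Fin 7) (5 : Fin 7) (6 : Fin 7)) ![w, o, Z, h, Φ, N]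
  simp only [Fl.bv_fCl] at h0
  exact h0

theorem ext_Cl_Z (w o e h Φ N : BSet B) :
    Ext (fun Z : BSet B => Cl w o e Z h Φ N) := by
  have h0 := Fml.ext_bv (B := B) (Fl.fCl (1 : Fin 7) (2 : Fin 7) (3 : Fin 7) (0 : Fin 7) (4 : Fin 7) (5 : Fin 7) (6 : Fin 7)) ![w, o, e, h, Φ, N]
  simp only [Fl.bv_fCl] at h0
  exact h0

theorem ext_Cl_h (w o e Z Φ N : BSet B) :
    Ext (fun h : BSet B => Cl w o e Z h Φ N) := by
  have h0 := Fml.ext_bv (B := B) (Fl.fCl (1 : Fin 7) (2 : Fin 7) (3 : Fin 7) (4 : Fin 7) (0 : Fin 7) (5 : Fin 7) (6 : Fin 7)) ![w, o, e, Z, Φ, N]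
  simp only [Fl.bv_fCl] at h0
  exact h0

theorem ext_Cl_Φ (w o e Z h N : BSet B) :
    Ext (fun Φ : BSet B => Cl w o e Z h Φ N) := by
  have h0 := Fml.ext_bv (B := B) (Fl.fCl (1 : Fin 7) (2 : Fin 7) (3 : Fin 7) (4 : Fin 7) (5 : Fin 7) (0 : Fin 7) (6 : Fin 7)) ![w, o, e, Z, h, N]
  simp only [Fl.bv_fCl] at h0
  exact h0

theorem ext_Cl_N (w o e Z h Φ : BSet B) :
    Ext (fun N : BSet B => Cl w o e Z h Φ N) := by
  have h0 := Fml.ext_bv (B := B) (Fl.fCl (1 : Fin 7) (2 : Fin 7) (3 : Fin 7) (4 : Fin 7) (5 : Fin 7) (6 : Fin 7) (0 : Fin 7)) ![w, o, e, Z, h, Φ]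
  simp only [Fl.bv_fCl] at h0
  exact h0

theorem ext_Par_w (o k e : BSet B) :
    Ext (fun w : BSet B => Par w o k e) := by
  have h0 := Fml.ext_bv (B := B) (Fl.fPar (0 : Fin 4) (1 : Fin 4) (2 : Fin 4) (3 : Fin 4)) ![o, k, e]
  simp only [Fl.bv_fPar] at h0
  exact h0

theorem ext_Par_o (w k e : BSet B) :
    Ext (fun o : BSet B => Par w o k e) := by
  have h0 := Fml.ext_bv (B := B) (Fl.fPar (1 : Fin 4) (0 : Fin 4) (2 : Fin 4) (3 : Fin 4)) ![w, k, e]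
  simp only [Fl.bv_fPar] at h0
  exact h0

theorem ext_Par_k (w o e : BSet B) :
    Ext (fun k : BSet B => Par w o k e) := by
  have h0 := Fml.ext_bv (B := B) (Fl.fPar (1 : Fin 4) (2 : Fin 4) (0 : Fin 4) (3 : Fin 4)) ![w, o, e]
  simp only [Fl.bv_fPar] at h0
  exact h0

theorem ext_Par_e (w o k : BSet B) :
    Ext (fun e : BSet B => Par w o k e) := by
  have h0 := Fml.ext_bv (B := B) (Fl.fPar (1 : Fin 4) (2 : Fin 4) (3 : Fin 4) (0 : Fin 4)) ![w, o, k]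
  simp only [Fl.bv_fPar] at h0
  exact h0

end Kc

end Pool.MP_d8f801_lc.SC
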