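import Pool.Agent.Lib.MP_d8f801_lc.SC.V.Chk

/-!
# SC/V: the natural numbers (module V-Om)

`om` is the element of `X` whose initial segment has type `ω`: the least `x ≠ ⊥` without predecessor. It is less than
`w1`: by minimality `om ≤ w1` (see `om_aux`), and `Iio om` is countable (by `om_cases` every element is obtained from `⊥` by
finitely many successor steps) while `Iio w1` is not.
PROOF of `Omega_om`: like `Kb.Omega_omega` in `KR/E/Base.lean`, with `om_cases` and wellfounded induction.
-/

set_option autoImplicit false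

universe u

namespace Pool.MP_d8f801_lc.SC

open Set Pool.Agent.Lib.MP_4d8715_gt.KR BSet

section om

variable (X : Type u) [Stg X]

private theorem om_spec : om X ≠ ⊥ ∧ ∀ y, y < om X → ∃ z, y < z ∧ z < om X :=
  Stg.wfl.min_mem {x : X | x ≠ ⊥ ∧ ∀ y, y < x → ∃ z, y < z ∧ z < x} (om_aux X)

private theorem om_least {x : X} (h : x ≠ ⊥ ∧ ∀ y, y < x → ∃ z, y < z ∧ z < x) : om X ≤ x := by
  have h1 : ¬ x < om X :=
    Stg.wfl.not_lt_min {x : X | x ≠ ⊥ ∧ ∀ y, y < x → ∃ z, y < z ∧ z < x} h
  exact not_lt.mp h1

theorem bot_lt_om : (⊥ : X) < om X := bot_lt_iff_ne_bot.mpr (om_spec X).1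

private theorem om_w1_mem : (w1 : X) ≠ ⊥ ∧ ∀ y, y < (w1 : X) → ∃ z, y < z ∧ z < w1 := by
  refine ⟨?_, fun y hy => ?_⟩
  · intro h
    refine Stg.w1_unc (X := X) ?_
    rw [show (Iio (w1 : X)) = ∅ from Set.eq_empty_of_forall_notMem fun x hx => by
      rw [h] at hx
      exact not_lt_bot hx]
    exact countable_empty
  · by_contra hc
    push Not at hc
    refine Stg.w1_unc (X := X) ?_
    refine ((Stg.w1_min y hy).union (countable_singleton y)).mono fun x hx => ?_
    rcases lt_trichotomy x y with h | h | h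
    · exact Or.inl h
    · exact Or.inr h
    · exact absurd hx (not_lt.2 (hc x h))

private theorem om_lim' {y : X} (h : y < om X) : ∃ z, y < z ∧ z < om X := (om_spec X).2 y h

private theorem om_cases' {y : X} (h : y < om X) : y = ⊥ ∨ ∃ z, z < y ∧ ∀ t, t < y → t ≤ z := by
  by_cases h0 : y = ⊥
  · exact Or.inl h0
  · right
    by_contra hc
    push Not at hc
    have h1 : om X ≤ y := om_least X ⟨h0, fun z hz => by
      obtain ⟨t, ht1, ht2⟩ := hc z hz
      exact ⟨t, ht2, ht1⟩⟩
    exact absurd h (not_lt.mpr h1)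

private theorem om_finite : ∀ y : X, y < om X → (Iio y).Finite := by
  intro y
  induction y using (Stg.wfl (X := X)).induction with
  | _ y ih =>
    intro h
    rcases om_cases' X h with h0 | ⟨z, hz, ht⟩
    · subst h0
      rw [show (Iio (⊥ : X)) = ∅ from Set.eq_empty_of_forall_notMem fun x hx => not_lt_bot hx]
      exact finite_empty
    · have h1 : (Iio y) ⊆ insert z (Iio z) := by
        intro t ht'
        rcases (ht t ht').lt_or_eq with h2 | h2
        · exact Or.inr h2
        · exact Or.inl h2
      exact ((ih z hz (hz.trans h)).insert z).subset h1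

private theorem om_count : (Iio (om X)).Countable := by
  have h : ∀ x ∈ Iio (om X), ∀ y ∈ Iio (om X), (Iio x).ncard = (Iio y).ncard → x = y := by
    intro x hx y hy hxy
    rcases lt_trichotomy x y with h1 | h1 | h1
    · have : (Iio x).ncard < (Iio y).ncard := by
        apply Set.ncard_lt_ncard _ (om_finite X y hy)
        refine ⟨fun t ht => lt_trans ht h1, fun hc => ?_⟩
        exact lt_irrefl x (hc h1)
      omega
    · exact h1
    · have : (Iio y).ncard < (Iio x).ncard := by
        apply Set.ncard_lt_ncard _ (om_finite X x hx)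
        refine ⟨fun t ht => lt_trans ht h1, fun hc => ?_⟩
        exact lt_irrefl y (hc h1)
      omega
  have h2 : Set.InjOn (fun x : X => (Iio x).ncard) (Iio (om X)) := fun x hx y hy hxy =>
    h x hx y hy hxy
  exact Set.MapsTo.countable_of_injOn (mapsTo_univ _ (Iio (om X))) h2 (Set.to_countable _)

theorem om_lt : om X < w1 := by
  have h1 : om X ≤ w1 := om_least X (om_w1_mem X)
  rcases h1.lt_or_eq with h | h
  · exact h
  · exfalso
    refine Stg.w1_unc (X := X) ?_
    rw [← h]
    exact om_count X

theorem om_lim {y : X} (h : y < om X) : ∃ z, y < z ∧ z < om X := om_lim' X h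

/-- an element less than `om` is the least one or has a predecessor -/
theorem om_cases {y : X} (h : y < om X) : y = ⊥ ∨ ∃ z, z < y ∧ ∀ t, t < y → t ≤ z :=
  om_cases' X h

theorem countable_om : (Iio (om X)).Countable := om_count X

/-- an enumeration of the elements less than `om` -/
theorem exists_enum_om : ∃ e : ℕ → X, Function.Injective e ∧ range e = Iio (om X) := by
  have hinf : (Iio (om X)).Infinite := by
    intro hf
    obtain ⟨a, ha, hmax⟩ := Set.exists_max_image (Iio (om X)) id hf ⟨⊥, bot_lt_om X⟩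
    obtain ⟨z, hz1, hz2⟩ := om_lim X ha
    exact absurd (hmax z hz2) (not_le.mpr hz1)
  obtain ⟨D⟩ := Set.countable_infinite_iff_nonempty_denumerable.mp ⟨om_count X, hinf⟩
  refine ⟨fun n => ((Denumerable.eqv ↥(Iio (om X))).symm n).1, ?_, ?_⟩
  · intro a b hab
    exact (Denumerable.eqv ↥(Iio (om X))).symm.injective (Subtype.ext hab)
  · ext x
    constructor
    · rintro ⟨n, rfl⟩
      exact ((Denumerable.eqv ↥(Iio (om X))).symm n).2
    · intro hx
      refine ⟨Denumerable.eqv ↥(Iio (om X)) ⟨x, hx⟩, ?_⟩
      simp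

theorem countable_lt_w1 {x : X} (h : x < w1) : (Iio x).Countable := Stg.w1_min x h

theorem w1_lt_kk : (w1 : X) < kk := Stg.w1_lt

end om

variable {X : Type u} [Stg X] {B : Type u} [CompleteBooleanAlgebra B]

private theorem om_ext {ψ : BSet B → B}
    (h : ∀ x y, ∀ U : Ult B, U (beq x y) → U (ψ x) → U (ψ y)) : Ext ψ := by
  intro x y
  refine le_iff_ev.mpr (Filter.Eventually.of_forall fun U hU => ?_)
  rw [Ult.inf'] at hU
  exact h x y U hU.1 hU.2

private theorem om_emp : beq (chk (⊥ : X) : BSet B) empty = ⊤ := by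
  rw [← Kb.Emp_eq]
  exact chk_bot

/-- the successor -/
private theorem om_suc {y z : X} (hz : z < y) (ht : ∀ t, t < y → t ≤ z) :
    Kb.Suc (chk y : BSet B) (chk z) = ⊤ := by
  rw [Kb.Suc_eq, BSet.beq_ext]
  refine iInf_eq_top.mpr fun a => ?_
  have h1 : bmem a (chk y : BSet B) = bmem a (succ (chk z)) := by
    rw [bmem_succ, bmem_chk', bmem_chk']
    refine le_antisymm ?_ ?_
    · refine iSup_le fun t => iSup_le fun h => ?_
      rcases (ht t h).lt_or_eq with h2 | h2
      · exact le_sup_of_le_left (le_iSup_of_le t (le_iSup_of_le h2 le_rfl))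
      · rw [h2]; exact le_sup_right
    · refine sup_le (iSup_le fun t => iSup_le fun h => ?_) ?_
      · exact le_iSup_of_le t (le_iSup_of_le (lt_trans h hz) le_rfl)
      · exact le_iSup_of_le z (le_iSup_of_le hz le_rfl)
  rw [h1]
  simp

theorem Omega_om : Kb.Omega (chk (om X) : BSet B) = ⊤ := by
  have hI : Kb.Ind (chk (om X) : BSet B) = ⊤ := by
    unfold Kb.Ind
    have h1 : (⨅ o : BSet B, Kb.Emp o ⇨ bmem o (chk (om X))) = ⊤ := by
      simp only [Kb.Emp_eq]
      rw [iInf_beq (ext_bmem_left (chk (om X)))]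
      have h2 : beq (chk (⊥ : X) : BSet B) empty ⊓ bmem (chk (⊥ : X)) (chk (om X)) ≤
          bmem empty (chk (om X) : BSet B) := ext_bmem_left (chk (om X)) _ _
      rw [om_emp, bmem_chk, top_inf_eq] at h2
      have h3 : tv B ((⊥ : X) < om X) = ⊤ := by
        unfold tv
        exact iSup_pos (bot_lt_om X)
      rw [h3] at h2
      exact top_unique h2
    have h2 : (⨅ x : BSet B, ⨅ y, bmem x (chk (om X)) ⇨ Kb.Suc y x ⇨ bmem y (chk (om X))) = ⊤ := by
      have h3 : ∀ x : BSet B, (⨅ y, bmem x (chk (om X)) ⇨ Kb.Suc y x ⇨ bmem y (chk (om X))) =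
          bmem x (chk (om X)) ⇨ bmem (succ x) (chk (om X)) := by
        intro x
        simp only [Kb.Suc_eq]
        rw [← himp_iInf_eq, iInf_beq (ext_bmem_left (chk (om X)))]
      simp only [h3]
      have hext : Ext (fun x : BSet B => bmem (succ x) (chk (om X))) := by
        refine om_ext fun x y U hU hx => ?_
        refine ev_bmem_left ?_ hx
        rw [ult_beq]
        intro z
        rw [bmem_succ, bmem_succ, Ult.sup', Ult.sup']
        constructor
        · rintro (h | h)
          · exact Or.inl (ev_bmem_right hU h)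
          · exact Or.inr (ev_beq_trans h hU)
        · rintro (h | h)
          · exact Or.inl (ev_bmem_right (ev_beq_symm hU) h)
          · exact Or.inr (ev_beq_trans h (ev_beq_symm hU))
      rw [iInf_chk (om X) hext]
      refine iInf_eq_top.mpr fun y => iInf_eq_top.mpr fun hy => ?_
      have hne : {z : X | y < z}.Nonempty := by
        obtain ⟨z, hz, _⟩ := om_lim X hy
        exact ⟨z, hz⟩
      have hy1 : y < Stg.wfl.min {z : X | y < z} hne := Stg.wfl.min_mem {z : X | y < z} hne
      set y' := Stg.wfl.min {z : X | y < z} hne with hy'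
      have hy2 : ∀ t, t < y' → t ≤ y := by
        intro t ht
        by_contra hc
        exact Stg.wfl.not_lt_min {z : X | y < z} (not_le.mp hc) ht
      have hy3 : y' < om X := by
        obtain ⟨z, hz1, hz2⟩ := om_lim X hy
        have : ¬ z < y' := Stg.wfl.not_lt_min {z : X | y < z} hz1
        exact lt_of_le_of_lt (not_lt.mp this) hz2
      have h4 := om_suc (B := B) hy1 hy2
      rw [Kb.Suc_eq] at h4
      have h5 : beq (chk y' : BSet B) (succ (chk y)) ⊓ bmem (chk y') (chk (om X)) ≤
          bmem (succ (chk y)) (chk (om X) : BSet B) := ext_bmem_left (chk (om X)) _ _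
      have h6 : tv B (y' < om X) = ⊤ := by
        unfold tv
        exact iSup_pos hy3
      rw [h4, bmem_chk, top_inf_eq, h6] at h5
      exact top_unique h5
    rw [h1, h2, inf_top_eq]
  unfold Kb.Omega
  rw [hI, top_inf_eq, iInf_eq_top]
  intro w'
  rw [himp_eq_top_iff, Kb.Sub_eq]
  unfold bsub
  rw [iInf_chk (om X) (ext_bmem_left w')]
  refine le_iInf fun y => le_iInf fun hy => ?_
  have key : ∀ y : X, y < om X → Kb.Ind w' ≤ bmem (chk y) w' := by
    intro y
    induction y using (Stg.wfl (X := X)).induction with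
    | _ y ih =>
      intro hy
      rcases om_cases X hy with h0 | ⟨z, hz, ht⟩
      · subst h0
        have h1 : Kb.Ind w' ≤ Kb.Emp (chk (⊥ : X) : BSet B) ⇨ bmem (chk (⊥ : X)) w' :=
          inf_le_left.trans (iInf_le _ _)
        rw [chk_bot, top_himp] at h1
        exact h1
      · have h1 : Kb.Ind w' ≤ bmem (chk z) w' ⇨ Kb.Suc (chk y) (chk z) ⇨ bmem (chk y) w' :=
          inf_le_right.trans ((iInf_le _ _).trans (iInf_le _ _))
        rw [om_suc hz ht, top_himp, le_himp_iff] at h1
        exact (le_inf le_rfl (ih z hz (hz.trans hy))).trans h1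
  exact key y hy

end Pool.MP_d8f801_lc.SC
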