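import Pool.Agent.Lib.MP_d8f801_lc.SC.V.Chk

/-!
# SC/V: ordinals (module V-Ord)

PROOFS. `ord_tri`: induction on the `BSet` `x`, then on `y` (both inductions are on the structure). Show
`Ord x ⊓ Ord y ⊓ (bmem x y)ᶜ ⊓ (bmem y x)ᶜ ≤ beq x y` with `beq_def`: for an index `i` of `x`, by the induction
hypothesis for `x.func i` and `y`:
`Ord (x.func i) ⊓ Ord y ≤ beq (x.func i) y ⊔ bmem (x.func i) y ⊔ bmem y (x.func i)`, and
`Ord x ⊓ x.val i ≤ Ord (x.func i)`, `x.val i ⊓ beq (x.func i) y ≤ bmem y x`,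
`Ord x ⊓ x.val i ⊓ bmem y (x.func i) ≤ bmem y x`; symmetrically for an index of `y` with the induction hypothesis
for `x` and `y.func j`. Each inequality can be checked with one ultrafilter (`le_iff_ev`, `Ult` simp lemmas,
`los_iInf`).
-/

set_option autoImplicit false

universe u

namespace Pool.MP_d8f801_lc.SC

open Set Pool.Agent.Lib.MP_4d8715_gt.KR BSet

section

variable {B : Type u} [CompleteBooleanAlgebra B]

private theorem ult_trans (U : Ult B) (x : BSet B) :
    U (Kc.Trans x) ↔ ∀ y z, U (bmem y x) → U (bmem z y) → U (bmem z x) := by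
  unfold Kc.Trans
  rw [los_iInf (Ext.iInf fun z => (ext_bmem_left x).himp ((ext_bmem_right z).himp (ext_const _)))]
  refine forall_congr' fun y => ?_
  rw [los_iInf ((ext_const _).himp ((ext_bmem_left y).himp (ext_bmem_left x)))]
  refine forall_congr' fun z => ?_
  rw [Ult.himp', Ult.himp']

private theorem ult_ord (U : Ult B) (x : BSet B) :
    U (Kc.Ord x) ↔ U (Kc.Trans x) ∧ ∀ y, U (bmem y x) → U (Kc.Trans y) := by
  unfold Kc.Ord
  rw [Ult.inf', los_iInf ((ext_bmem_left x).himp Kc.ext_Trans_x)]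
  simp only [Ult.himp']

private theorem ult_ord_mem {U : Ult B} {x y : BSet B} (hx : U (Kc.Ord x)) (hy : U (bmem y x)) :
    U (Kc.Ord y) := by
  rw [ult_ord] at hx ⊢
  refine ⟨hx.2 y hy, fun z hz => hx.2 z ?_⟩
  exact (ult_trans U x).1 hx.1 y z hy hz

theorem ord_mem (x y : BSet B) : Kc.Ord x ⊓ bmem y x ≤ Kc.Ord y := by
  refine le_iff_ev.mpr (Filter.Eventually.of_forall fun U hU => ?_)
  rw [Ult.inf'] at hU
  exact ult_ord_mem hU.1 hU.2

theorem ord_tri (x y : BSet B) : Kc.Ord x ⊓ Kc.Ord y ≤ beq x y ⊔ (bmem x y ⊔ bmem y x) := by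
  induction x generalizing y with
  | mk α A b ih =>
    induction y with
    | mk β A' b' ih' =>
      have key : (Kc.Ord (mk α A b) ⊓ Kc.Ord (mk β A' b')) ⊓
          ((bmem (mk α A b) (mk β A' b'))ᶜ ⊓ (bmem (mk β A' b') (mk α A b))ᶜ) ≤
          beq (mk α A b) (mk β A' b') := by
        rw [beq_def]
        refine le_inf (le_iInf fun i => ?_) (le_iInf fun j => ?_)
        · rw [le_himp_iff]
          refine le_iff_ev.mpr (Filter.Eventually.of_forall fun U hU => ?_)
          simp only [Ult.inf', Ult.compl'] at hU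
          obtain ⟨⟨⟨h1, h2⟩, h3, h4⟩, h5⟩ := hU
          have h6 : U (bmem (A i) (mk α A b)) := ult_bmem_mk A b U i h5
          have h7 := U.mono (ih i (mk β A' b')) ((U.inf _ _).2 ⟨ult_ord_mem h1 h6, h2⟩)
          simp only [Ult.sup'] at h7
          rcases h7 with h7 | h7 | h7
          · exact absurd (ev_bmem_left h7 h6) h4
          · exact h7
          · exact absurd ((ult_trans U _).1 ((ult_ord U _).1 h1).1 _ _ h6 h7) h4
        · rw [le_himp_iff]
          refine le_iff_ev.mpr (Filter.Eventually.of_forall fun U hU => ?_)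
          simp only [Ult.inf', Ult.compl'] at hU
          obtain ⟨⟨⟨h1, h2⟩, h3, h4⟩, h5⟩ := hU
          have h6 : U (bmem (A' j) (mk β A' b')) := ult_bmem_mk A' b' U j h5
          have h7 := U.mono (ih' j) ((U.inf _ _).2 ⟨h1, ult_ord_mem h2 h6⟩)
          simp only [Ult.sup'] at h7
          rcases h7 with h7 | h7 | h7
          · exact absurd (ev_bmem_left (ev_beq_symm h7) h6) h3
          · exact absurd ((ult_trans U _).1 ((ult_ord U _).1 h2).1 _ _ h6 h7) h3
          · exact h7
      refine le_iff_ev.mpr (Filter.Eventually.of_forall fun U hU => ?_)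
      simp only [Ult.sup']
      by_contra hc
      push Not at hc
      refine hc.1 (U.mono key ?_)
      simp only [Ult.inf', Ult.compl'] at hU ⊢
      exact ⟨hU, hc.2.1, hc.2.2⟩

end

variable {B : Type u} [CompleteBooleanAlgebra B] {X : Type u} [LinearOrder X] [WellFoundedLT X]

private theorem trans_chk (x : X) : Kc.Trans (chk x : BSet B) = ⊤ := by
  have h1 : Kc.Trans (chk x : BSet B) =
      ⨅ y, bmem y (chk x) ⇨ (⨅ z, bmem z y ⇨ bmem z (chk x)) := by
    unfold Kc.Trans
    refine iInf_congr fun y => ?_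
    rw [himp_iInf_eq]
  have hE : Ext (fun y : BSet B => ⨅ z, bmem z y ⇨ bmem z (chk x)) :=
    Ext.iInf fun z => (ext_bmem_right z).himp (ext_const _)
  rw [h1, iInf_chk x hE, iInf_eq_top]
  intro y
  rw [iInf_eq_top]
  intro hy
  rw [iInf_chk y (ext_bmem_left (chk x)), iInf_eq_top]
  intro z
  rw [iInf_eq_top]
  intro hz
  rw [bmem_chk]
  unfold tv
  exact iSup_pos (lt_trans hz hy)

theorem Ord_chk (x : X) : Kc.Ord (chk x : BSet B) = ⊤ := by
  unfold Kc.Ord
  rw [trans_chk, top_inf_eq, iInf_chk x Kc.ext_Trans_x, iInf_eq_top]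
  intro y
  rw [iInf_eq_top]
  intro _
  exact trans_chk y

end Pool.MP_d8f801_lc.SC
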