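import Pool.Agent.Lib.MP_d8f801_lc.SC.V.FunB
import Pool.Agent.Lib.MP_d8f801_lc.SC.V.Om
import Pool.Agent.Lib.MP_d8f801_lc.SC.V.Ord

/-!
# SC/V: `κ` is `ω₂` in the extension (module V-Kk)

PROOF of `Omega2_kk`: `Ord_chk`. Not `Cov w1 kk`: suppose `p` forces that `f` is a function on `w1` with all
`chk z`, `z < kk`, as values. For `i < w1` let `S i` be the set of the `z < kk` such that some `q ≤ p` forces
`App f (chk i) (chk z)`; choosing such `q` for each `z` gives an antichain (`FunOn_unique`, `beq_chk`) indexed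
injectively by `S i`, so `#(S i) < #(Iio kk)` (`Frame.cc`). As `#(Iio kk)` is regular (`Stg.reg`) and
`#(Iio w1) < #(Iio kk)` (`Stg.kk_min`, `Stg.w1_lt`) the union of the `S i`, `i < w1`, is not `Iio kk`: take `z < kk`
which does not belong to it. Then `p` forces `⨆ i < w1, App f (chk i) (chk z)`: contradiction.
`Cov w1 x` for `x < kk`: `Frame.coll` and `fB (Iio w1) l`, `FunOn_fB`, `App_fB_chk`.
-/

set_option autoImplicit false

universe u

namespace Pool.MP_d8f801_lc.SC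

open Cardinal Set Pool.Agent.Lib.MP_4d8715_gt.KR BSet

variable {X : Type u} [Stg X] {P : Type u} [Preorder P]

/-- the set of the values of `f` at `i` -/
private def KkS (f : BSet (RO P)) (p : P) (i : X) : Set X :=
  {z | z < kk ∧ ∃ q, q ≤ p ∧ q ∈ (Kb.App f (chk i) (chk z)).carrier}

private theorem Kk_small {hn : X → X → X → RO P} (h : Frame P hn) (f d : BSet (RO P)) (p : P)
    (hf : p ∈ (Kb.FunOn f d).carrier) (i : X) : #(KkS f p i) < #(Iio (kk : X)) := by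
  have hch : ∀ z : KkS f p i, ∃ q, q ≤ p ∧ q ∈ (Kb.App f (chk i) (chk z.1)).carrier := fun z => z.2.2
  choose g hg1 hg2 using hch
  have hco : ∀ z z' : KkS f p i, (∃ c, c ≤ g z ∧ c ≤ g z') → z = z' := by
    rintro z z' ⟨c, hc, hc'⟩
    have h1 : c ∈ (Kb.FunOn f d ⊓ (Kb.App f (chk i) (chk z.1) ⊓ Kb.App f (chk i) (chk z'.1))).carrier :=
      RO.mem_inf.2 ⟨frc_down (hc.trans (hg1 z)) hf, RO.mem_inf.2 ⟨frc_down hc (hg2 z), frc_down hc' (hg2 z')⟩⟩
    have h2 := frc_mono (FunOn_unique f d (chk i) (chk z.1) (chk z'.1)) h1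
    rw [beq_chk] at h2
    exact Subtype.ext (frc_tv.1 h2)
  have hinj : Function.Injective g := fun z z' hz => hco z z' ⟨g z, le_rfl, hz.le⟩
  have h1 : Sm X (range g) := by
    refine h.cc _ ?_
    rintro _ ⟨z, rfl⟩ _ ⟨z', rfl⟩ hne hc
    exact hne (congrArg g (hco z z' hc))
  have h2 : #(range g) < #(Iio (kk : X)) := h1
  rwa [Cardinal.mk_range_eq g hinj] at h2

private theorem Kk_union {hn : X → X → X → RO P} (h : Frame P hn) (f d : BSet (RO P)) (p : P)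
    (hf : p ∈ (Kb.FunOn f d).carrier) : ∃ z : X, z < kk ∧ ∀ i : X, i < w1 → z ∉ KkS f p i := by
  by_contra hcon
  push Not at hcon
  have h1 : Iio (kk : X) ⊆ ⋃ i : Iio (w1 : X), KkS f p i.1 := by
    intro z hz
    obtain ⟨i, hi, hzi⟩ := hcon z hz
    exact mem_iUnion.2 ⟨⟨i, hi⟩, hzi⟩
  have h2 : #(Iio (kk : X)) ≤ Cardinal.sum fun i : Iio (w1 : X) => #(KkS f p i.1) :=
    (Cardinal.mk_le_mk_of_subset h1).trans (Cardinal.mk_iUnion_le_sum_mk)
  have h3 : (Cardinal.sum fun i : Iio (w1 : X) => #(KkS f p i.1)) < #(Iio (kk : X)) :=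
    Cardinal.sum_lt_of_isRegular Stg.reg (Stg.kk_min w1 Stg.w1_lt) fun i => Kk_small h f d p hf i.1
  exact absurd h3 (not_lt.2 h2)

private theorem Kk_ext_ran (f d : BSet (RO P)) : Ext (fun z => ⨆ i, bmem i d ⊓ Kb.App f i z) :=
  Ext.iSup fun i => (ext_const _).inf (Kb.ext_App_b f i)

private theorem Kk_ext_ran' (d b : BSet (RO P)) :
    Ext (fun f => Kb.FunOn f d ⊓ (⨅ z, bmem z b ⇨ (⨆ i, bmem i d ⊓ Kb.App f i z))) :=
  (Kb.ext_FunOn_f d).inf (Ext.iInf fun z => (ext_const _).himp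
    (Ext.iSup fun i => (ext_const _).inf (Kb.ext_App_f i z)))

private theorem Kk_ran (f : BSet (RO P)) (x : X) (z : BSet (RO P)) :
    (⨆ i, bmem i (chk x) ⊓ Kb.App f i z) = ⨆ i : X, ⨆ _ : i ∈ Iio x, Kb.App f (chk i) z :=
  iSup_chk x (Kb.ext_App_a f z)

private theorem Kk_not {hn : X → X → X → RO P} (h : Frame P hn) :
    Kc.Cov (chk (w1 : X) : BSet (RO P)) (chk (kk : X)) = ⊥ := by
  by_contra hcon
  obtain ⟨p, hp⟩ := RO.nonempty_of_ne_bot hcon
  unfold Kc.Cov at hp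
  obtain ⟨f, hf⟩ := mem_max (Kk_ext_ran' _ _) hp
  rw [RO.mem_inf] at hf
  obtain ⟨hf1, hf2⟩ := hf
  obtain ⟨z, hz, hzS⟩ := Kk_union h f _ p hf1
  rw [iInf_chk (kk : X) (Kk_ext_ran f _)] at hf2
  have h1 := (mem_iInf₂'.1 hf2) z hz
  rw [Kk_ran] at h1
  obtain ⟨r, hr, i, hi, hri⟩ := (mem_iSup₂'.1 h1) p le_rfl
  exact hzS i hi ⟨hz, r, hr, hri⟩

private theorem Kk_cov {hn : X → X → X → RO P} (h : Frame P hn) (y : X) (hy : y < kk) :
    Kc.Cov (chk (w1 : X) : BSet (RO P)) (chk y) = ⊤ := by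
  obtain ⟨l, hl1, hl2, hl3⟩ := h.coll y hy
  have hS : IsFnS (Iio (w1 : X)) l := ⟨fun i _ => hl2 i, fun i _ => hl1 i⟩
  unfold Kc.Cov
  refine top_unique (le_iSup_of_le (fB (Iio (w1 : X)) l) (le_inf ?_ ?_))
  · rw [chk_eq, FunOn_fB hS]
  · rw [iInf_chk y (Kk_ext_ran _ _)]
    refine le_iInf fun v => le_iInf fun hv => ?_
    rw [Kk_ran]
    have h1 := hl3 v hv
    rw [← h1]
    refine iSup_mono fun i => ?_
    refine iSup_le fun hi => le_iSup_of_le hi ?_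
    exact (App_fB_chk (S := Iio (w1 : X)) l (mem_Iio.2 hi) v).ge

theorem Omega2_kk {hn : X → X → X → RO P} (h : Frame P hn) :
    Kc.Omega2 (chk (w1 : X) : BSet (RO P)) (chk (kk : X)) = ⊤ := by
  unfold Kc.Omega2
  have h1 : (⨅ x, bmem x (chk (kk : X)) ⇨ Kc.Cov (chk (w1 : X) : BSet (RO P)) x) = ⊤ := by
    rw [iInf_chk (kk : X) (Kc.ext_Cov_b _)]
    exact iInf_eq_top.2 fun y => iInf_eq_top.2 fun hy => Kk_cov h y hy
  rw [Ord_chk, Kk_not h, h1, compl_bot, top_inf_eq, top_inf_eq]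

end Pool.MP_d8f801_lc.SC
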