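import Pool.Agent.Lib.MP_d8f801_lc.SC.V.FunB
import Pool.Agent.Lib.MP_d8f801_lc.SC.V.Om
import Pool.Agent.Lib.MP_d8f801_lc.SC.V.Ord

/-!
# SC/V: `ω₁` is preserved (module V-W1)

PROOF of `Omega1_w1`: `Ord_chk`. Not `Cov om w1`: suppose `p` forces that `f` is a function on `om` with all
`chk z`, `z < w1`, as values. For `n < om` the conditions which force `App f (chk n) (chk z)` for some `z < w1` or
force that no `App f (chk n) (chk z)`, `z < w1`, holds are dense, so (`closed_dense`, `countable_om`) some `q ≤ p`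
decides all values. The set of the `z < w1` with `q` forces `App f (chk n) (chk z)` for some `n < om` is countable
(`FunOn_unique`, `beq_chk`, `frc_tv`), so it does not contain some `z < w1` (`Stg.w1_unc`). But `q` forces
`⨆ n < om, App f (chk n) (chk z)`: contradiction. `Cov om x` for `x < w1`: `countable_lt_w1`; take
`fB (Iio om) (fun n v => tv (v = g n))` for `g : X → X` with `Iio x ⊆ g '' Iio om` (`Iio om` is infinite:
`exists_enum_om`).
-/

set_option autoImplicit false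

universe u

namespace Pool.MP_d8f801_lc.SC

open Set Pool.Agent.Lib.MP_4d8715_gt.KR BSet

variable {X : Type u} [Stg X] {P : Type u} [Preorder P]

private theorem covBody_iff (a b : X) (f : BSet (RO P)) (p : P) :
    p ∈ (⨅ z, bmem z (chk b) ⇨ (⨆ i, bmem i (chk a) ⊓ Kb.App f i z) : RO P).carrier ↔
      ∀ z, z < b → ∀ q, q ≤ p → ∃ r, r ≤ q ∧ ∃ n, n < a ∧ r ∈ (Kb.App f (chk n) (chk z)).carrier := by
  have hext : Ext (fun z : BSet (RO P) => (⨆ i, bmem i (chk a) ⊓ Kb.App f i z : RO P)) :=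
    Ext.iSup fun i => (ext_const _).inf (Kb.ext_App_b f i)
  rw [iInf_chk b hext, mem_iInf₂']
  refine forall_congr' fun z => forall_congr' fun _ => ?_
  show p ∈ (⨆ i, bmem i (chk a) ⊓ Kb.App f i (chk z) : RO P).carrier ↔ _
  rw [iSup_chk a (Kb.ext_App_a f (chk z)), mem_iSup₂']
  rfl

private theorem app_unique {p : P} {a : BSet (RO P)} {f : BSet (RO P)} (hf : p ∈ (Kb.FunOn f a).carrier)
    {n z z' : X} (h : p ∈ (Kb.App f (chk n) (chk z)).carrier)
    (h' : p ∈ (Kb.App f (chk n) (chk z')).carrier) : z = z' := by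
  have h1 : p ∈ (beq (chk z) (chk z') : RO P).carrier :=
    frc_mono (FunOn_unique f a (chk n) (chk z) (chk z')) (RO.mem_inf.2 ⟨hf, RO.mem_inf.2 ⟨h, h'⟩⟩)
  rw [beq_chk] at h1
  exact frc_tv.1 h1

private theorem not_cov (hcl : ∀ p : ℕ → P, (∀ n, p (n + 1) ≤ p n) → ∃ q, ∀ n, q ≤ p n) (p : P)
    (h : p ∈ (Kc.Cov (chk (om X) : BSet (RO P)) (chk (w1 : X))).carrier) : False := by
  unfold Kc.Cov at h
  have hext : Ext (fun f : BSet (RO P) => (Kb.FunOn f (chk (om X)) ⊓
      (⨅ z, bmem z (chk (w1 : X)) ⇨ (⨆ i, bmem i (chk (om X)) ⊓ Kb.App f i z)) : RO P)) :=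
    (Kb.ext_FunOn_f _).inf (Ext.iInf fun z => (ext_const _).himp
      (Ext.iSup fun i => (ext_const _).inf (Kb.ext_App_f i z)))
  obtain ⟨f, hf⟩ := mem_max hext h
  rw [RO.mem_inf] at hf
  obtain ⟨hfo, hfc⟩ := hf
  rw [covBody_iff] at hfc
  have : Countable (Iio (om X)) := (countable_om X).to_subtype
  obtain ⟨q, hqp, hqD⟩ := closed_dense hcl (ι := Iio (om X))
    (fun n => {r | (∃ z : X, z < w1 ∧ r ∈ (Kb.App f (chk n.1) (chk z)).carrier) ∨
      (∀ z : X, z < w1 → ∀ s, s ≤ r → s ∉ (Kb.App f (chk n.1) (chk z)).carrier)})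
    (by
      rintro n a (⟨z, hz, ha⟩ | ha) b hb
      · exact Or.inl ⟨z, hz, frc_down hb ha⟩
      · exact Or.inr fun z hz s hs => ha z hz s (hs.trans hb)) p
    (by
      intro n q _
      by_cases hc : ∀ z : X, z < w1 → ∀ s, s ≤ q → s ∉ (Kb.App f (chk n.1) (chk z)).carrier
      · exact ⟨q, le_rfl, Or.inr hc⟩
      · push Not at hc
        obtain ⟨z, hz, s, hs, hsz⟩ := hc
        exact ⟨s, hs, Or.inl ⟨z, hz, hsz⟩⟩)
  have hfq : q ∈ (Kb.FunOn f (chk (om X))).carrier := frc_down hqp hfo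
  have hA : (⋃ n : Iio (om X), {z : X | q ∈ (Kb.App f (chk n.1) (chk z)).carrier}).Countable :=
    countable_iUnion fun n => Set.Subsingleton.countable fun z hz z' hz' => app_unique hfq hz hz'
  obtain ⟨z, hz, hzA⟩ : ∃ z : X, z < w1 ∧
      z ∉ (⋃ n : Iio (om X), {z : X | q ∈ (Kb.App f (chk n.1) (chk z)).carrier}) := by
    by_contra hc
    push Not at hc
    exact Stg.w1_unc (hA.mono fun z hz => hc z hz)
  obtain ⟨r, hr, n, hn, hrn⟩ := hfc z hz q hqp
  rcases hqD ⟨n, hn⟩ with ⟨z', hz', hq'⟩ | hno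
  · have hzz : z' = z := app_unique (frc_down hr hfq) (frc_down hr hq') hrn
    subst hzz
    exact hzA (mem_iUnion.2 ⟨⟨n, hn⟩, hq'⟩)
  · exact hno z hz r hr hrn

private theorem cov_lt {x : X} (hx : x < w1) (p : P) :
    p ∈ (Kc.Cov (chk (om X) : BSet (RO P)) (chk x)).carrier := by
  obtain ⟨e, hei, her⟩ := exists_enum_om X
  obtain ⟨g, hg⟩ : ∃ g : X → X, ∀ z, z < x → ∃ n, n < om X ∧ g n = z := by
    rcases (Iio x).eq_empty_or_nonempty with h0 | h0
    · exact ⟨id, fun z hz => absurd (show z ∈ Iio x from hz) (by rw [h0]; exact fun h => h.elim)⟩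
    · obtain ⟨F, hF⟩ := (countable_lt_w1 X hx).exists_eq_range h0
      refine ⟨fun n => F (Function.invFun e n), fun z hz => ?_⟩
      have hz' : z ∈ range F := by
        rw [← hF]
        exact hz
      obtain ⟨m, hm⟩ := hz'
      refine ⟨e m, ?_, ?_⟩
      · have : e m ∈ Iio (om X) := by
          rw [← her]
          exact mem_range_self m
        exact this
      · show F (Function.invFun e (e m)) = z
        rw [Function.leftInverse_invFun hei m, hm]
  have hfn : IsFnS (Iio (om X)) (fun n v : X => tv (RO P) (v = g n)) := by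
    constructor
    · intro i _
      rw [frc_top_iff]
      intro q
      exact frc_mono (le_iSup (fun v : X => tv (RO P) (v = g i)) (g i)) (frc_tv.2 rfl)
    · intro i _ v v' hv
      refine le_antisymm (fun q hq => ?_) bot_le
      rw [RO.mem_inf] at hq
      exact absurd ((frc_tv.1 hq.1).trans (frc_tv.1 hq.2).symm) hv
  unfold Kc.Cov
  refine frc_mono (le_iSup (fun f : BSet (RO P) => (Kb.FunOn f (chk (om X)) ⊓
      (⨅ z, bmem z (chk x) ⇨ (⨆ i, bmem i (chk (om X)) ⊓ Kb.App f i z)) : RO P))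
      (fB (Iio (om X)) (fun n v : X => tv (RO P) (v = g n)))) ?_
  rw [RO.mem_inf]
  refine ⟨?_, ?_⟩
  · rw [chk_eq (om X), FunOn_fB hfn]
    exact RO.mem_top p
  · rw [covBody_iff]
    intro z hz q _
    obtain ⟨n, hn, hgn⟩ := hg z hz
    refine ⟨q, le_rfl, n, hn, ?_⟩
    rw [App_fB_chk _ (show n ∈ Iio (om X) from hn)]
    exact frc_tv.2 hgn.symm

theorem Omega1_w1 (hcl : ∀ p : ℕ → P, (∀ n, p (n + 1) ≤ p n) → ∃ q, ∀ n, q ≤ p n) :
    Kc.Omega1 (chk (om X) : BSet (RO P)) (chk (w1 : X)) = ⊤ := by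
  rw [frc_top_iff]
  intro p
  unfold Kc.Omega1
  rw [RO.mem_inf, RO.mem_inf]
  refine ⟨?_, ?_, ?_⟩
  · rw [Ord_chk]
    exact RO.mem_top p
  · rw [RO.mem_compl]
    intro q _ hcov
    exact not_cov hcl q hcov
  · rw [iInf_chk _ (Kc.ext_Cov_b _), mem_iInf₂']
    intro x hx
    exact cov_lt hx p

end Pool.MP_d8f801_lc.SC
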