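import Pool.Agent.Lib.MP_d8f801_lc.SC.V.Unq
import Pool.Agent.Lib.MP_d8f801_lc.SC.V.W1
import Pool.Agent.Lib.MP_d8f801_lc.SC.V.Kk

/-!
# SC/V: canonical parameters (module V-Can)

PROOF: unfold `Kc.Club`, `mem_max` seven times (the predicates are `Ext`: `Ext.iSup`, `Ext.inf`, `Ext.himp`, `Kc.ext_...`,
`Kb.ext_...`); `Par` gives with `Omega_om`, `Omega1_w1`, `Omega2_kk`, `chk_bot` that the names `w, o, k, e` are forced to be
equal to `chk om`, `chk w1`, `chk kk`, `chk ⊥` (`Omega_unique`, `Omega1_unique`: first replace `w`, ...), and `frc_ext`.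
-/

set_option autoImplicit false

universe u

namespace Pool.MP_d8f801_lc.SC

open Set Filter Pool.Agent.Lib.MP_4d8715_gt.KR BSet

variable {X : Type u} [Stg X] {P : Type u} [Preorder P]

section

variable {B : Type u} [CompleteBooleanAlgebra B]

private def bdy (A : BSet B → BSet B → BSet B → BSet B → BSet B → B) (w o k e Z h Φ : BSet B) : B :=
  Kc.Par w o k e ⊓ (Kb.Sub w Z ⊓ (Kc.Enum k Z h ⊓ (Kb.BinOp Z Φ ⊓
    (⨅ N, Kc.Cl w o e Z h Φ N ⇨ A o k e h N))))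

variable {A : BSet B → BSet B → BSet B → BSet B → BSet B → B}

private theorem bdy_w (o k e Z h Φ : BSet B) : Ext (fun w => bdy A w o k e Z h Φ) :=
  (Kc.ext_Par_w o k e).inf ((Kb.ext_Sub_x Z).inf ((ext_const _).inf ((ext_const _).inf
    (Ext.iInf fun N => (Kc.ext_Cl_w o e Z h Φ N).himp (ext_const _)))))

private theorem bdy_o (he1 : ∀ k e h N, Ext (fun o => A o k e h N)) (w k e Z h Φ : BSet B) :
    Ext (fun o => bdy A w o k e Z h Φ) :=
  (Kc.ext_Par_o w k e).inf ((ext_const _).inf ((ext_const _).inf ((ext_const _).inf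
    (Ext.iInf fun N => (Kc.ext_Cl_o w e Z h Φ N).himp (he1 k e h N)))))

private theorem bdy_k (he2 : ∀ o e h N, Ext (fun k => A o k e h N)) (w o e Z h Φ : BSet B) :
    Ext (fun k => bdy A w o k e Z h Φ) :=
  (Kc.ext_Par_k w o e).inf ((ext_const _).inf ((Kc.ext_Enum_k Z h).inf ((ext_const _).inf
    (Ext.iInf fun N => (ext_const _).himp (he2 o e h N)))))

private theorem bdy_e (he3 : ∀ o k h N, Ext (fun e => A o k e h N)) (w o k Z h Φ : BSet B) :
    Ext (fun e => bdy A w o k e Z h Φ) :=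
  (Kc.ext_Par_e w o k).inf ((ext_const _).inf ((ext_const _).inf ((ext_const _).inf
    (Ext.iInf fun N => (Kc.ext_Cl_e w o Z h Φ N).himp (he3 o k h N)))))

private theorem bdy_Z (w o k e h Φ : BSet B) : Ext (fun Z => bdy A w o k e Z h Φ) :=
  (ext_const _).inf ((Kb.ext_Sub_y w).inf ((Kc.ext_Enum_Z k h).inf ((Kb.ext_BinOp_Q Φ).inf
    (Ext.iInf fun N => (Kc.ext_Cl_Z w o e h Φ N).himp (ext_const _)))))

private theorem bdy_h (he4 : ∀ o k e N, Ext (fun h => A o k e h N)) (w o k e Z Φ : BSet B) :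
    Ext (fun h => bdy A w o k e Z h Φ) :=
  (ext_const _).inf ((ext_const _).inf ((Kc.ext_Enum_h k Z).inf ((ext_const _).inf
    (Ext.iInf fun N => (Kc.ext_Cl_h w o e Z Φ N).himp (he4 o k e N)))))

private theorem bdy_Φ (w o k e Z h : BSet B) : Ext (fun Φ => bdy A w o k e Z h Φ) :=
  (ext_const _).inf ((ext_const _).inf ((ext_const _).inf ((Kb.ext_BinOp_f Z).inf
    (Ext.iInf fun N => (Kc.ext_Cl_Φ w o e Z h N).himp (ext_const _)))))

end

theorem exists_canon {hn : X → X → X → RO P} (hF : Frame P hn)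
    (A : BSet (RO P) → BSet (RO P) → BSet (RO P) → BSet (RO P) → BSet (RO P) → RO P)
    (he1 : ∀ k e h N, Ext (fun o => A o k e h N)) (he2 : ∀ o e h N, Ext (fun k => A o k e h N))
    (he3 : ∀ o k h N, Ext (fun e => A o k e h N)) (he4 : ∀ o k e N, Ext (fun h => A o k e h N))
    (he5 : ∀ o k e h, Ext (fun N => A o k e h N)) {p : P} (hp : p ∈ (Kc.Club A).carrier) :
    ∃ Z h Φ : BSet (RO P), Str hn Z h Φ p ∧
      p ∈ (⨅ N, Kc.Cl (chk (om X)) (chk (w1 : X)) (chk (⊥ : X)) Z h Φ N ⇨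
        A (chk (w1 : X)) (chk (kk : X)) (chk (⊥ : X)) h N).carrier := by
  have hp' : p ∈ (⨆ w, ⨆ o, ⨆ k, ⨆ e, ⨆ Z, ⨆ h, ⨆ Φ, bdy A w o k e Z h Φ).carrier := hp
  obtain ⟨w, hp1⟩ := mem_max (Ext.iSup fun o => Ext.iSup fun k => Ext.iSup fun e => Ext.iSup fun Z =>
    Ext.iSup fun h => Ext.iSup fun Φ => bdy_w (A := A) o k e Z h Φ) hp'
  obtain ⟨o, hp2⟩ := mem_max (Ext.iSup fun k => Ext.iSup fun e => Ext.iSup fun Z =>
    Ext.iSup fun h => Ext.iSup fun Φ => bdy_o he1 w k e Z h Φ) hp1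
  obtain ⟨k, hp3⟩ := mem_max (Ext.iSup fun e => Ext.iSup fun Z =>
    Ext.iSup fun h => Ext.iSup fun Φ => bdy_k he2 w o e Z h Φ) hp2
  obtain ⟨e, hp4⟩ := mem_max (Ext.iSup fun Z =>
    Ext.iSup fun h => Ext.iSup fun Φ => bdy_e he3 w o k Z h Φ) hp3
  obtain ⟨Z, hp5⟩ := mem_max (Ext.iSup fun h => Ext.iSup fun Φ => bdy_Z (A := A) w o k e h Φ) hp4
  obtain ⟨h, hp6⟩ := mem_max (Ext.iSup fun Φ => bdy_h he4 w o k e Z Φ) hp5
  obtain ⟨Φ, hp7⟩ := mem_max (bdy_Φ (A := A) w o k e Z h) hp6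
  have hw : p ∈ (beq w (chk (om X))).carrier := by
    refine frc_mono (Omega_unique w (chk (om X))) ?_
    refine ⟨hp7.1.1, ?_⟩
    rw [Omega_om]
    exact RO.mem_top p
  have q1 : p ∈ (bdy A (chk (om X)) o k e Z h Φ).carrier := frc_ext (bdy_w o k e Z h Φ) hw hp7
  have ho : p ∈ (beq o (chk (w1 : X))).carrier := by
    refine frc_mono (Omega1_unique (chk (om X)) o (chk (w1 : X))) ?_
    refine ⟨q1.1.2.1, ?_⟩
    rw [Omega1_w1 hF.closed]
    exact RO.mem_top p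
  have q2 : p ∈ (bdy A (chk (om X)) (chk (w1 : X)) k e Z h Φ).carrier :=
    frc_ext (bdy_o he1 (chk (om X)) k e Z h Φ) ho q1
  have hk : p ∈ (beq k (chk (kk : X))).carrier := by
    refine frc_mono (Omega2_unique (chk (w1 : X)) k (chk (kk : X))) ?_
    refine ⟨q2.1.2.2.1, ?_⟩
    rw [Omega2_kk hF]
    exact RO.mem_top p
  have q3 : p ∈ (bdy A (chk (om X)) (chk (w1 : X)) (chk (kk : X)) e Z h Φ).carrier :=
    frc_ext (bdy_k he2 (chk (om X)) (chk (w1 : X)) e Z h Φ) hk q2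
  have hee : p ∈ (beq e (chk (⊥ : X))).carrier := by
    refine frc_mono (Emp_unique e (chk (⊥ : X))) ?_
    refine ⟨q3.1.2.2.2, ?_⟩
    rw [chk_bot]
    exact RO.mem_top p
  have q4 : p ∈ (bdy A (chk (om X)) (chk (w1 : X)) (chk (kk : X)) (chk (⊥ : X)) Z h Φ).carrier :=
    frc_ext (bdy_e he3 (chk (om X)) (chk (w1 : X)) (chk (kk : X)) Z h Φ) hee q3
  exact ⟨Z, h, Φ, ⟨q4.2.1, q4.2.2.1, q4.2.2.2.1⟩, q4.2.2.2.2⟩

end Pool.MP_d8f801_lc.SC
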