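import Pool.Agent.Lib.MP_d8f801_lc.SC.V.Def

/-!
# SC/V: check names (module V-Chk)

PROOFS: `chk_eq`: `WellFounded.fix_eq`. `beq_chk`, `bmem_chk`: for `x < y` show by wellfounded
induction that `beq (chk x) (chk y) = ⊥` (by `beq_def`
`beq (chk x) (chk y) ≤ bmem (chk x) (chk x) = ⨆ z < x, beq (chk x) (chk z)` and this is `⊥` by induction; similarly
`bmem (chk y) (chk x) ≤ ⨆ z < x, beq (chk y) (chk z)`).
-/

set_option autoImplicit false

universe u

namespace Pool.MP_d8f801_lc.SC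

open Set Pool.Agent.Lib.MP_4d8715_gt.KR BSet

variable {B : Type u} [CompleteBooleanAlgebra B] {X : Type u} [LinearOrder X] [WellFoundedLT X]

theorem chk_eq (x : X) : (chk x : BSet B) = cs (Iio x) := by
  unfold cs
  conv_lhs => unfold chk
  rw [WellFounded.fix_eq]
  rfl

theorem bmem_cs (S : Set X) (a : BSet B) : bmem a (cs S) = ⨆ y : X, ⨆ _ : y ∈ S, beq a (chk y) := by
  unfold cs
  rw [basic_bmem_mk]
  simp only [top_inf_eq]
  rw [iSup_subtype]

theorem bmem_chk' (x : X) (a : BSet B) : bmem a (chk x) = ⨆ y : X, ⨆ _ : y ∈ Iio x, beq a (chk y) := by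
  rw [chk_eq, bmem_cs]

private theorem chk_mem_cs {S : Set X} {y : X} (h : y ∈ S) : bmem (chk y : BSet B) (cs S) = ⊤ := by
  rw [bmem_cs]
  refine top_unique (le_iSup_of_le y (le_iSup_of_le h ?_))
  rw [beq_refl]

private theorem chk_beq_lt (x y : X) (h : x < y) : beq (chk x : BSet B) (chk y) = ⊥ := by
  induction x using WellFoundedLT.induction generalizing y with
  | ind x ih =>
    have h1 : bmem (chk x : BSet B) (chk y) = ⊤ := by
      rw [chk_eq y]
      exact chk_mem_cs h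
    have h2 : bmem (chk x : BSet B) (chk x) = ⊥ := by
      rw [bmem_chk']
      refine le_bot_iff.1 (iSup_le fun z => iSup_le fun hz => ?_)
      rw [beq_symm, ih z hz x hz]
    have h3 := bmem_congr_right (chk x : BSet B) (chk y) (chk x)
    rw [h1, h2, inf_top_eq, beq_symm] at h3
    exact le_bot_iff.1 h3

theorem beq_chk (x y : X) : beq (chk x) (chk y) = tv B (x = y) := by
  unfold tv
  rcases lt_trichotomy x y with h | h | h
  · rw [chk_beq_lt x y h, iSup_neg h.ne]
  · subst h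
    rw [beq_refl, iSup_pos rfl]
  · rw [beq_symm, chk_beq_lt y x h, iSup_neg h.ne']

theorem bmem_chk_cs (x : X) (S : Set X) : bmem (chk x) (cs S) = tv B (x ∈ S) := by
  by_cases h : x ∈ S
  · rw [chk_mem_cs h]
    unfold tv
    rw [iSup_pos h]
  · have h1 : tv B (x ∈ S) = ⊥ := by
      unfold tv
      rw [iSup_neg h]
    rw [h1, bmem_cs]
    refine le_bot_iff.1 (iSup_le fun z => iSup_le fun hz => ?_)
    have h2 : x ≠ z := fun h3 => h (h3 ▸ hz)
    rw [beq_chk]
    unfold tv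
    rw [iSup_neg h2]

theorem bmem_chk (x y : X) : bmem (chk x) (chk y) = tv B (x < y) := by
  rw [chk_eq y, bmem_chk_cs]
  rfl

theorem iInf_cs (S : Set X) {ψ : BSet B → B} (hψ : Ext ψ) :
    (⨅ a, bmem a (cs S) ⇨ ψ a) = ⨅ y : X, ⨅ _ : y ∈ S, ψ (chk y) := by
  refine le_antisymm (le_iInf fun y => le_iInf fun hy => ?_) (le_iInf fun a => ?_)
  · refine (iInf_le _ (chk y)).trans ?_
    rw [chk_mem_cs hy, top_himp]
  · rw [le_himp_iff, bmem_cs, inf_iSup_eq]
    refine iSup_le fun y => ?_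
    rw [inf_iSup_eq]
    refine iSup_le fun hy => ?_
    refine (inf_le_inf_right _ ((iInf_le _ y).trans (iInf_le _ hy))).trans ?_
    rw [inf_comm, beq_symm]
    exact hψ (chk y) a

theorem iSup_cs (S : Set X) {ψ : BSet B → B} (hψ : Ext ψ) :
    (⨆ a, bmem a (cs S) ⊓ ψ a) = ⨆ y : X, ⨆ _ : y ∈ S, ψ (chk y) := by
  refine le_antisymm (iSup_le fun a => ?_) (iSup_le fun y => iSup_le fun hy => ?_)
  · rw [bmem_cs, iSup_inf_eq]
    refine iSup_le fun y => ?_
    rw [iSup_inf_eq]
    refine iSup_le fun hy => le_iSup_of_le y (le_iSup_of_le hy ?_)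
    exact hψ a (chk y)
  · refine le_iSup_of_le (chk y) ?_
    rw [chk_mem_cs hy, top_inf_eq]

theorem iInf_chk (x : X) {ψ : BSet B → B} (hψ : Ext ψ) :
    (⨅ a, bmem a (chk x) ⇨ ψ a) = ⨅ y : X, ⨅ _ : y ∈ Iio x, ψ (chk y) := by
  rw [← iInf_cs (Iio x) hψ, ← chk_eq]

theorem iSup_chk (x : X) {ψ : BSet B → B} (hψ : Ext ψ) :
    (⨆ a, bmem a (chk x) ⊓ ψ a) = ⨆ y : X, ⨆ _ : y ∈ Iio x, ψ (chk y) := by
  rw [← iSup_cs (Iio x) hψ, ← chk_eq]

/-- the least element is the empty set -/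
theorem chk_bot [OrderBot X] : Kb.Emp (chk (⊥ : X) : BSet B) = ⊤ := by
  unfold Kb.Emp
  rw [iInf_eq_top]
  intro z
  have h : bmem z (chk (⊥ : X) : BSet B) = ⊥ := by
    rw [bmem_chk']
    exact le_bot_iff.1 (iSup_le fun y => iSup_le fun hy => (not_lt_bot (mem_Iio.1 hy)).elim)
  rw [h, compl_bot]

/-- the names of two subsets of `X` are equal where their elements are the same -/
theorem beq_cs (S : Set X) (N : BSet B) : beq N (cs S) =
    (Kb.Sub N (cs (univ : Set X))) ⊓ ((⨅ y : X, ⨅ _ : y ∈ S, bmem (chk y) N) ⊓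
      ⨅ y : X, ⨅ _ : y ∉ S, (bmem (chk y) N)ᶜ) := by
  refine le_antisymm (le_inf ?_ (le_inf (le_iInf fun y => le_iInf fun hy => ?_)
    (le_iInf fun y => le_iInf fun hy => ?_))) ?_
  · unfold Kb.Sub
    refine le_iInf fun z => ?_
    rw [le_himp_iff]
    refine (bmem_congr_right z N (cs S)).trans ?_
    rw [bmem_cs, bmem_cs]
    exact iSup_mono fun y => iSup_le fun _ => le_iSup_of_le (mem_univ y) le_rfl
  · have h := bmem_congr_right (chk y : BSet B) (cs S) N
    rw [bmem_chk_cs, beq_symm] at h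
    unfold tv at h
    rw [iSup_pos hy, inf_top_eq] at h
    exact h
  · have h := bmem_congr_right (chk y : BSet B) N (cs S)
    rw [bmem_chk_cs] at h
    unfold tv at h
    rw [iSup_neg hy] at h
    exact le_compl_iff_disjoint_right.2 (disjoint_iff_inf_le.2 h)
  · rw [BSet.beq_ext]
    refine le_iInf fun z => le_inf ?_ ?_
    · rw [le_himp_iff]
      have h1 : Kb.Sub N (cs (univ : Set X)) ⊓ ((⨅ y : X, ⨅ _ : y ∈ S, bmem (chk y) N) ⊓
          ⨅ y : X, ⨅ _ : y ∉ S, (bmem (chk y) N)ᶜ) ⊓ bmem z N ≤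
          ((⨅ y : X, ⨅ _ : y ∉ S, (bmem (chk y) N)ᶜ) ⊓ bmem z N) ⊓ ⨆ y : X, beq z (chk y) := by
        refine le_inf (inf_le_inf_right _ (inf_le_right.trans inf_le_right)) ?_
        have h2 : Kb.Sub N (cs (univ : Set X)) ⊓ bmem z N ≤ bmem z (cs (univ : Set X)) := by
          rw [← le_himp_iff]
          exact iInf_le _ z
        refine (inf_le_inf_right _ inf_le_left).trans (h2.trans ?_)
        rw [bmem_cs]
        exact iSup_mono fun y => iSup_le fun _ => le_rfl
      refine h1.trans ?_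
      rw [inf_iSup_eq]
      refine iSup_le fun y => ?_
      by_cases hy : y ∈ S
      · rw [bmem_cs]
        exact inf_le_right.trans (le_iSup_of_le y (le_iSup_of_le hy le_rfl))
      · have h2 : (⨅ y : X, ⨅ _ : y ∉ S, (bmem (chk y) N)ᶜ) ≤ (bmem (chk y) N)ᶜ :=
          (iInf_le _ y).trans (iInf_le _ hy)
        refine le_trans ?_ (bot_le : ⊥ ≤ bmem z (cs S))
        have h3 : (⨅ y : X, ⨅ _ : y ∉ S, (bmem (chk y) N)ᶜ) ⊓ bmem z N ⊓ beq z (chk y) ≤
            (bmem (chk y) N)ᶜ ⊓ bmem (chk y) N := by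
          refine le_inf (inf_le_left.trans (inf_le_left.trans h2)) ?_
          refine le_trans ?_ (bmem_congr_left z (chk y) N)
          exact le_inf inf_le_right (inf_le_left.trans inf_le_right)
        refine h3.trans ?_
        rw [compl_inf_self]
    · rw [le_himp_iff, bmem_cs, inf_iSup_eq]
      refine iSup_le fun y => ?_
      rw [inf_iSup_eq]
      refine iSup_le fun hy => ?_
      refine le_trans ?_ (bmem_congr_left (chk y) z N)
      rw [beq_symm (chk y) z]
      exact le_inf inf_le_right (inf_le_left.trans (inf_le_right.trans (inf_le_left.trans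
        ((iInf_le _ y).trans (iInf_le _ hy)))))

end Pool.MP_d8f801_lc.SC
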