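import Pool.Agent.Lib.MP_d8f801_lc.SC.V.Om

/-!
# SC/V: the club filter (module V-Clb)

PROOFS: unfold `club` (`Filter.mem_mk`-like `Iff.rfl`); `clubV_exists`: the closure of `∅` under `F` is countable
(iterate `A ↦ A ∪ ⋃ l over A, F l`). `club_init`: `F l = ⋃ v ∈ l, v < w1, Iio v`.
-/

set_option autoImplicit false

universe u

namespace Pool.MP_d8f801_lc.SC

open Set Filter

variable {X : Type u} [Stg X]

theorem club_clo (F : List X → Set X) (hF : ∀ l, (F l).Countable) : ∀ᶠ N in club X, N.Countable ∧ Clo F N :=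
  ⟨F, hF, fun _ hN hc => ⟨hN, hc⟩⟩

theorem clubV_exists {Q : Set X → Prop} (h : ∀ᶠ N in club X, Q N) : ∃ N, Q N := by
  obtain ⟨F, hF, h⟩ := h
  let A : ℕ → Set X := fun n => Nat.rec ∅ (fun _ A => A ∪ ⋃ l : {l : List X // ∀ x ∈ l, x ∈ A}, F l.1) n
  have hA : ∀ n, A (n + 1) = A n ∪ ⋃ l : {l : List X // ∀ x ∈ l, x ∈ A n}, F l.1 := fun n => rfl
  have hmono : Monotone A := monotone_nat_of_le_succ fun n => by
    rw [hA]
    exact subset_union_left
  have hct : ∀ n, (A n).Countable := by
    intro n
    induction n with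
    | zero => exact countable_empty
    | succ n ih =>
      rw [hA]
      refine ih.union ?_
      have : _root_.Countable {l : List X // ∀ x ∈ l, x ∈ A n} := by
        have h1 : ({l : List X | ∀ x ∈ l, x ∈ A n}).Countable := by
          have hi : _root_.Countable (List ↥(A n)) := @List.countable _ ih.to_subtype
          have hr : (range (List.map (Subtype.val : ↥(A n) → X))).Countable := countable_range _
          refine hr.mono fun l hl => ?_
          have hl' : ∀ x ∈ l, x ∈ A n := hl
          exact ⟨l.attach.map fun x => ⟨x.1, hl' x.1 x.2⟩, by simp⟩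
        exact h1.to_subtype
      exact countable_iUnion fun l => hF l.1
  refine ⟨⋃ n, A n, h _ (countable_iUnion hct) fun l hl => ?_⟩
  have h2 : ∃ n, ∀ x ∈ l, x ∈ A n := by
    induction l with
    | nil => exact ⟨0, by simp⟩
    | cons a l ih =>
      obtain ⟨n, hn⟩ := ih fun x hx => hl x (List.mem_cons_of_mem a hx)
      obtain ⟨m, hm⟩ := mem_iUnion.1 (hl a List.mem_cons_self)
      refine ⟨max n m, fun x hx => ?_⟩
      rcases List.mem_cons.1 hx with rfl | hx
      · exact hmono (le_max_right n m) hm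
      · exact hmono (le_max_left n m) (hn x hx)
  obtain ⟨n, hn⟩ := h2
  refine Subset.trans ?_ (subset_iUnion A (n + 1))
  rw [hA]
  exact (subset_iUnion (fun l : {l : List X // ∀ x ∈ l, x ∈ A n} => F l.1) ⟨l, hn⟩).trans subset_union_right

/-- for club many `N` the countable ordinals in `N` form an initial segment -/
theorem club_init : ∀ᶠ N in club X, ∀ v ∈ N, v < w1 → Iio v ⊆ N := by
  refine ⟨fun l => ⋃ v ∈ {v | v ∈ l}, ⋃ _ : v < w1, Iio v, fun l => ?_, fun N _ hc v hv hv1 => ?_⟩
  · refine (List.finite_toSet l).countable.biUnion fun v _ => ?_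
    exact countable_iUnion fun h => Stg.w1_min v h
  · refine Subset.trans ?_ (hc [v] (by simpa using hv))
    intro x hx
    simp only [mem_iUnion]
    exact ⟨v, by simp, hv1, hx⟩

/-- for club many `N` all natural numbers are in `N` -/
theorem club_om : ∀ᶠ N in club X, Iio (om X) ⊆ N :=
  ⟨fun _ => Iio (om X), fun _ => countable_om X, fun _ _ hc => hc [] (by simp)⟩

end Pool.MP_d8f801_lc.SC
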