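import Pool.Agent.Lib.MP_d8f801_lc.SC.V.Def

/-!
# SC/V: the instances only depend on `Val` (module V-Cng)

PROOFS: unfold; `h`, `N` only occur in `Val`. Show for one ultrafilter `U` (`le_iff_ev`) with `los_iSup`, `los_iInf` and the
`Kc.ext_...` theorems, or with `iInf_mono`, `iSup_mono` after distributing.
-/

set_option autoImplicit false

universe u

namespace Pool.MP_d8f801_lc.SC

open Set Filter Pool.Agent.Lib.MP_4d8715_gt.KR BSet

private theorem val_iff {B : Type u} [CompleteBooleanAlgebra B] {h N h' N' : BSet B} {U : Ult B}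
    (hU : U (⨅ γ, ⨅ v, iffB (Kc.Val h N γ v) (Kc.Val h' N' γ v))) (γ v : BSet B) :
    U (Kc.Val h N γ v) ↔ U (Kc.Val h' N' γ v) :=
  (U.iffB').mp (ult_iInf_le (ult_iInf_le hU γ) v)

private theorem pres_iff {B : Type u} [CompleteBooleanAlgebra B] (o e h N γ : BSet B) (U : Ult B) :
    U (Kc.Pres o e h N γ) ↔
      ∀ v, U (bmem v o) → (U (Kc.Val h N γ v) ↔ U (Kc.Val h N e v)) := by
  unfold Kc.Pres
  rw [los_iInf ((ext_bmem_left o).himp ((Kc.ext_Val_v h N γ).iffB (Kc.ext_Val_v h N e)))]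
  refine forall_congr' fun v => ?_
  rw [Ult.himp', Ult.iffB']

private theorem pres_congr {B : Type u} [CompleteBooleanAlgebra B] {o e h N h' N' : BSet B}
    {U : Ult B} (hU : U (⨅ γ, ⨅ v, iffB (Kc.Val h N γ v) (Kc.Val h' N' γ v))) {γ : BSet B}
    (hp : U (Kc.Pres o e h N γ)) : U (Kc.Pres o e h' N' γ) := by
  rw [pres_iff] at hp ⊢
  intro v hv
  rw [← val_iff hU, ← val_iff hU]
  exact hp v hv

private theorem diff_congr {B : Type u} [CompleteBooleanAlgebra B] {h N h' N' : BSet B}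
    {U : Ult B} (hU : U (⨅ γ, ⨅ v, iffB (Kc.Val h N γ v) (Kc.Val h' N' γ v))) {γ γ' : BSet B}
    (hp : U (⨆ v, Kc.Val h N γ v ⊓ (Kc.Val h N γ' v)ᶜ)) :
    U (⨆ v, Kc.Val h' N' γ v ⊓ (Kc.Val h' N' γ' v)ᶜ) := by
  rw [los_iSup ((Kc.ext_Val_v h N γ).inf (Kc.ext_Val_v h N γ').compl)] at hp
  obtain ⟨v, hv⟩ := hp
  rw [Ult.inf', Ult.compl', val_iff hU, val_iff hU] at hv
  refine ult_iSup_le (i := v) ?_
  rw [Ult.inf', Ult.compl']
  exact hv

theorem AtCof_congr {B : Type u} [CompleteBooleanAlgebra B] (o k e h N h' N' : BSet B) :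
    (⨅ γ, ⨅ v, iffB (Kc.Val h N γ v) (Kc.Val h' N' γ v)) ⊓ Kc.AtCof o k e h N ≤ Kc.AtCof o k e h' N' := by
  refine le_iff_ev.mpr (Filter.Eventually.of_forall fun U hU => ?_)
  rw [Ult.inf'] at hU
  obtain ⟨hU1, hU2⟩ := hU
  unfold Kc.AtCof at hU2 ⊢
  rw [los_iInf ((ext_bmem_left k).himp (Ext.iSup fun γ => (ext_const _).inf
    ((ext_bmem_right γ).compl.inf (ext_const _))))]
  intro β
  rw [Ult.himp']
  intro hβ
  have h1 := ult_iInf_le hU2 β
  rw [Ult.himp'] at h1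
  have h2 := h1 hβ
  rw [los_iSup ((ext_bmem_left k).inf ((ext_bmem_left β).compl.inf (Kc.ext_Pres_γ o e h N)))] at h2
  obtain ⟨γ, hγ⟩ := h2
  rw [Ult.inf', Ult.inf'] at hγ
  refine ult_iSup_le (i := γ) ?_
  rw [Ult.inf', Ult.inf']
  exact ⟨hγ.1, hγ.2.1, pres_congr hU1 hγ.2.2⟩

theorem AtSplit_congr {B : Type u} [CompleteBooleanAlgebra B] (o k e h N h' N' : BSet B) :
    (⨅ γ, ⨅ v, iffB (Kc.Val h N γ v) (Kc.Val h' N' γ v)) ⊓ Kc.AtSplit o k e h N ≤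
      Kc.AtSplit o k e h' N' := by
  refine le_iff_ev.mpr (Filter.Eventually.of_forall fun U hU => ?_)
  rw [Ult.inf'] at hU
  obtain ⟨hU1, hU2⟩ := hU
  unfold Kc.AtSplit at hU2 ⊢
  rw [los_iSup (Ext.iSup fun γ' => (ext_bmem_left k).inf ((ext_const _).inf
    ((Kc.ext_Pres_γ o e h N).inf ((ext_const _).inf
      ((Ext.iSup fun v => (Kc.ext_Val_γ h N v).inf (ext_const _)).inf
        (Ext.iSup fun v => (ext_const _).inf (Kc.ext_Val_γ h N v).compl))))))] at hU2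
  obtain ⟨γ, hγ⟩ := hU2
  rw [los_iSup ((ext_const _).inf ((ext_bmem_left k).inf ((ext_const _).inf
    ((Kc.ext_Pres_γ o e h N).inf
      ((Ext.iSup fun v => (ext_const _).inf (Kc.ext_Val_γ h N v).compl).inf
        (Ext.iSup fun v => (Kc.ext_Val_γ h N v).inf (ext_const _)))))))] at hγ
  obtain ⟨γ', hγ'⟩ := hγ
  simp only [Ult.inf'] at hγ'
  obtain ⟨h1, h2, h3, h4, h5, h6⟩ := hγ'
  refine ult_iSup_le (i := γ) (ult_iSup_le (i := γ') ?_)
  simp only [Ult.inf']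
  exact ⟨h1, h2, pres_congr hU1 h3, pres_congr hU1 h4, diff_congr hU1 h5, diff_congr hU1 h6⟩

end Pool.MP_d8f801_lc.SC
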