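import Pool.Agent.Lib.MP_d8f801_lc.SC.V.Om

/-!
# SC/V: coding of a club by a binary operation (module V-Cod)

PROOF of `exists_code`. Let `e : ℕ → X` enumerate `Iio om` (`exists_enum_om`), let `c : List X → X` be injective with
values outside `Iio om` (cardinals: `X` is uncountable, `Cardinal.mk_list_eq_mk`, `Cardinal.mk_compl_of_infinite`),
`g l : ℕ → X` an enumeration of `F l ∪ {⊥}`. Define `Φ (e 0) (e 0) = inl (c [])`, `Φ (c l) y = inl (c (y :: l))`,
`Φ (e 0) (c [ξ]) = inr ξ`, `Φ (e (n + 1)) (c l) = inl (g l n)`, and `inl ⊥` in all other cases. If `N ⊇ Iio om` is closed,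
then `c l ∈ N` for all lists `l` of elements of `N` by induction, so `g l n ∈ N`. (`foldl` order of lists does not matter.)
-/

set_option autoImplicit false

universe u

namespace Pool.MP_d8f801_lc.SC

open Cardinal Set Filter

variable {X : Type u} [Stg X]

theorem exists_listCode (X : Type u) [Stg X] : ∃ c : List X → X, Function.Injective c ∧ ∀ l, ¬ c l < om X := by
  have h0 : ℵ₀ < #X := by
    rw [Stg.card_X]
    exact (Stg.reg (X := X)).aleph0_le.trans_lt (cantor _)
  have : Infinite X := infinite_iff.2 h0.le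
  have h1 : #(Iio (om X)) < #X := (le_aleph0_iff_set_countable.2 (countable_om X)).trans_lt h0
  have h2 : #((Iio (om X))ᶜ : Set X) = #X := mk_compl_of_infinite _ h1
  have h3 : #(List X) = #((Iio (om X))ᶜ : Set X) := by rw [h2, mk_list_eq_mk]
  obtain ⟨E⟩ := Cardinal.eq.1 h3
  exact ⟨fun l => (E l).1, fun a b h => E.injective (Subtype.ext h), fun l => (E l).2⟩

/-- the binary operation -/
noncomputable def codeOp (d : X → Option (List X)) (ei : X → Option ℕ) (c : List X → X) (g : List X → ℕ → X)
    (x y : X) : X ⊕ X :=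
  match d x, ei x, d y with
  | some l, _, _ => Sum.inl (c (y :: l))
  | none, some 0, some [ξ] => Sum.inr ξ
  | none, some 0, none => Sum.inl (c [])
  | none, some (n + 1), some l => Sum.inl (g l n)
  | _, _, _ => Sum.inl ⊥

theorem exists_code (F : List X → Set X) (hF : ∀ l, (F l).Countable) : ∃ Φ : X → X → X ⊕ X,
    ∀ N : Set X, Iio (om X) ⊆ N → (∀ x ∈ N, ∀ y ∈ N, ∀ z, Φ x y = Sum.inl z → z ∈ N) →
      Clo F N ∧ ∀ ξ ∈ N, ∃ x ∈ N, ∃ y ∈ N, Φ x y = Sum.inr ξ := by
  classical
  obtain ⟨e, he, her⟩ := exists_enum_om X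
  obtain ⟨c, hc, hco⟩ := exists_listCode X
  have hg : ∀ l, ∃ f : ℕ → X, F l ⊆ range f := fun l => countable_iff_exists_subset_range.1 (hF l)
  choose g hg using hg
  have hem : ∀ n, e n < om X := fun n => by
    have : e n ∈ Iio (om X) := her ▸ mem_range_self n
    exact this
  let d : X → Option (List X) := fun x => if h : ∃ l, c l = x then some h.choose else none
  let ei : X → Option ℕ := fun x => if h : ∃ n, e n = x then some h.choose else none
  have hd : ∀ l, d (c l) = some l := fun l => by
    have h : ∃ l', c l' = c l := ⟨l, rfl⟩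
    simp only [d, dif_pos h]
    exact congrArg some (hc h.choose_spec)
  have hd' : ∀ n, d (e n) = none := fun n => by
    have h : ¬ ∃ l', c l' = e n := by
      rintro ⟨l', hl'⟩
      exact hco l' (hl' ▸ hem n)
    simp only [d, dif_neg h]
  have hei : ∀ n, ei (e n) = some n := fun n => by
    have h : ∃ m, e m = e n := ⟨n, rfl⟩
    simp only [ei, dif_pos h]
    exact congrArg some (he h.choose_spec)
  refine ⟨codeOp d ei c g, fun N hN hcl => ?_⟩
  have heN : ∀ n, e n ∈ N := fun n => hN (hem n)
  have hc0 : c [] ∈ N := hcl (e 0) (heN 0) (e 0) (heN 0) _ (by simp [codeOp, hd', hei])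
  have hcN : ∀ l : List X, (∀ x ∈ l, x ∈ N) → c l ∈ N := by
    intro l
    induction l with
    | nil => exact fun _ => hc0
    | cons y l ih =>
      intro h
      refine hcl (c l) (ih fun x hx => h x (List.mem_cons_of_mem y hx)) y (h y List.mem_cons_self) _ ?_
      simp [codeOp, hd]
  refine ⟨fun l hl z hz => ?_, fun ξ hξ => ?_⟩
  · obtain ⟨n, rfl⟩ := hg l hz
    exact hcl (e (n + 1)) (heN _) (c l) (hcN l hl) _ (by simp [codeOp, hd, hd', hei])
  · exact ⟨e 0, heN 0, c [ξ], hcN [ξ] (by simpa using hξ), by simp [codeOp, hd, hd', hei]⟩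

end Pool.MP_d8f801_lc.SC
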