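import Pool.Agent.Lib.MP_d8f801_lc.SC.V.FunB
import Pool.Agent.Lib.MP_d8f801_lc.SC.V.Om

/-!
# SC/V: countable sets of ordinals are in the ground model (module V-Dec)

PROOF of `decide_set`: let `p` force `N ⊆ X` and `Cov om N` (a name `f`, `mem_max`). For `n < om` the conditions which
force `App f (chk n) (chk ξ)` and `chk ξ ∈ N` for some `ξ : X`, or which force `∀ z, App f (chk n) z → z ∉ N`, are open
and dense below `p`: take `q ≤ p` in all of them (`closed_dense`, `countable_om`) and let `N0` be the set of the `ξ`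
such that `q` forces `App f (chk n) (chk ξ)` and `chk ξ ∈ N` for some `n < om`; countable by `FunOn_unique`,
`beq_chk`, `frc_tv`. Then use `beq_cs`.
-/

set_option autoImplicit false

universe u

namespace Pool.MP_d8f801_lc.SC

open Set Pool.Agent.Lib.MP_4d8715_gt.KR BSet

variable {X : Type u} [Stg X] {P : Type u} [Preorder P]

/-- two values of a function at the same place are equal -/
private theorem dec_uniq {f d a : BSet (RO P)} {y z : X} {q : P} (hf : q ∈ (Kb.FunOn f d).carrier)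
    (h1 : q ∈ (Kb.App f a (chk y)).carrier) (h2 : q ∈ (Kb.App f a (chk z)).carrier) : y = z := by
  have h3 : q ∈ (beq (chk y) (chk z) : RO P).carrier :=
    FunOn_unique f d a (chk y) (chk z) (RO.mem_inf.2 ⟨hf, RO.mem_inf.2 ⟨h1, h2⟩⟩)
  rw [beq_chk] at h3
  exact frc_tv.1 h3

theorem decide_set (hcl : ∀ p : ℕ → P, (∀ n, p (n + 1) ≤ p n) → ∃ q, ∀ n, q ≤ p n) {N : BSet (RO P)} {p : P}
    (h1 : p ∈ (Kb.Sub N (cs (univ : Set X))).carrier) (h2 : p ∈ (Kc.Cov (chk (om X)) N).carrier) :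
    ∃ q, q ≤ p ∧ ∃ N0 : Set X, N0.Countable ∧ q ∈ (beq N (cs N0)).carrier := by
  unfold Kc.Cov at h2
  obtain ⟨f, hf⟩ := mem_max (((Kb.ext_FunOn_f _)).inf (Ext.iInf fun z => (ext_const _).himp
    (Ext.iSup fun i => (ext_const _).inf (Kb.ext_App_f _ _)))) h2
  rw [RO.mem_inf] at hf
  obtain ⟨hf1, hf2⟩ := hf
  let V : X → X → RO P := fun n ξ => Kb.App f (chk n) (chk ξ) ⊓ bmem (chk ξ) N
  let D : Iio (om X) → Set P := fun n => {q | (∃ ξ : X, q ∈ (V n.1 ξ).carrier) ∨ ∀ ξ : X, q ∈ ((V n.1 ξ)ᶜ).carrier}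
  have : Countable (Iio (om X)) := (countable_om X).to_subtype
  obtain ⟨q, hqp, hq⟩ := closed_dense hcl D (by
    rintro i a (⟨ξ, hξ⟩ | h) b hba
    · exact Or.inl ⟨ξ, frc_down hba hξ⟩
    · exact Or.inr fun ξ => frc_down hba (h ξ)) p (by
    intro i q _
    by_cases h : ∃ r, r ≤ q ∧ ∃ ξ : X, r ∈ (V i.1 ξ).carrier
    · obtain ⟨r, hr, hξ⟩ := h
      exact ⟨r, hr, Or.inl hξ⟩
    · refine ⟨q, le_rfl, Or.inr fun ξ => ?_⟩
      rw [RO.mem_compl]
      intro r hr hc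
      exact h ⟨r, hr, ξ, hc⟩)
  refine ⟨q, hqp, {ξ | ∃ n ∈ Iio (om X), q ∈ (V n ξ).carrier}, ?_, ?_⟩
  · have h3 : {ξ : X | ∃ n ∈ Iio (om X), q ∈ (V n ξ).carrier} = ⋃ n ∈ Iio (om X), {ξ | q ∈ (V n ξ).carrier} := by
      ext ξ
      simp only [mem_iUnion, exists_prop]
      exact Iff.rfl
    rw [h3]
    refine (countable_om X).biUnion fun n _ => Set.Subsingleton.countable ?_
    intro y hy z hz
    exact dec_uniq (frc_down hqp hf1) (RO.mem_inf.1 hy).1 (RO.mem_inf.1 hz).1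
  · rw [beq_cs, RO.mem_inf, RO.mem_inf, mem_iInf₂', RO.mem_iInf]
    refine ⟨frc_down hqp h1, ?_, ?_⟩
    · rintro y ⟨n, _, hn⟩
      exact (RO.mem_inf.1 hn).2
    · intro y
      rw [RO.mem_iInf]
      intro hy
      rw [RO.mem_compl]
      intro r hr hry
      have h4 := (RO.mem_himp.1 (RO.mem_iInf.1 hf2 (chk y))) r (hr.trans hqp) hry
      have hext : Ext (fun i : BSet (RO P) => Kb.App f i (chk y)) := Kb.ext_App_a _ _
      rw [iSup_chk (om X) hext, mem_iSup₂'] at h4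
      obtain ⟨s, hs, n, hn, hsn⟩ := h4 r le_rfl
      have hsV : s ∈ (V n y).carrier := RO.mem_inf.2 ⟨hsn, frc_down hs hry⟩
      have hsq : s ≤ q := hs.trans hr
      rcases hq ⟨n, hn⟩ with ⟨ξ, hξ⟩ | h5
      · have e : ξ = y := dec_uniq (frc_down (hsq.trans hqp) hf1) (frc_down hsq (RO.mem_inf.1 hξ).1) hsn
        subst e
        exact hy ⟨n, hn, hξ⟩
      · exact frc_absurd hsV (frc_down hsq (h5 y))

/-- the values at `0` of countably many names can be decided -/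
theorem decide_vals {hn : X → X → X → RO P} (h : Frame P hn) {N0 : Set X} (hN : N0.Countable) (p : P) :
    ∃ q, q ≤ p ∧ ∀ ξ ∈ N0, ∃ v : X, q ∈ (hn ξ ⊥ v).carrier := by
  have : Countable N0 := hN.to_subtype
  obtain ⟨q, hqp, hq⟩ := closed_dense h.closed (fun ξ : N0 => {q : P | ∃ v : X, q ∈ (hn ξ.1 ⊥ v).carrier}) (by
    rintro i a ⟨v, hv⟩ b hba
    exact ⟨v, frc_down hba hv⟩) p (by
    intro i q _
    have h1 : q ∈ (⨆ v, hn i.1 ⊥ v).carrier := by
      rw [(h.fn i.1).tot ⊥ (lt_of_le_of_lt bot_le Stg.w1_lt)]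
      exact RO.mem_top q
    obtain ⟨r, hr, v, hv⟩ := RO.mem_iSup.1 h1 q le_rfl
    exact ⟨r, hr, v, hv⟩)
  exact ⟨q, hqp, fun ξ hξ => hq ⟨ξ, hξ⟩⟩

private theorem dec_enum {N0 : Set X} (hN : N0.Countable) : ∃ g : X → X, ∀ y ∈ N0, ∃ i ∈ Iio (om X), g i = y := by
  rcases N0.eq_empty_or_nonempty with h0 | h0
  · exact ⟨id, fun y hy => absurd hy (by rw [h0]; exact Set.notMem_empty y)⟩
  · obtain ⟨s, hs⟩ := hN.exists_eq_range h0
    obtain ⟨e, he, her⟩ := exists_enum_om X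
    refine ⟨fun x => s (Function.invFun e x), fun y hy => ?_⟩
    rw [hs] at hy
    obtain ⟨n, hn⟩ := hy
    refine ⟨e n, by rw [← her]; exact ⟨n, rfl⟩, ?_⟩
    change s (Function.invFun e (e n)) = y
    rw [Function.leftInverse_invFun he n]
    exact hn

/-- a countable ground model set is countable in the extension -/
theorem Cov_om {N0 : Set X} (hN : N0.Countable) {B : Type u} [CompleteBooleanAlgebra B] :
    Kc.Cov (chk (om X) : BSet B) (cs N0) = ⊤ := by
  obtain ⟨g, hg⟩ := dec_enum hN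
  refine top_unique (le_iSup_of_le (sB (Iio (om X)) fun i => chk (g i)) ?_)
  have h1 : Kb.FunOn (sB (Iio (om X)) fun i => (chk (g i) : BSet B)) (chk (om X)) = ⊤ := by
    rw [chk_eq (om X)]
    exact FunOn_sB _ _
  rw [h1, top_inf_eq]
  have hext : Ext (fun z : BSet B => ⨆ i, bmem i (chk (om X)) ⊓
      Kb.App (sB (Iio (om X)) fun i => (chk (g i) : BSet B)) i z) :=
    Ext.iSup fun i => (ext_const _).inf (Kb.ext_App_b _ _)
  rw [iInf_cs N0 hext]
  refine le_iInf fun y => le_iInf fun hy => ?_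
  obtain ⟨i, hi, hgi⟩ := hg y hy
  have hext' : Ext (fun i : BSet B => Kb.App (sB (Iio (om X)) fun i => (chk (g i) : BSet B)) i (chk y)) :=
    Kb.ext_App_a _ _
  rw [iSup_chk (om X) hext']
  refine le_iSup_of_le i (le_iSup_of_le hi ?_)
  rw [App_sB_chk _ hi, beq_chk, hgi]
  unfold tv
  exact le_iSup_of_le rfl le_rfl

end Pool.MP_d8f801_lc.SC
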