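import Pool.Agent.Lib.MP_d8f801_lc.SC.V.Frc

/-!
# SC/V: the names (definitions)

`X` is a wellordered type; `chk x` is the name of the (von Neumann) ordinal `x`, `cs S` the name of the set of the
`chk y`, `y ∈ S`.
-/

set_option autoImplicit false

universe u

namespace Pool.MP_d8f801_lc.SC

open Set Pool.Agent.Lib.MP_4d8715_gt.KR BSet

section names

variable {B : Type u} [CompleteBooleanAlgebra B] {X : Type u} [LinearOrder X] [WellFoundedLT X]

/-- the name of the ordinal `x` -/
noncomputable def chk (x : X) : BSet B :=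
  WellFounded.fix (C := fun _ => BSet B) (wellFounded_lt : WellFounded ((· < ·) : X → X → Prop))
    (fun x ih => BSet.mk {y : X // y < x} (fun y => ih y.1 y.2) (fun _ => ⊤)) x

/-- the name of the set of the ordinals `y ∈ S` -/
noncomputable def cs (S : Set X) : BSet B := BSet.mk S (fun y => chk y.1) (fun _ => ⊤)

/-- the set of the pairs `(i, v)`, `i ∈ S`, with value `l i v` -/
noncomputable def fB (S : Set X) (l : X → X → B) : BSet B :=
  BSet.mk (S × X) (fun p => opair (chk p.1.1) (chk p.2)) (fun p => l p.1.1 p.2)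

/-- the set of the pairs `(i, F i)`, `i ∈ S` -/
noncomputable def sB (S : Set X) (F : X → BSet B) : BSet B :=
  BSet.mk S (fun i => opair (chk i.1) (F i.1)) (fun _ => ⊤)

/-- `l` is a name of a function on `S` -/
structure IsFnS (S : Set X) (l : X → X → B) : Prop where
  tot : ∀ i ∈ S, ⨆ v, l i v = ⊤
  disj : ∀ i ∈ S, ∀ v v' : X, v ≠ v' → l i v ⊓ l i v' = ⊥

/-- the set of the triples `((x, y), z)` with value `φ x y z` -/
noncomputable def opB (φ : X → X → X → B) : BSet B :=
  BSet.mk (X × X × X) (fun t => opair (opair (chk t.1) (chk t.2.1)) (chk t.2.2)) (fun t => φ t.1 t.2.1 t.2.2)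

end names

section om

variable (X : Type u) [Stg X]

theorem om_aux : {x : X | x ≠ ⊥ ∧ ∀ y, y < x → ∃ z, y < z ∧ z < x}.Nonempty := by
  refine ⟨w1, ?_, fun y hy => ?_⟩
  · intro h
    refine Stg.w1_unc (X := X) ?_
    rw [show (Iio (w1 : X)) = ∅ from Set.eq_empty_of_forall_notMem fun x hx => by
      rw [h] at hx
      exact not_lt_bot hx]
    exact countable_empty
  · by_contra hc
    push Not at hc
    refine Stg.w1_unc (X := X) ?_
    refine ((Stg.w1_min y hy).union (countable_singleton y)).mono fun x hx => ?_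
    rcases lt_trichotomy x y with h | h | h
    · exact Or.inl h
    · exact Or.inr h
    · exact absurd hx (not_lt.2 (hc x h))

/-- the element with initial segment of type `ω`: the least `x ≠ ⊥` without predecessor -/
noncomputable def om : X := Stg.wfl.min {x : X | x ≠ ⊥ ∧ ∀ y, y < x → ∃ z, y < z ∧ z < x} (om_aux X)

end om

variable {X : Type u} [Stg X]

/-- the name of the function which maps `ξ` to the function with name `hn ξ` -/
noncomputable def hB {B : Type u} [CompleteBooleanAlgebra B] (hn : X → X → X → B) : BSet B :=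
  sB (univ : Set X) (fun ξ => fB (Iio (kk : X)) (hn ξ))

variable {P : Type u} [Preorder P]

/-- `N` contains names of the constant functions with value in `N` -/
def CstCl (hn : X → X → X → RO P) (N : Set X) : Prop :=
  ∀ v ∈ N, v < kk → ∃ ξ ∈ N, ∀ ν, ν < kk → hn ξ ν v = ⊤

/-- terms -/
inductive Tm (X : Type u) : Type u
  | of (ξ : X) : Tm X
  | nm (n : X) : Tm X
  | op (s t : Tm X) : Tm X

/-- the `of`-leaves of the term `t` are in `N` and its `nm`-leaves less than `om` -/
def TmS (N : Set X) : Tm X → Prop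
  | Tm.of ξ => ξ ∈ N
  | Tm.nm n => n < om X
  | Tm.op s t => TmS N s ∧ TmS N t

/-- what `p` forces about `Z`, `h`, `Φ` -/
structure Str (hn : X → X → X → RO P) (Z h Φ : BSet (RO P)) (p : P) : Prop where
  sub : p ∈ (Kb.Sub (chk (om X)) Z).carrier
  enum : p ∈ (Kc.Enum (chk (kk : X)) Z h).carrier
  bin : p ∈ (Kb.BinOp Z Φ).carrier

/-- `z` evaluates the terms -/
structure Evl (hn : X → X → X → RO P) (Z h Φ : BSet (RO P)) (p : P) (z : Tm X → BSet (RO P)) : Prop where
  mem : ∀ t, p ∈ (bmem (z t) Z).carrier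
  nm : ∀ n, n < om X → z (Tm.nm n) = chk n
  op : ∀ s t, p ∈ (Kb.App2 Φ (z s) (z t) (z (Tm.op s t))).carrier
  of : ∀ ξ, p ∈ (Kb.App h (z (Tm.of ξ)) (fB (Iio (kk : X)) (hn ξ))).carrier

/-- the name of the set of the `z t`, `t ∈ TmS N` -/
noncomputable def NB (z : Tm X → BSet (RO P)) (N : Set X) : BSet (RO P) :=
  BSet.mk {t : Tm X // TmS N t} (fun t => z t.1) (fun _ => ⊤)

end Pool.MP_d8f801_lc.SC
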