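import Pool.Agent.Lib.MP_d8f801_lc.SC.K.Defs
import Pool.Agent.Lib.MP_4d8715_gt.KR.R.RO

/-!
# SC/V: interface between the posets and the Boolean-valued evaluation

`hn ξ ν v` is the Boolean value of `h_ξ(ν) = v`, where `h_ξ`, `ξ ∈ X`, are (names of) all functions from `κ` to `κ`
in the extension.
-/

set_option autoImplicit false

universe u

namespace Pool.MP_d8f801_lc.SC

open Cardinal Set Filter Pool.Agent.Lib.MP_4d8715_gt.KR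

variable {X : Type u} [Stg X] {P : Type u} [Preorder P]

/-- a name of a function from `κ` to `κ` -/
structure IsFnK (l : X → X → RO P) : Prop where
  bd : ∀ ν v : X, ¬ (ν < kk ∧ v < kk) → l ν v = ⊥
  tot : ∀ ν : X, ν < kk → ⨆ v, l ν v = ⊤
  disj : ∀ ν v v' : X, v ≠ v' → l ν v ⊓ l ν v' = ⊥

/-- the properties of the poset and of the coding of the names -/
structure Frame (P : Type u) [Preorder P] (hn : X → X → X → RO P) : Prop where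
  /-- the poset is not empty -/
  ne : Nonempty P
  /-- the poset is countably closed -/
  closed : ∀ p : ℕ → P, (∀ n, p (n + 1) ≤ p n) → ∃ q, ∀ n, q ≤ p n
  /-- antichains have size less than `κ` -/
  cc : ∀ A : Set P, (∀ a ∈ A, ∀ b ∈ A, a ≠ b → ¬ ∃ c, c ≤ a ∧ c ≤ b) → Sm X A
  /-- every `β < κ` is covered by `ω₁` in the extension -/
  coll : ∀ β : X, β < kk → ∃ l : X → X → RO P, (∀ i v v', v ≠ v' → l i v ⊓ l i v' = ⊥) ∧
    (∀ i, ⨆ v, l i v = ⊤) ∧ ∀ v, v < β → ⨆ i : X, ⨆ (_ : i < w1), l i v = ⊤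
  /-- the names are names -/
  fn : ∀ ξ : X, IsFnK (hn ξ)
  /-- every name of a function from `κ` to `κ` is coded -/
  onto : ∀ l : X → X → RO P, IsFnK l → ∃ ξ : X, hn ξ = l

/-- `p` decides the values at `0` of all names in `N`, and these values are in `N` -/
def Dec (hn : X → X → X → RO P) (N : Set X) (p : P) : Prop :=
  ∀ ξ ∈ N, ∃ v ∈ N, p ∈ (hn ξ ⊥ v).carrier

/-- `q` forces that `γ` adds no countable ordinal to `N` -/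
def Pre1 (hn : X → X → X → RO P) (N : Set X) (γ : X) (q : P) : Prop :=
  γ < kk ∧ ∀ ξ ∈ N, ∀ v : X, v < w1 → v ∉ N → q ∈ ((hn ξ γ v)ᶜ).carrier

/-- positive instance of `SCC` -/
def PosScc (hn : X → X → X → RO P) : Prop :=
  ∀ᶠ N in club X, ∀ p, Dec hn N p → ∃ q, q ≤ p ∧ ∃ γ, γ ∉ N ∧ Pre1 hn N γ q

/-- positive instance of `SCC^split` -/
def PosSplit (hn : X → X → X → RO P) : Prop :=
  ∀ᶠ N in club X, ∀ p, Dec hn N p → ∃ q, q ≤ p ∧ ∃ γ γ', Pre1 hn N γ q ∧ Pre1 hn N γ' q ∧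
    (∃ ξ ∈ N, ∃ v, q ∈ (hn ξ γ v).carrier ∧ ∀ ξ' ∈ N, q ∈ ((hn ξ' γ' v)ᶜ).carrier) ∧
    ∃ ξ ∈ N, ∃ v, q ∈ (hn ξ γ' v).carrier ∧ ∀ ξ' ∈ N, q ∈ ((hn ξ' γ v)ᶜ).carrier

/-- negative instance of `SCC^cof` -/
def NegCof (hn : X → X → X → RO P) : Prop :=
  ∀ p : P, ∀ᶠ N in club X, ∃ q, q ≤ p ∧ Dec hn N q ∧
    ∃ β : X, β < kk ∧ ∀ γ : X, γ < kk → β ≤ γ →
      q ∈ (⨆ ξ : X, ⨆ (_ : ξ ∈ N), ⨆ v : X, ⨆ (_ : v < w1 ∧ v ∉ N), hn ξ γ v).carrier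

/-- negative instance of `SCC^split` -/
def NegSplit (hn : X → X → X → RO P) : Prop :=
  ∀ p : P, ∀ᶠ N in club X, ∃ q, q ≤ p ∧ Dec hn N q ∧
    ∀ q', q' ≤ q → ∀ γ γ', Pre1 hn N γ q' → Pre1 hn N γ' q' → ∀ ξ ∈ N, ∀ v, ∀ ξ' ∈ N, ∀ v',
      q' ∈ (hn ξ γ v).carrier → q' ∈ (hn ξ' γ' v').carrier →
      ¬ ((∀ η ∈ N, q' ∈ ((hn η γ' v)ᶜ).carrier) ∧ ∀ η ∈ N, q' ∈ ((hn η γ v')ᶜ).carrier)

end Pool.MP_d8f801_lc.SC
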