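import Pool.Agent.Lib.MP_d8f801_lc.SC.V.Fml
import Pool.Agent.Lib.MP_d8f801_lc.SC.V.Intf
import Pool.Agent.Lib.MP_4d8715_gt.KR.E.Seq

/-!
# SC/V: forcing (module V-Frc)

`p ∈ a.carrier` for `a : RO P` is read `p` forces `a`. The rules are `RO.mem_inf`, `RO.mem_sup`, `RO.mem_compl`,
`RO.mem_himp`, `RO.mem_iInf`, `RO.mem_iSup` (and `mem_max` for suprema over `BSet`), and `le_iff_ev` with the
ultrafilter rules of `KR/G/Ult.lean`, `KR/N/Ext.lean` for finite Boolean combinations.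
-/

set_option autoImplicit false

universe u

namespace Pool.MP_d8f801_lc.SC

open Cardinal Set Filter Pool.Agent.Lib.MP_4d8715_gt.KR BSet

variable {P : Type u} [Preorder P]

theorem frc_mono {a b : RO P} (h : a ≤ b) {p : P} (hp : p ∈ a.carrier) : p ∈ b.carrier := h hp

theorem frc_down {a : RO P} {p q : P} (h : q ≤ p) (hp : p ∈ a.carrier) : q ∈ a.carrier :=
  a.down p hp q h

theorem frc_top_iff {a : RO P} : a = ⊤ ↔ ∀ p, p ∈ a.carrier := by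
  constructor
  · rintro rfl p
    exact RO.mem_top p
  · intro h
    exact top_unique fun p _ => h p

/-- `p` forces `a` iff a dense set of conditions below `p` does -/
theorem frc_dense {a : RO P} {p : P} :
    p ∈ a.carrier ↔ ∀ q, q ≤ p → ∃ r, r ≤ q ∧ r ∈ a.carrier :=
  ⟨fun h q hq => ⟨q, le_rfl, a.down p h q hq⟩, a.reg p⟩

theorem frc_tv {p : P} {Q : Prop} : p ∈ (tv (RO P) Q).carrier ↔ Q := by
  unfold tv
  by_cases hQ : Q
  · rw [iSup_pos hQ]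
    exact ⟨fun _ => hQ, fun _ => RO.mem_top p⟩
  · rw [iSup_neg hQ]
    exact ⟨fun h => (RO.mem_bot p h).elim, fun h => (hQ h).elim⟩

/-- no condition forces a contradiction -/
theorem frc_absurd {a : RO P} {p : P} (h : p ∈ a.carrier) (h' : p ∈ (aᶜ).carrier) : False :=
  RO.mem_compl.1 h' p le_rfl h

theorem frc_iff {a b : RO P} {p : P} :
    p ∈ (iffB a b).carrier ↔ ∀ q, q ≤ p → (q ∈ a.carrier ↔ q ∈ b.carrier) := by
  unfold iffB
  rw [RO.mem_inf, RO.mem_himp, RO.mem_himp]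
  exact ⟨fun h q hq => ⟨h.1 q hq, h.2 q hq⟩, fun h => ⟨fun q hq => (h q hq).1, fun q hq => (h q hq).2⟩⟩

/-- the maximum principle -/
theorem mem_max {ψ : BSet (RO P) → RO P} (hψ : Ext ψ) {p : P} (h : p ∈ (⨆ x, ψ x).carrier) :
    ∃ x, p ∈ (ψ x).carrier := by
  obtain ⟨x, hx⟩ := exists_max ψ hψ
  exact ⟨x, by rw [hx]; exact h⟩

/-- `p` forces a bounded supremum: densely below `p` some member is forced -/
theorem mem_iSup₂' {ι : Type*} {S : Set ι} {f : ι → RO P} {p : P} :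
    p ∈ (⨆ i, ⨆ (_ : i ∈ S), f i).carrier ↔ ∀ q, q ≤ p → ∃ r, r ≤ q ∧ ∃ i ∈ S, r ∈ (f i).carrier := by
  rw [RO.mem_iSup]
  constructor
  · intro h q hq
    obtain ⟨r, hr, i, hi⟩ := h q hq
    rw [RO.mem_iSup] at hi
    obtain ⟨s, hs, hS, hsf⟩ := hi r le_rfl
    exact ⟨s, hs.trans hr, i, hS, hsf⟩
  · intro h q hq
    obtain ⟨r, hr, i, hS, hi⟩ := h q hq
    refine ⟨r, hr, i, ?_⟩
    rw [RO.mem_iSup]
    exact fun s hs => ⟨s, le_rfl, hS, (f i).down r hi s hs⟩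

theorem mem_iInf₂' {ι : Type*} {S : Set ι} {f : ι → RO P} {p : P} :
    p ∈ (⨅ i, ⨅ (_ : i ∈ S), f i).carrier ↔ ∀ i ∈ S, p ∈ (f i).carrier := by
  rw [RO.mem_iInf]
  exact forall_congr' fun i => RO.mem_iInf

/-- substitution -/
theorem frc_ext {ψ : BSet (RO P) → RO P} (hψ : Ext ψ) {p : P} {x y : BSet (RO P)}
    (h : p ∈ (beq x y).carrier) (hx : p ∈ (ψ x).carrier) : p ∈ (ψ y).carrier :=
  hψ x y (RO.mem_inf.2 ⟨h, hx⟩)

/-- countably many open dense sets have a common member below `p` if the poset is countably closed -/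
theorem closed_dense (hcl : ∀ p : ℕ → P, (∀ n, p (n + 1) ≤ p n) → ∃ q, ∀ n, q ≤ p n)
    {ι : Type*} [Countable ι] (D : ι → Set P) (hD : ∀ i, ∀ a ∈ D i, ∀ b, b ≤ a → b ∈ D i) (p : P)
    (hd : ∀ i, ∀ q, q ≤ p → ∃ r, r ≤ q ∧ r ∈ D i) : ∃ q, q ≤ p ∧ ∀ i, q ∈ D i := by
  rcases isEmpty_or_nonempty ι with hι | hι
  · exact ⟨p, le_rfl, fun i => hι.elim i⟩
  obtain ⟨e, he⟩ := exists_surjective_nat ι
  choose g hg1 hg2 using fun (i : ι) (q : {q : P // q ≤ p}) => hd i q.1 q.2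
  let c : ℕ → {q : P // q ≤ p} := fun n =>
    Nat.rec ⟨p, le_rfl⟩ (fun n q => ⟨g (e n) q, (hg1 (e n) q).trans q.2⟩) n
  have hcs : ∀ n, (c (n + 1)).1 = g (e n) (c n) := fun n => rfl
  obtain ⟨q, hq⟩ := hcl (fun n => (c n).1) (fun n => by rw [hcs]; exact hg1 _ _)
  refine ⟨q, hq 0, fun i => ?_⟩
  obtain ⟨n, rfl⟩ := he i
  refine hD _ _ ?_ _ (hq (n + 1))
  rw [hcs]
  exact hg2 _ _

end Pool.MP_d8f801_lc.SC
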