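import Pool.Agent.Lib.MP_d8f801_lc.SC.V.Chk

/-!
# SC/V: names of functions (module V-FunA)

PROOFS: as in `KR/E/Seq.lean` (`App_seqB`, `FunOn_seqB`, `exists_FunOn_eq`), with `iSup_cs`, `iInf_cs` instead of
`Std.iSup`, `Std.iInf`.
-/

set_option autoImplicit false

universe u

namespace Pool.MP_d8f801_lc.SC

open Set Pool.Agent.Lib.MP_4d8715_gt.KR BSet

variable {B : Type u} [CompleteBooleanAlgebra B] {X : Type u} [LinearOrder X] [WellFoundedLT X]

theorem App_fB (S : Set X) (l : X → X → B) (a b : BSet B) :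
    Kb.App (fB S l) a b = ⨆ i : X, ⨆ _ : i ∈ S, ⨆ v : X, beq a (chk i) ⊓ (beq b (chk v) ⊓ l i v) := by
  rw [Kb.App_eq]
  unfold fB
  rw [basic_bmem_mk]
  refine le_antisymm (iSup_le ?_) (iSup_le fun i => iSup_le fun hi => iSup_le fun v => ?_)
  · rintro ⟨⟨i, hi⟩, v⟩
    refine le_iSup_of_le i (le_iSup_of_le hi (le_iSup_of_le v ?_))
    show l i v ⊓ beq (opair a b) (opair (chk i) (chk v)) ≤ _
    rw [beq_opair]
    exact le_inf (inf_le_right.trans inf_le_left) (le_inf (inf_le_right.trans inf_le_right) inf_le_left)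
  · refine le_iSup_of_le (⟨⟨i, hi⟩, v⟩ : S × X) ?_
    show _ ≤ l i v ⊓ beq (opair a b) (opair (chk i) (chk v))
    rw [beq_opair]
    exact le_inf (inf_le_right.trans inf_le_right) (le_inf inf_le_left (inf_le_right.trans inf_le_left))

theorem App_fB_chk {S : Set X} (l : X → X → B) {i : X} (hi : i ∈ S) (v : X) :
    Kb.App (fB S l) (chk i) (chk v) = l i v := by
  rw [App_fB]
  refine le_antisymm (iSup_le fun j => iSup_le fun hj => iSup_le fun w => ?_) ?_
  · rw [beq_chk, beq_chk]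
    unfold tv
    rw [iSup_inf_eq]
    refine iSup_le fun hij => ?_
    rw [iSup_inf_eq, inf_iSup_eq]
    refine iSup_le fun hvw => ?_
    rw [hij, hvw]
    exact inf_le_right.trans inf_le_right
  · refine le_iSup_of_le i (le_iSup_of_le hi (le_iSup_of_le v ?_))
    rw [beq_refl, beq_refl, top_inf_eq, top_inf_eq]

theorem App_fB_left {S : Set X} (l : X → X → B) {i : X} (hi : i ∈ S) (b : BSet B) :
    Kb.App (fB S l) (chk i) b = ⨆ v : X, beq b (chk v) ⊓ l i v := by
  rw [App_fB]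
  refine le_antisymm (iSup_le fun j => iSup_le fun hj => iSup_le fun w => ?_) (iSup_le fun v => ?_)
  · rw [beq_chk]
    unfold tv
    rw [iSup_inf_eq]
    refine iSup_le fun hij => ?_
    rw [hij]
    exact inf_le_right.trans (le_iSup (fun v => beq b (chk v) ⊓ l j v) w)
  · refine le_iSup_of_le i (le_iSup_of_le hi (le_iSup_of_le v ?_))
    rw [beq_refl, top_inf_eq]

private theorem funA_bmem_sB (S : Set X) (F : X → BSet B) (p : BSet B) :
    bmem p (sB S F) = ⨆ i : X, ⨆ _ : i ∈ S, beq p (opair (chk i) (F i)) := by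
  unfold sB
  rw [basic_bmem_mk]
  refine le_antisymm (iSup_le ?_) (iSup_le fun i => iSup_le fun hi => ?_)
  · rintro ⟨i, hi⟩
    exact le_iSup_of_le i (le_iSup_of_le hi inf_le_right)
  · refine le_iSup_of_le (⟨i, hi⟩ : S) ?_
    show _ ≤ ⊤ ⊓ beq p (opair (chk i) (F i))
    rw [top_inf_eq]

theorem App_sB (S : Set X) (F : X → BSet B) (a b : BSet B) :
    Kb.App (sB S F) a b = ⨆ i : X, ⨆ _ : i ∈ S, beq a (chk i) ⊓ beq b (F i) := by
  rw [Kb.App_eq, funA_bmem_sB]
  simp only [beq_opair]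

theorem App_sB_chk {S : Set X} (F : X → BSet B) {i : X} (hi : i ∈ S) (b : BSet B) :
    Kb.App (sB S F) (chk i) b = beq b (F i) := by
  rw [App_sB]
  refine le_antisymm (iSup_le fun j => iSup_le fun hj => ?_) ?_
  · rw [beq_chk]
    unfold tv
    rw [iSup_inf_eq]
    refine iSup_le fun hij => ?_
    rw [hij]
    exact inf_le_right
  · refine le_iSup_of_le i (le_iSup_of_le hi ?_)
    rw [beq_refl, top_inf_eq]

private theorem funA_ext_a (f : BSet B) :
    Ext (fun a => ⨆ b, ⨅ c, iffB (Kb.App f a c) (beq c b)) :=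
  Ext.iSup fun _ => Ext.iInf fun c => (Kb.ext_App_a f c).iffB (ext_const _)

private theorem funA_cs_self {S : Set X} {i : X} (hi : i ∈ S) : bmem (chk i) (cs S : BSet B) = ⊤ := by
  rw [bmem_chk_cs]
  unfold tv
  rw [iSup_pos hi]

/-- (for a name `l` of a function: the value at `i` exists by mixing or: use `frc`-free argument: the value of
`∃ b ∀ c (App i c ↔ c = b)` is at least `l i v` for every `v`, with `b = chk v`, and `⨆ v, l i v = ⊤`) -/
theorem FunOn_fB {S : Set X} {l : X → X → B} (h : IsFnS S l) : Kb.FunOn (fB S l) (cs S) = ⊤ := by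
  unfold Kb.FunOn
  have h1 : (⨅ p, bmem p (fB S l) ⇨ (⨆ a, ⨆ b, bmem a (cs S) ⊓ Kb.Pair p a b)) = ⊤ := by
    rw [iInf_eq_top]
    intro p
    rw [himp_eq_top_iff]
    unfold fB
    rw [basic_bmem_mk]
    refine iSup_le ?_
    rintro ⟨⟨i, hi⟩, v⟩
    refine le_iSup_of_le (chk i) (le_iSup_of_le (chk v) ?_)
    rw [funA_cs_self hi, top_inf_eq, Kb.Pair_eq]
    exact inf_le_right
  have h2 : (⨅ a, bmem a (cs S) ⇨ (⨆ b, ⨅ c, iffB (Kb.App (fB S l) a c) (beq c b))) = ⊤ := by
    rw [iInf_cs S (funA_ext_a (fB S l)), iInf_eq_top]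
    intro i
    rw [iInf_eq_top]
    intro hi
    refine top_unique ?_
    rw [← h.tot i hi]
    refine iSup_le fun v => le_iSup_of_le (chk v) (le_iInf fun c => ?_)
    rw [App_fB_left l hi]
    unfold iffB
    refine le_inf ?_ ?_
    · rw [le_himp_iff, inf_iSup_eq]
      refine iSup_le fun w => ?_
      by_cases hvw : v = w
      · rw [hvw]
        exact inf_le_right.trans inf_le_left
      · have h3 := h.disj i hi v w hvw
        refine le_trans ?_ (bot_le : (⊥ : B) ≤ _)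
        rw [← h3]
        exact le_inf inf_le_left (inf_le_right.trans inf_le_right)
    · rw [le_himp_iff]
      refine le_iSup_of_le v ?_
      exact le_inf inf_le_right inf_le_left
  rw [h1, h2, inf_top_eq]

theorem FunTo_fB {S T : Set X} {l : X → X → B} (h : IsFnS S l) (hT : ∀ i ∈ S, ∀ v, v ∉ T → l i v = ⊥) :
    Kb.FunTo (fB S l) (cs S) (cs T) = ⊤ := by
  unfold Kb.FunTo
  rw [FunOn_fB h, top_inf_eq, iInf_eq_top]
  intro a
  rw [iInf_eq_top]
  intro b
  rw [himp_eq_top_iff, App_fB]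
  refine iSup_le fun i => iSup_le fun hi => iSup_le fun v => ?_
  by_cases hv : v ∈ T
  · rw [bmem_cs]
    exact (inf_le_right.trans inf_le_left).trans (le_iSup_of_le v (le_iSup_of_le hv le_rfl))
  · rw [hT i hi v hv, inf_bot_eq, inf_bot_eq]
    exact bot_le

theorem FunOn_sB (S : Set X) (F : X → BSet B) : Kb.FunOn (sB S F) (cs S) = ⊤ := by
  unfold Kb.FunOn
  have h1 : (⨅ p, bmem p (sB S F) ⇨ (⨆ a, ⨆ b, bmem a (cs S) ⊓ Kb.Pair p a b)) = ⊤ := by
    rw [iInf_eq_top]
    intro p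
    rw [himp_eq_top_iff, funA_bmem_sB]
    refine iSup_le fun i => iSup_le fun hi => le_iSup_of_le (chk i) (le_iSup_of_le (F i) ?_)
    rw [funA_cs_self hi, top_inf_eq, Kb.Pair_eq]
  have h2 : (⨅ a, bmem a (cs S) ⇨ (⨆ b, ⨅ c, iffB (Kb.App (sB S F) a c) (beq c b))) = ⊤ := by
    rw [iInf_cs S (funA_ext_a (sB S F)), iInf_eq_top]
    intro i
    rw [iInf_eq_top]
    intro hi
    refine top_unique (le_iSup_of_le (F i) (le_iInf fun c => ?_))
    rw [App_sB_chk F hi]
    unfold iffB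
    rw [himp_self, inf_top_eq]
  rw [h1, h2, inf_top_eq]

end Pool.MP_d8f801_lc.SC
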