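import Pool.Agent.Lib.MP_d8f801_lc.SC.V.FunA

/-!
# SC/V: every function has a name (module V-FunB)

PROOFS: as in `KR/E/Seq.lean` (`App_seqB`, `FunOn_seqB`, `exists_FunOn_eq`), with `iSup_cs`, `iInf_cs` instead of
`Std.iSup`, `Std.iInf`.
`exists_fB`: let `b = Kb.FunTo f (cs S) (cs T)`, `t0 ∈ T`; for `i ∈ S`, `v ∈ T` put
`l i v = (b ⊓ App f (chk i) (chk v)) ⊔ (bᶜ ⊓ tv (v = t0))`, else `⊥`.
-/

set_option autoImplicit false

universe u

namespace Pool.MP_d8f801_lc.SC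

open Set Pool.Agent.Lib.MP_4d8715_gt.KR BSet

variable {B : Type u} [CompleteBooleanAlgebra B] {X : Type u} [LinearOrder X] [WellFoundedLT X]

private theorem funb_pair {f d p : BSet B} {U : Ult B} (h : U (Kb.FunOn f d)) (hp : U (bmem p f)) :
    ∃ a c, U (bmem a d) ∧ U (beq p (opair a c)) := by
  unfold Kb.FunOn at h
  rw [Ult.inf'] at h
  have h1 := ult_iInf_le h.1 p
  rw [Ult.himp'] at h1
  have h2 := h1 hp
  rw [los_iSup (Ext.iSup fun c => (ext_bmem_left d).inf (Kb.ext_Pair_a p c))] at h2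
  obtain ⟨a, h3⟩ := h2
  rw [los_iSup ((ext_const _).inf (Kb.ext_Pair_b p a))] at h3
  obtain ⟨c, h4⟩ := h3
  rw [Ult.inf', Kb.Pair_eq] at h4
  exact ⟨a, c, h4⟩

private theorem funb_tot {f d a : BSet B} {U : Ult B} (h : U (Kb.FunOn f d)) (ha : U (bmem a d)) :
    ∃ c, ∀ e, U (Kb.App f a e) ↔ U (beq e c) := by
  unfold Kb.FunOn at h
  rw [Ult.inf'] at h
  have h1 := ult_iInf_le h.2 a
  rw [Ult.himp'] at h1
  have h2 := h1 ha
  rw [los_iSup (Ext.iInf fun c => (ext_const _).iffB (ext_beq_right c))] at h2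
  obtain ⟨c, h3⟩ := h2
  refine ⟨c, fun e => ?_⟩
  have h4 := ult_iInf_le h3 e
  rwa [Ult.iffB'] at h4

private theorem funb_dom {f d a b : BSet B} {U : Ult B} (h : U (Kb.FunOn f d)) (hp : U (Kb.App f a b)) :
    U (bmem a d) := by
  rw [Kb.App_eq] at hp
  obtain ⟨a', c, h1, h2⟩ := funb_pair h hp
  rw [beq_opair, Ult.inf'] at h2
  exact ev_bmem_left (ev_beq_symm h2.1) h1

private theorem funb_uniq {f d a b b' : BSet B} {U : Ult B} (h : U (Kb.FunOn f d)) (hp : U (Kb.App f a b))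
    (hp' : U (Kb.App f a b')) : U (beq b b') := by
  obtain ⟨c, hc⟩ := funb_tot h (funb_dom h hp)
  exact ev_beq_trans ((hc b).1 hp) (ev_beq_symm ((hc b').1 hp'))

private theorem funb_le {x y : B} (h : ∀ U : Ult B, U x → U y) : x ≤ y :=
  le_iff_ev.mpr (Filter.Eventually.of_forall h)

private theorem funb_sel (S T : Set X) (f p : BSet B) :
    Kb.FunTo f (cs S) (cs T) ⊓ bmem p f ≤ ⨆ i : X, ⨆ _ : i ∈ S, ⨆ v : X, ⨆ _ : v ∈ T,
      (Kb.FunTo f (cs S) (cs T) ⊓ bmem p f) ⊓ beq p (opair (chk i) (chk v)) := by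
  set b := Kb.FunTo f (cs S) (cs T) ⊓ bmem p f with hb
  have h1 : b ≤ ⨆ a, bmem a (cs S) ⊓ ⨆ c, bmem c (cs T) ⊓ (b ⊓ beq p (opair a c)) := by
    refine funb_le fun U hU => ?_
    have hU' := hU
    rw [hb, Ult.inf'] at hU'
    obtain ⟨h2, h3⟩ := hU'
    unfold Kb.FunTo at h2
    rw [Ult.inf'] at h2
    obtain ⟨a, c, h4, h5⟩ := funb_pair h2.1 h3
    refine ult_iSup_le (i := a) ?_
    rw [Ult.inf']
    refine ⟨h4, ult_iSup_le (i := c) ?_⟩
    rw [Ult.inf', Ult.inf']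
    refine ⟨?_, hU, h5⟩
    have h6 := ult_iInf_le (ult_iInf_le h2.2 a) c
    rw [Ult.himp'] at h6
    refine h6 ?_
    rw [Kb.App_eq]
    exact ev_bmem_left h5 h3
  refine h1.trans (le_of_eq ?_)
  rw [iSup_cs S (Ext.iSup fun c => (ext_const _).inf ((ext_const _).inf (ext_opair_left c p)))]
  refine iSup_congr fun i => iSup_congr fun _ => ?_
  rw [iSup_cs T ((ext_const _).inf (ext_opair_right (chk i) p))]

private theorem funb_val (S T : Set X) (f : BSet B) {i : X} (hi : i ∈ S) :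
    Kb.FunTo f (cs S) (cs T) ≤ ⨆ v : X, ⨆ _ : v ∈ T,
      Kb.FunTo f (cs S) (cs T) ⊓ Kb.App f (chk i) (chk v) := by
  set b := Kb.FunTo f (cs S) (cs T) with hb
  have h1 : b ≤ ⨆ c, bmem c (cs T) ⊓ (b ⊓ Kb.App f (chk i) c) := by
    refine funb_le fun U hU => ?_
    have h2 := hU
    rw [hb] at h2
    unfold Kb.FunTo at h2
    rw [Ult.inf'] at h2
    have h3 : U (bmem (chk i) (cs S)) := by
      rw [bmem_chk_cs, ult_tv]
      exact hi
    obtain ⟨c, hc⟩ := funb_tot h2.1 h3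
    have h4 : U (Kb.App f (chk i) c) := (hc c).2 (ev_beq_refl _ _)
    refine ult_iSup_le (i := c) ?_
    rw [Ult.inf', Ult.inf']
    refine ⟨?_, hU, h4⟩
    have h6 := ult_iInf_le (ult_iInf_le h2.2 (chk i)) c
    rw [Ult.himp'] at h6
    exact h6 h4
  refine h1.trans (le_of_eq ?_)
  rw [iSup_cs T ((ext_const _).inf (Kb.ext_App_b f (chk i)))]

/-- every function from `S` to `T` is given by a name as above -/
theorem exists_fB (S T : Set X) (hT : T.Nonempty) (f : BSet B) : ∃ l : X → X → B, IsFnS S l ∧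
    (∀ i ∈ S, ∀ v, v ∉ T → l i v = ⊥) ∧ (∀ i, i ∉ S → ∀ v, l i v = ⊥) ∧
    Kb.FunTo f (cs S) (cs T) ≤ beq f (fB S l) := by
  classical
  obtain ⟨t0, ht0⟩ := hT
  set b := Kb.FunTo f (cs S) (cs T) with hb
  let l : X → X → B := fun i v => if i ∈ S ∧ v ∈ T then
    (b ⊓ Kb.App f (chk i) (chk v)) ⊔ (bᶜ ⊓ tv B (v = t0)) else ⊥
  have hl : ∀ i v, i ∈ S → v ∈ T → l i v = (b ⊓ Kb.App f (chk i) (chk v)) ⊔ (bᶜ ⊓ tv B (v = t0)) :=
    fun i v hi hv => if_pos ⟨hi, hv⟩
  have hl0 : ∀ i v, ¬ (i ∈ S ∧ v ∈ T) → l i v = ⊥ := fun i v h => if_neg h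
  have hlT : ∀ i v, ∀ U : Ult B, U (l i v) → v ∈ T := by
    intro i v U hU
    by_contra hv
    rw [hl0 i v fun h => hv h.2] at hU
    exact U.bot hU
  refine ⟨l, ⟨?_, ?_⟩, ?_, ?_, ?_⟩
  · intro i hi
    refine top_unique ?_
    rw [← sup_compl_eq_top (x := b)]
    refine sup_le ?_ ?_
    · refine (funb_val S T f hi).trans (iSup_le fun v => iSup_le fun hv => ?_)
      refine le_iSup_of_le v ?_
      rw [hl i v hi hv]
      exact le_sup_left
    · refine le_iSup_of_le t0 ?_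
      rw [hl i t0 hi ht0]
      refine le_trans ?_ le_sup_right
      refine funb_le fun U hU => ?_
      rw [Ult.inf', ult_tv]
      exact ⟨hU, rfl⟩
  · intro i hi v v' hvv
    refine bot_unique (funb_le fun U hU => ?_)
    rw [Ult.inf'] at hU
    obtain ⟨h1, h2⟩ := hU
    have hv := hlT i v U h1
    have hv' := hlT i v' U h2
    rw [hl i v hi hv, Ult.sup', Ult.inf', Ult.inf', Ult.compl', ult_tv] at h1
    rw [hl i v' hi hv', Ult.sup', Ult.inf', Ult.inf', Ult.compl', ult_tv] at h2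
    exfalso
    rcases h1 with ⟨h3, h4⟩ | ⟨h3, h4⟩
    · rcases h2 with ⟨h5, h6⟩ | ⟨h5, h6⟩
      · have h7 := h3
        rw [hb] at h7
        unfold Kb.FunTo at h7
        rw [Ult.inf'] at h7
        have h8 := funb_uniq h7.1 h4 h6
        rw [beq_chk, ult_tv] at h8
        exact hvv h8
      · exact h5 h3
    · rcases h2 with ⟨h5, h6⟩ | ⟨h5, h6⟩
      · exact h3 h5
      · exact hvv (h4.trans h6.symm)
  · intro i _ v hv
    exact hl0 i v fun h => hv h.2
  · intro i hi v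
    exact hl0 i v fun h => hi h.1
  · rw [BSet.beq_ext]
    refine le_iInf fun p => le_inf ?_ ?_
    · rw [le_himp_iff]
      refine (funb_sel S T f p).trans ?_
      refine iSup_le fun i => iSup_le fun hi => iSup_le fun v => iSup_le fun hv => ?_
      unfold fB
      rw [basic_bmem_mk]
      refine le_iSup_of_le (⟨i, hi⟩, v) ?_
      refine funb_le fun U hU => ?_
      rw [Ult.inf', Ult.inf'] at hU
      obtain ⟨⟨h1, h2⟩, h3⟩ := hU
      rw [Ult.inf']
      refine ⟨?_, h3⟩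
      change U (l i v)
      rw [hl i v hi hv, Ult.sup', Ult.inf']
      refine Or.inl ⟨h1, ?_⟩
      rw [Kb.App_eq]
      exact ev_bmem_left h3 h2
    · rw [le_himp_iff]
      unfold fB
      rw [basic_bmem_mk, inf_iSup_eq]
      refine iSup_le fun x => ?_
      refine funb_le fun U hU => ?_
      rw [Ult.inf', Ult.inf'] at hU
      obtain ⟨h1, h2, h3⟩ := hU
      have h2' : U (l x.1.1 x.2) := h2
      have hv := hlT _ _ U h2'
      rw [hl _ _ x.1.2 hv, Ult.sup', Ult.inf', Ult.inf', Ult.compl'] at h2'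
      rcases h2' with h4 | h4
      · have h5 := h4.2
        rw [Kb.App_eq] at h5
        exact ev_bmem_left (ev_beq_symm h3) h5
      · exact absurd h1 h4.1

/-- the values of a function are unique -/
theorem FunOn_unique (f d a b b' : BSet B) :
    Kb.FunOn f d ⊓ (Kb.App f a b ⊓ Kb.App f a b') ≤ beq b b' := by
  refine funb_le fun U hU => ?_
  rw [Ult.inf', Ult.inf'] at hU
  exact funb_uniq hU.1 hU.2.1 hU.2.2

theorem FunOn_dom (f d a b : BSet B) : Kb.FunOn f d ⊓ Kb.App f a b ≤ bmem a d := by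
  refine funb_le fun U hU => ?_
  rw [Ult.inf'] at hU
  exact funb_dom hU.1 hU.2

end Pool.MP_d8f801_lc.SC
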