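import Pool.Agent.Lib.MP_d8f801_lc.SC.V.PresA

/-!
# SC/V: the negative instances for ground model `N` (module V-PresB)

PROOFS. `not_atCof`: if `q' ≤ q` forces `AtCof`, take the instance `chk β` and a condition
`r ≤ q'` and `γ < kk` such that `r` forces `γ ∉ β` and `Pres (chk γ)` (`iSup_chk`, `mem_iSup₂'`; `Kc.ext_Pres_γ`); then `β ≤ γ`
(`bmem_chk`) and a condition below `r` forces
`hn ξ γ v` with `v < w1`, `v ∉ N`, `ξ ∈ N`: contradiction to `Pre1` (`pres_iff`). `not_atSplit`: similar; the elements `v` given by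
the existential quantifiers are less than `kk` by `Val_le` and can be decided (`bmem_chk'`).
-/

set_option autoImplicit false

universe u

namespace Pool.MP_d8f801_lc.SC

open Set Filter Pool.Agent.Lib.MP_4d8715_gt.KR BSet

variable {X : Type u} [Stg X] {P : Type u} [Preorder P]

private theorem presB_dec_down {hn : X → X → X → RO P} {N : Set X} {q q' : P} (h : q' ≤ q) (hd : Dec hn N q) :
    Dec hn N q' := fun ξ hξ => by
  obtain ⟨v, hv, h1⟩ := hd ξ hξ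
  exact ⟨v, hv, frc_down h h1⟩

/-- an element of `chk kk` can be decided -/
private theorem presB_decide {a : BSet (RO P)} {q : P} (h : q ∈ (bmem a (chk (kk : X))).carrier) :
    ∃ r, r ≤ q ∧ ∃ y : X, y < kk ∧ r ∈ (beq a (chk y)).carrier := by
  rw [bmem_chk', mem_iSup₂'] at h
  obtain ⟨r, hr, y, hy, h1⟩ := h q le_rfl
  exact ⟨r, hr, y, hy, h1⟩

theorem not_atCof {hn : X → X → X → RO P} (h : Frame P hn) {N : Set X} (hc : CstCl hn N) {q : P} (hd : Dec hn N q)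
    (h1 : ∃ β : X, β < kk ∧ ∀ γ : X, γ < kk → β ≤ γ →
      q ∈ (⨆ ξ : X, ⨆ (_ : ξ ∈ N), ⨆ v : X, ⨆ (_ : v < w1 ∧ v ∉ N), hn ξ γ v).carrier) :
    q ∈ ((Kc.AtCof (chk (w1 : X)) (chk (kk : X)) (chk (⊥ : X)) (hB hn) (cs N))ᶜ).carrier := by
  rw [RO.mem_compl]
  intro q' hq' H
  obtain ⟨β, hβ, hβ2⟩ := h1
  unfold Kc.AtCof at H
  have H1 := RO.mem_iInf.1 H (chk β)
  have hm : q' ∈ (bmem (chk β) (chk (kk : X)) : RO P).carrier := by
    rw [bmem_chk, frc_tv]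
    exact hβ
  have H2 := RO.mem_himp.1 H1 q' le_rfl hm
  have hE : Ext (fun γ : BSet (RO P) => (bmem γ (chk β))ᶜ ⊓
      Kc.Pres (chk (w1 : X)) (chk (⊥ : X)) (hB hn) (cs N) γ) :=
    (Ext.compl (ext_bmem_left (chk β))).inf (Kc.ext_Pres_γ _ _ _ _)
  rw [iSup_chk (kk : X) hE, mem_iSup₂'] at H2
  obtain ⟨r, hr, γ, hγ, H3⟩ := H2 q' le_rfl
  rw [RO.mem_inf] at H3
  obtain ⟨H4, H5⟩ := H3
  have hrq : r ≤ q := hr.trans hq'
  have hβγ : β ≤ γ := by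
    by_contra hlt
    rw [bmem_chk] at H4
    exact frc_absurd (frc_tv.2 (not_le.1 hlt)) H4
  have H6 := (pres_iff h hc (presB_dec_down hrq hd) hγ).1 H5
  have H7 := frc_down hrq (hβ2 γ hγ hβγ)
  have H8 := (mem_iSup₂' (S := N)).1 H7 r le_rfl
  obtain ⟨r1, hr1, ξ, hξ, H9⟩ := H8
  have H10 := (mem_iSup₂' (S := {v : X | v < w1 ∧ v ∉ N})).1 H9 r1 le_rfl
  obtain ⟨r2, hr2, v, hv, H11⟩ := H10
  exact frc_absurd H11 (frc_down (hr2.trans hr1) (H6.2 ξ hξ v hv.1 hv.2))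

theorem not_atSplit {hn : X → X → X → RO P} (h : Frame P hn) {N : Set X} (hc : CstCl hn N) {q : P}
    (hd : Dec hn N q)
    (h1 : ∀ q', q' ≤ q → ∀ γ γ', Pre1 hn N γ q' → Pre1 hn N γ' q' → ∀ ξ ∈ N, ∀ v, ∀ ξ' ∈ N, ∀ v',
      q' ∈ (hn ξ γ v).carrier → q' ∈ (hn ξ' γ' v').carrier →
      ¬ ((∀ η ∈ N, q' ∈ ((hn η γ' v)ᶜ).carrier) ∧ ∀ η ∈ N, q' ∈ ((hn η γ v')ᶜ).carrier)) :
    q ∈ ((Kc.AtSplit (chk (w1 : X)) (chk (kk : X)) (chk (⊥ : X)) (hB hn) (cs N))ᶜ).carrier := by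
  rw [RO.mem_compl]
  intro q' hq' H
  unfold Kc.AtSplit at H
  obtain ⟨r1, hr1, γ, H1⟩ := RO.mem_iSup.1 H q' le_rfl
  obtain ⟨r2, hr2, γ', H2⟩ := RO.mem_iSup.1 H1 r1 le_rfl
  rw [RO.mem_inf, RO.mem_inf, RO.mem_inf, RO.mem_inf, RO.mem_inf] at H2
  obtain ⟨a1, a2, a3, a4, a5, a6⟩ := H2
  obtain ⟨r3, hr3, y, hy, b1⟩ := presB_decide a1
  obtain ⟨r4, hr4, y', hy', b2⟩ := presB_decide (frc_down hr3 a2)
  obtain ⟨r5, hr5, v, c1⟩ := RO.mem_iSup.1 a5 r4 (hr4.trans hr3)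
  rw [RO.mem_inf] at c1
  obtain ⟨c2, c3⟩ := c1
  obtain ⟨r6, hr6, z, hz, b3⟩ := presB_decide (frc_mono (Val_le h (cs N) γ v) c2)
  obtain ⟨r7, hr7, v', d1⟩ := RO.mem_iSup.1 a6 r6 (((hr6.trans hr5).trans hr4).trans hr3)
  rw [RO.mem_inf] at d1
  obtain ⟨d2, d3⟩ := d1
  obtain ⟨s, hs, z', hz', b4⟩ := presB_decide (frc_mono (Val_le h (cs N) γ' v') d2)
  have s7 : s ≤ r7 := hs
  have s6 : s ≤ r6 := s7.trans hr7
  have s5 : s ≤ r5 := s6.trans hr6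
  have s4 : s ≤ r4 := s5.trans hr5
  have s3 : s ≤ r3 := s4.trans hr4
  have s2 : s ≤ r2 := s3.trans hr3
  have sq : s ≤ q := ((s2.trans hr2).trans hr1).trans hq'
  have b1 := frc_down s3 b1
  have b2 := frc_down s4 b2
  have b3 := frc_down s6 b3
  -- the values at the decided ordinals
  have e1 : s ∈ (Kc.Val (hB hn) (cs N) (chk y) (chk z)).carrier :=
    frc_ext (Kc.ext_Val_v (hB hn) (cs N) (chk y)) b3
      (frc_ext (Kc.ext_Val_γ (hB hn) (cs N) v) b1 (frc_down s5 c2))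
  have e2 : s ∈ ((Kc.Val (hB hn) (cs N) (chk y') (chk z))ᶜ).carrier :=
    frc_ext (Kc.ext_Val_v (hB hn) (cs N) (chk y')).compl b3
      (frc_ext (Kc.ext_Val_γ (hB hn) (cs N) v).compl b2 (frc_down s5 c3))
  have e3 : s ∈ (Kc.Val (hB hn) (cs N) (chk y') (chk z')).carrier :=
    frc_ext (Kc.ext_Val_v (hB hn) (cs N) (chk y')) b4
      (frc_ext (Kc.ext_Val_γ (hB hn) (cs N) v') b2 (frc_down s7 d2))
  have e4 : s ∈ ((Kc.Val (hB hn) (cs N) (chk y) (chk z'))ᶜ).carrier :=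
    frc_ext (Kc.ext_Val_v (hB hn) (cs N) (chk y)).compl b4
      (frc_ext (Kc.ext_Val_γ (hB hn) (cs N) v').compl b1 (frc_down s7 d3))
  have e5 : s ∈ (Kc.Pres (chk (w1 : X)) (chk (⊥ : X)) (hB hn) (cs N) (chk y)).carrier :=
    frc_ext (Kc.ext_Pres_γ _ _ _ _) b1 (frc_down s2 a3)
  have e6 : s ∈ (Kc.Pres (chk (w1 : X)) (chk (⊥ : X)) (hB hn) (cs N) (chk y')).carrier :=
    frc_ext (Kc.ext_Pres_γ _ _ _ _) b2 (frc_down s2 a4)
  rw [Val_chk h] at e1 e2 e3 e4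
  obtain ⟨t1, ht1, ξ, hξ, f1⟩ := mem_iSup₂'.1 e1 s le_rfl
  obtain ⟨t2, ht2, ξ', hξ', f2⟩ := mem_iSup₂'.1 e3 t1 ht1
  have ts : t2 ≤ s := ht2.trans ht1
  have tq : t2 ≤ q := ts.trans sq
  refine h1 t2 tq y y' ((pres_iff h hc (presB_dec_down tq hd) hy).1 (frc_down ts e5))
    ((pres_iff h hc (presB_dec_down tq hd) hy').1 (frc_down ts e6)) ξ hξ z ξ' hξ' z'
    (frc_down ht2 f1) f2 ⟨fun η hη => ?_, fun η hη => ?_⟩
  · exact frc_mono (compl_le_compl (le_iSup₂_of_le (f := fun ξ (_ : ξ ∈ N) => hn ξ y' z) η hη le_rfl))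
      (frc_down ts e2)
  · exact frc_mono (compl_le_compl (le_iSup₂_of_le (f := fun ξ (_ : ξ ∈ N) => hn ξ y z') η hη le_rfl))
      (frc_down ts e4)

end Pool.MP_d8f801_lc.SC
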