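import Pool.Agent.Lib.MP_d8f801_lc.SC.V.FunB
import Pool.Agent.Lib.MP_d8f801_lc.SC.V.Clb

/-!
# SC/V: the closure of a ground model set (module V-TrmB)

`NB z N` is the name of the set of the `z t`, `t ∈ TmS N`, the terms all whose `of`-leaves are in `N`.
PROOFS. `club_b`: `F l = {b t | TmS {x | x ∈ l} t}`. `NB_cl`: `Sub`; `Cov`: the set of the terms in `TmS N` is countable and
contains `nm ⊥`; the function maps `n < om` to `z (t n)`: `sB (Iio om)`, `FunOn_sB`, `App_sB_chk`, `exists_enum_om`;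
closure: `bmem_def`, uniqueness of the value from `BinOp`.
-/

set_option autoImplicit false

universe u

namespace Pool.MP_d8f801_lc.SC

open Set Filter Pool.Agent.Lib.MP_4d8715_gt.KR BSet

variable {X : Type u} [Stg X] {P : Type u} [Preorder P]

private def tmL (N : Set X) : ℕ → Set (Tm X)
  | 0 => (Tm.of '' N) ∪ (Tm.nm '' (Iio (om X)))
  | n + 1 => tmL N n ∪ image2 Tm.op (tmL N n) (tmL N n)

private theorem tmL_countable {N : Set X} (hN : N.Countable) (n : ℕ) : (tmL N n).Countable := by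
  induction n with
  | zero => exact (hN.image _).union ((countable_om X).image _)
  | succ n ih => exact ih.union (ih.image2 ih _)

private theorem tmL_mono {N : Set X} {n m : ℕ} (h : n ≤ m) : tmL N n ⊆ tmL N m := by
  induction h with
  | refl => exact Subset.rfl
  | step _ ih => exact ih.trans subset_union_left

private theorem tmL_mem {N : Set X} {t : Tm X} (h : TmS N t) : ∃ n, t ∈ tmL N n := by
  induction t with
  | of ξ => exact ⟨0, Or.inl ⟨ξ, h, rfl⟩⟩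
  | nm n => exact ⟨0, Or.inr ⟨n, h, rfl⟩⟩
  | op s t ihs iht =>
    obtain ⟨n, hn⟩ := ihs h.1
    obtain ⟨m, hm⟩ := iht h.2
    exact ⟨max n m + 1, Or.inr ⟨s, tmL_mono (le_max_left n m) hn, t,
      tmL_mono (le_max_right n m) hm, rfl⟩⟩

theorem countable_TmS {N : Set X} (hN : N.Countable) : {t : Tm X | TmS N t}.Countable := by
  refine (countable_iUnion fun n => tmL_countable hN n).mono fun t ht => ?_
  obtain ⟨n, hn⟩ := tmL_mem ht
  exact mem_iUnion.2 ⟨n, hn⟩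

private theorem TmS_mono {N N' : Set X} (h : N ⊆ N') {t : Tm X} (ht : TmS N t) : TmS N' t := by
  induction t with
  | of ξ => exact h ht
  | nm n => exact ht
  | op s t ihs iht => exact ⟨ihs ht.1, iht ht.2⟩

private theorem TmS_fin {N : Set X} {t : Tm X} (ht : TmS N t) :
    ∃ l : List X, (∀ x ∈ l, x ∈ N) ∧ TmS {x | x ∈ l} t := by
  induction t with
  | of ξ => exact ⟨[ξ], fun x hx => by rw [List.mem_singleton] at hx; rw [hx]; exact ht,
      List.mem_singleton.2 rfl⟩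
  | nm n => exact ⟨[], fun x hx => absurd hx List.not_mem_nil, ht⟩
  | op s t ihs iht =>
    obtain ⟨l, hl1, hl2⟩ := ihs ht.1
    obtain ⟨m, hm1, hm2⟩ := iht ht.2
    refine ⟨l ++ m, fun x hx => ?_, TmS_mono (fun x hx => ?_) hl2, TmS_mono (fun x hx => ?_) hm2⟩
    · rcases List.mem_append.1 hx with h | h
      · exact hl1 x h
      · exact hm1 x h
    · exact List.mem_append.2 (Or.inl hx)
    · exact List.mem_append.2 (Or.inr hx)

/-- for club many `N`: `b t ∈ N` for all `t ∈ TmS N` -/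
theorem club_b (b : Tm X → X) : ∀ᶠ N in club X, ∀ t, TmS N t → b t ∈ N := by
  refine ⟨fun l => b '' {t | TmS {x | x ∈ l} t}, fun l => ?_, fun N _ hc t ht => ?_⟩
  · exact (countable_TmS (l.finite_toSet.countable)).image b
  · obtain ⟨l, hl1, hl2⟩ := TmS_fin ht
    exact hc l hl1 ⟨t, hl2, rfl⟩

private theorem NB_mem (z : Tm X → BSet (RO P)) {N : Set X} {t : Tm X} (ht : TmS N t) :
    bmem (z t) (NB z N) = ⊤ := by
  unfold NB
  rw [basic_bmem_mk]
  refine top_unique (le_iSup_of_le ⟨t, ht⟩ ?_)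
  rw [beq_refl, top_inf_eq]

private theorem NB_iInf (z : Tm X → BSet (RO P)) (N : Set X) {ψ : BSet (RO P) → RO P} (hψ : Ext ψ) :
    (⨅ x, bmem x (NB z N) ⇨ ψ x) = ⨅ t : {t : Tm X // TmS N t}, ψ (z t.1) := by
  rw [iInf_mem (NB z N) ψ hψ]
  refine iInf_congr fun t => ?_
  show (⊤ : RO P) ⇨ ψ (z t.1) = _
  rw [top_himp]

private theorem NB_frc {z : Tm X → BSet (RO P)} {N : Set X} {x : BSet (RO P)} {p : P}
    (h : p ∈ (bmem x (NB z N)).carrier) :
    ∀ q, q ≤ p → ∃ r, r ≤ q ∧ ∃ t, TmS N t ∧ r ∈ (beq x (z t)).carrier := by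
  unfold NB at h
  rw [basic_bmem_mk, RO.mem_iSup] at h
  intro q hq
  obtain ⟨r, hr, t, ht⟩ := h q hq
  exact ⟨r, hr, t.1, t.2, ht.2⟩

private theorem binOp_unique (Z Φ x y c d : BSet (RO P)) :
    Kb.BinOp Z Φ ⊓ (bmem x Z ⊓ (bmem y Z ⊓ (Kb.App2 Φ x y c ⊓ Kb.App2 Φ x y d))) ≤ beq c d := by
  have h1 : Kb.BinOp Z Φ ⊓ (bmem x Z ⊓ bmem y Z) ≤
      ⨆ c, bmem c Z ⊓ (⨅ d, iffB (Kb.App2 Φ x y d) (beq d c)) := by
    rw [← le_himp_iff]
    unfold Kb.BinOp
    refine (iInf_le _ x).trans ((iInf_le _ y).trans ?_)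
    rw [himp_himp, inf_comm]
  refine le_iff_ev.mpr (Filter.Eventually.of_forall fun U hU => ?_)
  simp only [Ult.inf'] at hU
  obtain ⟨h2, h3, h4, h5, h6⟩ := hU
  have h7 := U.mono h1 ((U.inf _ _).2 ⟨h2, (U.inf _ _).2 ⟨h3, h4⟩⟩)
  have hE : Ext (fun c : BSet (RO P) => bmem c Z ⊓ (⨅ d, iffB (Kb.App2 Φ x y d) (beq d c))) :=
    (ext_bmem_left Z).inf (Ext.iInf fun d => (ext_const _).iffB (ext_beq_right d))
  rw [los_iSup hE] at h7
  obtain ⟨e, he⟩ := h7
  rw [Ult.inf'] at he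
  have h8 := (U.iffB'.1 (ult_iInf_le he.2 c)).1 h5
  have h9 := (U.iffB'.1 (ult_iInf_le he.2 d)).1 h6
  exact ev_beq_trans h8 (ev_beq_symm h9)

private theorem exists_enum_NB {N : Set X} (hN : N.Countable) :
    ∃ T : X → Tm X, ∀ t, TmS N t → ∃ i, i < om X ∧ T i = t := by
  obtain ⟨e, he1, he2⟩ := exists_enum_om X
  have hne : {t : Tm X | TmS N t}.Nonempty := ⟨Tm.nm ⊥, bot_lt_om X⟩
  obtain ⟨f, hf⟩ := (countable_TmS hN).exists_eq_range hne
  classical
  refine ⟨fun i => if h : ∃ n, e n = i then f h.choose else Tm.nm ⊥, fun t ht => ?_⟩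
  have h1 : t ∈ range f := by rw [← hf]; exact ht
  obtain ⟨n, hn⟩ := h1
  refine ⟨e n, ?_, ?_⟩
  · have : e n ∈ Iio (om X) := by rw [← he2]; exact ⟨n, rfl⟩
    exact this
  · have h2 : ∃ m, e m = e n := ⟨n, rfl⟩
    show (if h : ∃ m, e m = e n then f h.choose else Tm.nm ⊥) = t
    rw [dif_pos h2, he1 h2.choose_spec, hn]

theorem NB_cl {hn : X → X → X → RO P} {Z h Φ : BSet (RO P)} {p : P} (hs : Str hn Z h Φ p)
    {z : Tm X → BSet (RO P)} (hz : Evl hn Z h Φ p z) {N : Set X} (hN : N.Countable) :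
    p ∈ (Kb.Sub (NB z N) Z).carrier ∧ p ∈ (Kb.Sub (chk (om X)) (NB z N)).carrier ∧
    p ∈ (Kc.Cov (chk (om X)) (NB z N)).carrier ∧
    p ∈ (⨅ x, ⨅ y, ⨅ z', bmem x (NB z N) ⇨ bmem y (NB z N) ⇨ Kb.App2 Φ x y z' ⇨
      bmem z' (NB z N)).carrier := by
  refine ⟨?_, ?_, ?_, ?_⟩
  · show p ∈ (⨅ x, bmem x (NB z N) ⇨ bmem x Z).carrier
    rw [NB_iInf z N (ext_bmem_left Z), RO.mem_iInf]
    exact fun t => hz.mem t.1
  · show p ∈ (⨅ x, bmem x (chk (om X)) ⇨ bmem x (NB z N)).carrier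
    rw [iInf_chk (om X) (ext_bmem_left (NB z N)), mem_iInf₂']
    intro i hi
    rw [← hz.nm i hi, NB_mem z (show TmS N (Tm.nm i) from hi)]
    exact RO.mem_top p
  · obtain ⟨T, hT⟩ := exists_enum_NB hN
    unfold Kc.Cov
    refine frc_mono (le_iSup _ (sB (Iio (om X)) (fun i => z (T i)))) ?_
    rw [RO.mem_inf, chk_eq (om X), FunOn_sB]
    refine ⟨RO.mem_top p, ?_⟩
    have hE : Ext (fun c : BSet (RO P) => ⨆ i, bmem i (cs (Iio (om X))) ⊓
        Kb.App (sB (Iio (om X)) (fun i => z (T i))) i c) :=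
      Ext.iSup fun i => (ext_const _).inf (Kb.ext_App_b _ i)
    rw [NB_iInf z N hE, RO.mem_iInf]
    intro t
    obtain ⟨i, hi, hit⟩ := hT t.1 t.2
    refine frc_mono (le_iSup _ (chk i)) ?_
    rw [bmem_chk_cs, App_sB_chk _ (show i ∈ Iio (om X) from hi), hit, beq_refl, inf_top_eq, frc_tv]
    exact hi
  · rw [RO.mem_iInf]
    intro x
    rw [RO.mem_iInf]
    intro y
    rw [RO.mem_iInf]
    intro z'
    rw [RO.mem_himp]
    intro q hq hx
    rw [RO.mem_himp]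
    intro q' hq' hy
    rw [RO.mem_himp]
    intro q'' hq'' ha
    refine frc_dense.2 fun r hr => ?_
    obtain ⟨r1, hr1, s, hs1, hs2⟩ := NB_frc hx r (hr.trans (hq''.trans hq'))
    obtain ⟨r2, hr2, t, ht1, ht2⟩ := NB_frc hy r1 (hr1.trans (hr.trans hq''))
    refine ⟨r2, hr2.trans hr1, ?_⟩
    have hp : r2 ≤ p := hr2.trans (hr1.trans (hr.trans (hq''.trans (hq'.trans hq))))
    have h1 : r2 ∈ (Kb.App2 Φ x y z').carrier := frc_down (hr2.trans (hr1.trans hr)) ha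
    have h2 : r2 ∈ (Kb.App2 Φ (z s) y z').carrier :=
      frc_ext (Kb.ext_App2_a Φ y z') (frc_down hr2 hs2) h1
    have h3 : r2 ∈ (Kb.App2 Φ (z s) (z t) z').carrier := frc_ext (Kb.ext_App2_b Φ (z s) z') ht2 h2
    have h4 : r2 ∈ (Kb.App2 Φ (z s) (z t) (z (Tm.op s t))).carrier := frc_down hp (hz.op s t)
    have h5 : r2 ∈ (beq z' (z (Tm.op s t))).carrier := by
      refine frc_mono (binOp_unique Z Φ (z s) (z t) z' (z (Tm.op s t))) ?_
      exact ⟨frc_down hp hs.bin, frc_down hp (hz.mem s), frc_down hp (hz.mem t), h3, h4⟩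
    refine frc_ext (ext_bmem_left (NB z N)) (x := z (Tm.op s t)) (y := z') ?_ ?_
    · rw [beq_symm]
      exact h5
    · rw [NB_mem z (show TmS N (Tm.op s t) from ⟨hs1, ht1⟩)]
      exact RO.mem_top _

end Pool.MP_d8f801_lc.SC
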