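import Pool.Agent.Lib.MP_d8f801_lc.SC.V.Hb
import Pool.Agent.Lib.MP_d8f801_lc.SC.V.Om

/-!
# SC/V: the values at the closure (module V-TrmC)

PROOF of `NB_val`: `Val h (NB z N) γ v = Val (hB hn) (cs N) γ v` below `p`, by `Val_hB`
(`≤`: `bmem_def` for `NB`, `z t ↦ b t ∈ N`, `FunOn_unique` (`Enum` contains `FunOn h Z`), `Kb.ext_App_f`; `≥`: `ξ ↦ z (of ξ)`,
`bmem_chk_cs`).
-/

set_option autoImplicit false

universe u

namespace Pool.MP_d8f801_lc.SC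

open Set Filter Pool.Agent.Lib.MP_4d8715_gt.KR BSet

variable {X : Type u} [Stg X] {P : Type u} [Preorder P]

private theorem trmc_le {B : Type u} [CompleteBooleanAlgebra B] {x y : B} (h : ∀ U : Ult B, U x → U y) : x ≤ y :=
  le_iff_ev.mpr (Filter.Eventually.of_forall h)

theorem NB_val {hn : X → X → X → RO P} {Z h Φ : BSet (RO P)} {p : P} (hs : Str hn Z h Φ p)
    {z : Tm X → BSet (RO P)} (hz : Evl hn Z h Φ p z) {b : Tm X → X}
    (hb : ∀ t, p ∈ (Kb.App h (z t) (fB (Iio (kk : X)) (hn (b t)))).carrier) {N : Set X}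
    (hN : ∀ t, TmS N t → b t ∈ N) :
    p ∈ (⨅ γ, ⨅ v, iffB (Kc.Val h (NB z N) γ v) (Kc.Val (hB hn) (cs N) γ v)).carrier := by
  classical
  obtain ⟨E, hE⟩ : ∃ E : RO P, E = Kb.FunOn h Z ⊓ ((⨅ t, Kb.App h (z t) (fB (Iio (kk : X)) (hn (b t)))) ⊓
    ⨅ ξ, Kb.App h (z (Tm.of ξ)) (fB (Iio (kk : X)) (hn ξ))) := ⟨_, rfl⟩
  have hpE : p ∈ E.carrier := by
    rw [hE, RO.mem_inf, RO.mem_inf]
    refine ⟨?_, RO.mem_iInf.2 hb, RO.mem_iInf.2 hz.of⟩
    have := hs.enum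
    unfold Kc.Enum at this
    rw [RO.mem_inf] at this
    exact this.1
  refine frc_mono (a := E) ?_ hpE
  refine le_iInf fun γ => le_iInf fun v => ?_
  rw [Val_hB]
  unfold iffB
  refine le_inf ?_ ?_
  · rw [le_himp_iff]
    unfold Kc.Val
    rw [inf_iSup_eq]
    refine iSup_le fun x => ?_
    rw [inf_iSup_eq]
    refine iSup_le fun f => ?_
    unfold NB
    rw [basic_bmem_mk, iSup_inf_eq, inf_iSup_eq]
    refine iSup_le fun t => ?_
    refine le_iSup_of_le (b t.1) ?_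
    refine trmc_le fun U hU => ?_
    rw [Ult.inf', Ult.inf', Ult.inf', Ult.inf'] at hU
    obtain ⟨h1, ⟨-, h2⟩, h3, h4⟩ := hU
    rw [hE, Ult.inf', Ult.inf'] at h1
    rw [Ult.inf', bmem_chk_cs, ult_tv]
    refine ⟨hN t.1 t.2, ?_⟩
    have h5 : U (Kb.App h (z t.1) (fB (Iio (kk : X)) (hn (b t.1)))) := ult_iInf_le h1.2.1 t.1
    have h6 : U (Kb.App h (z t.1) f) := by
      refine U.mono (Kb.ext_App_a h f x (z t.1)) ?_
      rw [Ult.inf']
      exact ⟨h2, h3⟩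
    have h7 : U (beq f (fB (Iio (kk : X)) (hn (b t.1)))) := by
      refine U.mono (FunOn_unique h Z (z t.1) f _) ?_
      rw [Ult.inf', Ult.inf']
      exact ⟨h1.1, h6, h5⟩
    refine U.mono (Kb.ext_App_f γ v f _) ?_
    rw [Ult.inf']
    exact ⟨h7, h4⟩
  · rw [le_himp_iff, inf_iSup_eq]
    refine iSup_le fun ξ => ?_
    refine trmc_le fun U hU => ?_
    rw [Ult.inf', Ult.inf', bmem_chk_cs, ult_tv] at hU
    obtain ⟨h1, h2, h3⟩ := hU
    rw [hE, Ult.inf', Ult.inf'] at h1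
    unfold Kc.Val
    refine ult_iSup_le (i := z (Tm.of ξ)) (ult_iSup_le (i := fB (Iio (kk : X)) (hn ξ)) ?_)
    rw [Ult.inf', Ult.inf']
    refine ⟨?_, ult_iInf_le h1.2.2 ξ, h3⟩
    unfold NB
    rw [basic_bmem_mk]
    refine ult_iSup_le (i := (⟨Tm.of ξ, h2⟩ : {t : Tm X // TmS N t})) ?_
    rw [Ult.inf']
    exact ⟨U.top, ev_beq_refl _ _⟩

end Pool.MP_d8f801_lc.SC
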