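import Pool.Agent.Lib.MP_d8f801_lc.SC.V.TrmA
import Pool.Agent.Lib.MP_d8f801_lc.SC.V.TrmB
import Pool.Agent.Lib.MP_d8f801_lc.SC.V.TrmC
import Pool.Agent.Lib.MP_d8f801_lc.SC.V.PresB
import Pool.Agent.Lib.MP_d8f801_lc.SC.V.Cng
import Pool.Agent.Lib.MP_d8f801_lc.SC.V.Can
import Pool.Agent.Lib.MP_d8f801_lc.SC.V.Dec

/-!
# SC/V: the negative results (module V-Neg)

PROOF of `club_bot`. Suppose `p` forces `Kc.Club A`. By `exists_canon` there are names `Z`, `h`, `Φ` with `Str hn Z h Φ p` and `p` forces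
`⨅ N, Cl (chk om) (chk w1) (chk ⊥) Z h Φ N ⇨ A (chk w1) (chk kk) (chk ⊥) h N`.
Take `z`, `b` from `exists_val`, `exists_b`. Take `N` in the clubs of `hA p`, `club_b b`, `club_cst`, `club_init`,
`N.Countable` (`club_clo`, `clubV_exists`), and `q ≤ p` with `Dec hn N q`. Then `q` forces `Cl .. (NB z N)`: `NB_cl`, and the
last clause by `NB_val` and `val0`: for `v < w1`, `q` forces `Val h (NB z N) 0 v` iff `v ∈ N`, and `Iio v ⊆ N` for `v ∈ N`. So `q`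
forces `A .. h (NB z N)`, hence `A .. (hB hn) (cs N)` by `hcong` and `NB_val`: contradiction.
-/

set_option autoImplicit false

universe u

namespace Pool.MP_d8f801_lc.SC

open Set Filter Pool.Agent.Lib.MP_4d8715_gt.KR BSet

variable {X : Type u} [Stg X] {P : Type u} [Preorder P]

theorem club_bot {hn : X → X → X → RO P} (hF : Frame P hn)
    (A : BSet (RO P) → BSet (RO P) → BSet (RO P) → BSet (RO P) → BSet (RO P) → RO P)
    (he1 : ∀ k e h N, Ext (fun o => A o k e h N)) (he2 : ∀ o e h N, Ext (fun k => A o k e h N))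
    (he3 : ∀ o k h N, Ext (fun e => A o k e h N)) (he4 : ∀ o k e N, Ext (fun h => A o k e h N))
    (he5 : ∀ o k e h, Ext (fun N => A o k e h N))
    (hcong : ∀ o k e h N h' N', (⨅ γ, ⨅ v, iffB (Kc.Val h N γ v) (Kc.Val h' N' γ v)) ⊓ A o k e h N ≤
      A o k e h' N')
    (hA : ∀ p : P, ∀ᶠ N in club X, CstCl hn N → ∃ q, q ≤ p ∧ Dec hn N q ∧
      q ∈ ((A (chk (w1 : X)) (chk (kk : X)) (chk (⊥ : X)) (hB hn) (cs N))ᶜ).carrier) :
    Kc.Club A = ⊥ := by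
  refine bot_unique fun p hp => ?_
  obtain ⟨Z, h, Φ, hs, hall⟩ := exists_canon hF A he1 he2 he3 he4 he5 hp
  obtain ⟨z, hz⟩ := exists_val hF hs
  obtain ⟨b, hb⟩ := exists_b hF hs hz
  obtain ⟨N, hN⟩ := clubV_exists (((hA p).and (club_b b)).and
    (((club_cst hF).and club_init).and (club_clo (X := X) (fun _ => ∅) fun _ => countable_empty)))
  obtain ⟨⟨n1, n2⟩, ⟨n3, n4⟩, n5, -⟩ := hN
  obtain ⟨q, hq, hd, hqA⟩ := n1 n3
  have hval := frc_down hq (NB_val hs hz hb n2)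
  have hV : ∀ γ v, ∀ r, r ≤ q → (r ∈ (Kc.Val h (NB z N) γ v).carrier ↔
      r ∈ (Kc.Val (hB hn) (cs N) γ v).carrier) := by
    intro γ v r hr
    exact frc_iff.1 (RO.mem_iInf.1 (RO.mem_iInf.1 hval γ) v) r hr
  obtain ⟨k1, k2, k3, k4⟩ := NB_cl hs hz n5
  have hcl : q ∈ (Kc.Cl (chk (om X)) (chk (w1 : X)) (chk (⊥ : X)) Z h Φ (NB z N)).carrier := by
    refine ⟨frc_down hq k1, frc_down hq k2, frc_down hq k3, frc_down hq k4, ?_⟩
    rw [RO.mem_iInf]
    intro v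
    rw [RO.mem_iInf]
    intro u
    rw [RO.mem_himp]
    intro q1 hq1 hv
    rw [RO.mem_himp]
    intro q2 hq2 hvv
    rw [RO.mem_himp]
    intro q3 hq3 huv
    rw [frc_dense]
    intro r hr
    have h1 := frc_down (hr.trans (hq3.trans hq2)) hv
    rw [bmem_chk', mem_iSup₂'] at h1
    obtain ⟨r1, hr1, y, hy, hvy⟩ := h1 r le_rfl
    have h2 : r1 ∈ (bmem u (chk y)).carrier :=
      frc_ext (ext_bmem_right u) hvy (frc_down (hr1.trans hr) huv)
    rw [bmem_chk', mem_iSup₂'] at h2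
    obtain ⟨r2, hr2, x, hx, hux⟩ := h2 r1 le_rfl
    have hr2q : r2 ≤ q := hr2.trans (hr1.trans (hr.trans (hq3.trans (hq2.trans hq1))))
    have h3 : r2 ∈ (Kc.Val h (NB z N) (chk (⊥ : X)) (chk y)).carrier :=
      frc_ext (Kc.ext_Val_v h (NB z N) (chk (⊥ : X))) (frc_down hr2 hvy)
        (frc_down (hr2.trans (hr1.trans (hr.trans hq3))) hvv)
    rw [hV _ _ _ hr2q] at h3
    have hdr : Dec hn N r2 := fun ξ hξ => by
      obtain ⟨v, hv, hv2⟩ := hd ξ hξ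
      exact ⟨v, hv, frc_down hr2q hv2⟩
    have hyk : y < kk := lt_trans hy (w1_lt_kk X)
    have hyN : y ∈ N := by
      by_contra hcon
      exact frc_absurd h3 ((val0 hF n3 hdr hyk).2 hcon)
    have hxN : x ∈ N := n4 y hyN hy hx
    have h4 := (val0 hF n3 hdr (lt_trans hx hyk)).1 hxN
    rw [← hV _ _ _ hr2q] at h4
    refine ⟨r2, hr2.trans hr1, ?_⟩
    refine frc_ext (Kc.ext_Val_v h (NB z N) (chk (⊥ : X))) ?_ h4
    rw [beq_symm]
    exact hux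
  have hAq : q ∈ (A (chk (w1 : X)) (chk (kk : X)) (chk (⊥ : X)) h (NB z N)).carrier :=
    RO.mem_himp.1 (RO.mem_iInf.1 hall (NB z N)) q hq hcl
  have hAq' : q ∈ (A (chk (w1 : X)) (chk (kk : X)) (chk (⊥ : X)) (hB hn) (cs N)).carrier :=
    hcong _ _ _ h (NB z N) (hB hn) (cs N) (RO.mem_inf.2 ⟨hval, hAq⟩)
  exact (frc_absurd hAq' hqA).elim

theorem club_not_cof {hn : X → X → X → RO P} (hF : Frame P hn) (hp : NegCof hn) :
    Kc.Club (B := RO P) Kc.AtCof = ⊥ := by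
  refine club_bot hF _ Kc.ext_AtCof_o Kc.ext_AtCof_k Kc.ext_AtCof_e Kc.ext_AtCof_h Kc.ext_AtCof_N
    AtCof_congr fun p => ?_
  filter_upwards [hp p] with N h1 h2
  obtain ⟨q, hq, hd, h3⟩ := h1
  exact ⟨q, hq, hd, not_atCof hF h2 hd h3⟩

theorem club_not_split {hn : X → X → X → RO P} (hF : Frame P hn) (hp : NegSplit hn) :
    Kc.Club (B := RO P) Kc.AtSplit = ⊥ := by
  refine club_bot hF _ Kc.ext_AtSplit_o Kc.ext_AtSplit_k Kc.ext_AtSplit_e Kc.ext_AtSplit_h Kc.ext_AtSplit_N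
    AtSplit_congr fun p => ?_
  filter_upwards [hp p] with N h1 h2
  obtain ⟨q, hq, hd, h3⟩ := h1
  exact ⟨q, hq, hd, not_atSplit hF h2 hd h3⟩

end Pool.MP_d8f801_lc.SC
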