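import Pool.Agent.Lib.MP_d8f801_lc.SC.V.Pos
import Pool.Agent.Lib.MP_d8f801_lc.SC.V.Neg
import Pool.Agent.Lib.MP_4d8715_gt.KR.Z.Main

/-!
# SC/V: the evaluation in the Boolean-valued model (top-level statements)
-/

set_option autoImplicit false

universe u

namespace Pool.MP_d8f801_lc.SC

open Cardinal Set Filter Pool.Agent.Lib.MP_4d8715_gt.KR

variable {X : Type u} [Stg X] {P : Type u} [Preorder P]

theorem bv_fSCC {hn : X → X → X → RO P} (h : Frame P hn) (hp : PosScc hn) :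
    Fml.bv fSCC (![] : Fin 0 → BSet (RO P)) = ⊤ := by
  rw [bvc_fSCC, club_scc h hp]

theorem bv_fSCCsplit {hn : X → X → X → RO P} (h : Frame P hn) (hp : PosSplit hn) :
    Fml.bv fSCCsplit (![] : Fin 0 → BSet (RO P)) = ⊤ := by
  rw [bvc_fSCCsplit, club_split h hp]

theorem bv_not_fSCCcof {hn : X → X → X → RO P} (h : Frame P hn) (hp : NegCof hn) :
    Fml.bv (Fml.neg fSCCcof) (![] : Fin 0 → BSet (RO P)) = ⊤ := by
  rw [Fml.bv_neg, bvc_fSCCcof, club_not_cof h hp, compl_bot]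

theorem bv_not_fSCCsplit {hn : X → X → X → RO P} (h : Frame P hn) (hp : NegSplit hn) :
    Fml.bv (Fml.neg fSCCsplit) (![] : Fin 0 → BSet (RO P)) = ⊤ := by
  rw [Fml.bv_neg, bvc_fSCCsplit, club_not_split h hp, compl_bot]

end Pool.MP_d8f801_lc.SC
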