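import Pool.Agent.Lib.MP_d8f801_lc.SC.V.FunB

/-!
# SC/V: the enumeration of the functions from `κ` to `κ` (module V-Hb)

PROOFS. `Enum_hB`: `FunOn_sB`; `App (hB hn) ξ f` is `⨆ ξ₀, beq ξ (chk ξ₀) ⊓ beq f (fB (Iio kk) (hn ξ₀))` (`App_sB`) and
`FunTo_fB` with `Frame.fn`; onto: `exists_fB (Iio kk) (Iio kk)` gives `l` with `IsFnK l`, hence `hn ξ = l` for some
`ξ` (`Frame.onto`) (`chk_eq : chk kk = cs (Iio kk)`). `Val_hB`: `App_sB`, `Kb.ext_App_f`, `iSup_beq`-like.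
-/

set_option autoImplicit false

universe u

namespace Pool.MP_d8f801_lc.SC

open Set Pool.Agent.Lib.MP_4d8715_gt.KR BSet

variable {X : Type u} [Stg X]

section

variable {B : Type u} [CompleteBooleanAlgebra B]

/-- the value of `Val` for arbitrary `N`, `γ`, `v` -/
theorem Val_hB (hn : X → X → X → B) (N γ v : BSet B) :
    Kc.Val (hB hn) N γ v = ⨆ ξ : X, bmem (chk ξ) N ⊓ Kb.App (fB (Iio (kk : X)) (hn ξ)) γ v := by
  unfold Kc.Val hB
  refine le_antisymm (iSup_le fun ξ => iSup_le fun f => ?_) (iSup_le fun i => ?_)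
  · rw [App_sB, iSup_inf_eq, inf_iSup_eq]
    refine iSup_le fun i => ?_
    rw [iSup_inf_eq, inf_iSup_eq]
    refine iSup_le fun _ => le_trans ?_ (le_iSup _ i)
    refine le_iff_ev.mpr (Filter.Eventually.of_forall fun U hU => ?_)
    rw [Ult.inf', Ult.inf', Ult.inf'] at hU
    obtain ⟨h1, ⟨h2, h3⟩, h4⟩ := hU
    rw [Ult.inf']
    refine ⟨ev_bmem_left h2 h1, ?_⟩
    exact U.mono (Kb.ext_App_f γ v f (fB (Iio (kk : X)) (hn i))) (U.inf'.mpr ⟨h3, h4⟩)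
  · refine le_iSup_of_le (chk i) (le_iSup_of_le (fB (Iio (kk : X)) (hn i)) ?_)
    rw [App_sB_chk _ (mem_univ i), beq_refl, top_inf_eq]

end

variable {P : Type u} [Preorder P]

theorem IsFnK.isFnS {l : X → X → RO P} (h : IsFnK l) : IsFnS (Iio (kk : X)) l :=
  ⟨fun i hi => h.tot i hi, fun i _ v v' hv => h.disj i v v' hv⟩

private theorem Hb_funTo {l : X → X → RO P} (h : IsFnK l) :
    Kb.FunTo (fB (Iio (kk : X)) l) (cs (Iio (kk : X))) (cs (Iio (kk : X))) = ⊤ :=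
  FunTo_fB h.isFnS fun i _ v hv => h.bd i v fun hc => hv hc.2

theorem Enum_hB {hn : X → X → X → RO P} (h : Frame P hn) :
    Kc.Enum (chk (kk : X)) (cs (univ : Set X)) (hB hn) = ⊤ := by
  unfold Kc.Enum
  rw [chk_eq]
  have h1 : Kb.FunOn (hB hn) (cs (univ : Set X)) = ⊤ := FunOn_sB _ _
  have h2 : (⨅ ξ, ⨅ f, Kb.App (hB hn) ξ f ⇨ Kb.FunTo f (cs (Iio (kk : X))) (cs (Iio (kk : X)))) = ⊤ := by
    refine iInf_eq_top.mpr fun ξ => iInf_eq_top.mpr fun f => ?_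
    rw [himp_eq_top_iff]
    unfold hB
    rw [App_sB]
    refine iSup_le fun i => iSup_le fun _ => inf_le_right.trans ?_
    have h3 := Kb.ext_FunTo_f (cs (Iio (kk : X))) (cs (Iio (kk : X))) (fB (Iio (kk : X)) (hn i)) f
    simp only [] at h3
    rw [Hb_funTo (h.fn i), inf_top_eq, beq_symm] at h3
    exact h3
  have h3 : (⨅ f, Kb.FunTo f (cs (Iio (kk : X))) (cs (Iio (kk : X))) ⇨
      (⨆ ξ, bmem ξ (cs (univ : Set X)) ⊓ Kb.App (hB hn) ξ f)) = ⊤ := by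
    refine iInf_eq_top.mpr fun f => ?_
    rw [himp_eq_top_iff]
    obtain ⟨l, hl1, hl2, hl3, hl4⟩ := exists_fB (Iio (kk : X)) (Iio (kk : X)) ⟨w1, Stg.w1_lt⟩ f
    have hl : IsFnK l := by
      refine ⟨fun ν v hv => ?_, fun ν hν => hl1.tot ν hν, fun ν v v' hv => ?_⟩
      · by_cases hν : ν < kk
        · exact hl2 ν hν v fun hc => hv ⟨hν, hc⟩
        · exact hl3 ν hν v
      · by_cases hν : ν < kk
        · exact hl1.disj ν hν v v' hv
        · rw [hl3 ν hν v, bot_inf_eq]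
    obtain ⟨ξ, hξ⟩ := h.onto l hl
    refine hl4.trans (le_iSup_of_le (chk ξ) ?_)
    unfold hB
    rw [App_sB_chk _ (mem_univ ξ), bmem_chk_cs, hξ]
    unfold tv
    rw [iSup_pos (mem_univ ξ), top_inf_eq]
  rw [h1, h2, h3, top_inf_eq, top_inf_eq]

/-- the value of `Val` for ground model `N`, `γ`, `v` -/
theorem Val_chk {hn : X → X → X → RO P} (h : Frame P hn) (N : Set X) (γ v : X) :
    Kc.Val (hB hn) (cs N) (chk γ) (chk v) = ⨆ ξ : X, ⨆ _ : ξ ∈ N, hn ξ γ v := by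
  rw [Val_hB]
  refine iSup_congr fun ξ => ?_
  have h1 : Kb.App (fB (Iio (kk : X)) (hn ξ)) (chk γ) (chk v) = hn ξ γ v := by
    by_cases hγ : γ < kk
    · exact App_fB_chk (S := Iio (kk : X)) (hn ξ) (mem_Iio.mpr hγ) v
    · rw [(h.fn ξ).bd γ v fun hc => hγ hc.1, App_fB]
      refine iSup_eq_bot.mpr fun i => iSup_eq_bot.mpr fun hi => iSup_eq_bot.mpr fun v' => ?_
      rw [beq_chk]
      unfold tv
      rw [iSup_neg (fun hc : γ = i => hγ (hc ▸ hi)), bot_inf_eq]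
  rw [h1, bmem_chk_cs]
  unfold tv
  rw [iSup_inf_eq]
  simp only [top_inf_eq]

/-- all values of `Val` are less than `κ` -/
theorem Val_le {hn : X → X → X → RO P} (h : Frame P hn) (N γ a : BSet (RO P)) :
    Kc.Val (hB hn) N γ a ≤ bmem a (chk (kk : X)) := by
  rw [Val_hB]
  refine iSup_le fun ξ => inf_le_right.trans ?_
  have h1 := Hb_funTo (h.fn ξ)
  unfold Kb.FunTo at h1
  have h2 := (inf_eq_top_iff.mp h1).2
  have h3 := iInf_eq_top.mp (iInf_eq_top.mp h2 γ) a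
  rw [himp_eq_top_iff] at h3
  rw [chk_eq]
  exact h3

end Pool.MP_d8f801_lc.SC
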