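import Pool.Agent.Lib.MP_d8f801_lc.SC.V.FunB

/-!
# SC/V: names of binary operations on `X` (module V-Op)

PROOFS: `Kb.App2_eq`, `beq_opair`, `beq_chk`; `Kb.BinOp`: `iInf_cs` twice; the value of
`∃ c (c ∈ X ∧ ∀ d (App2 f a b d ↔ d = c))` is at least `φ a b z` for every `z` and `⨆ z, φ a b z = ⊤`.
-/

set_option autoImplicit false

universe u

namespace Pool.MP_d8f801_lc.SC

open Set Pool.Agent.Lib.MP_4d8715_gt.KR BSet

variable {B : Type u} [CompleteBooleanAlgebra B] {X : Type u} [LinearOrder X] [WellFoundedLT X]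

private theorem tv_true' {p : Prop} (h : p) : tv B p = ⊤ := by
  unfold tv
  exact iSup_pos h

private theorem tv_false' {p : Prop} (h : ¬ p) : tv B p = ⊥ := by
  unfold tv
  exact iSup_neg h

private theorem opB_left (φ : X → X → X → B) (x y : X) (d : BSet B) :
    Kb.App2 (opB φ) (chk x) (chk y) d = ⨆ z : X, beq d (chk z) ⊓ φ x y z := by
  rw [Kb.App2_eq]
  unfold opB
  rw [basic_bmem_mk]
  refine le_antisymm (iSup_le ?_) (iSup_le fun z => ?_)
  · rintro ⟨x', y', z⟩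
    show φ x' y' z ⊓ beq (opair (opair (chk x) (chk y)) d) (opair (opair (chk x') (chk y')) (chk z)) ≤ _
    rw [beq_opair, beq_opair, beq_chk, beq_chk]
    by_cases h1 : x = x'
    · by_cases h2 : y = y'
      · subst h1
        subst h2
        refine le_iSup_of_le z (le_inf (inf_le_right.trans inf_le_right) inf_le_left)
      · rw [tv_false' h2, inf_bot_eq, bot_inf_eq, inf_bot_eq]
        exact bot_le
    · rw [tv_false' h1, bot_inf_eq, bot_inf_eq, inf_bot_eq]
      exact bot_le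
  · refine le_iSup_of_le (x, y, z) ?_
    show _ ≤ φ x y z ⊓ beq (opair (opair (chk x) (chk y)) d) (opair (opair (chk x) (chk y)) (chk z))
    rw [beq_opair, beq_refl, top_inf_eq, inf_comm]

theorem App2_opB (φ : X → X → X → B) (x y z : X) : Kb.App2 (opB φ) (chk x) (chk y) (chk z) = φ x y z := by
  rw [opB_left]
  refine le_antisymm (iSup_le fun z' => ?_) (le_iSup_of_le z ?_)
  · rw [beq_chk]
    by_cases h : z = z'
    · subst h
      exact inf_le_right
    · rw [tv_false' h, bot_inf_eq]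
      exact bot_le
  · rw [beq_refl, top_inf_eq]

theorem App2_opB_left (φ : X → X → X → B) (x y : X) (d : BSet B) :
    Kb.App2 (opB φ) (chk x) (chk y) d = ⨆ z : X, beq d (chk z) ⊓ φ x y z := opB_left φ x y d

private theorem opB_val {φ : X → X → X → B} (h2 : ∀ x y z z', z ≠ z' → φ x y z ⊓ φ x y z' = ⊥)
    (x y z : X) (d : BSet B) :
    φ x y z ≤ iffB (Kb.App2 (opB φ) (chk x) (chk y) d) (beq d (chk z)) := by
  rw [opB_left]
  unfold iffB
  refine le_inf ?_ ?_
  · rw [le_himp_iff, inf_iSup_eq]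
    refine iSup_le fun z' => ?_
    by_cases h : z = z'
    · subst h
      exact inf_le_right.trans inf_le_left
    · have h3 : φ x y z ⊓ (beq d (chk z') ⊓ φ x y z') ≤ φ x y z ⊓ φ x y z' :=
        inf_le_inf_left _ inf_le_right
      refine h3.trans ?_
      rw [h2 x y z z' h]
      exact bot_le
  · rw [le_himp_iff]
    exact le_iSup_of_le z (le_inf inf_le_right inf_le_left)

private theorem opB_val' {φ : X → X → X → B} (h2 : ∀ x y z z', z ≠ z' → φ x y z ⊓ φ x y z' = ⊥)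
    (x y z : X) (a b d : BSet B) :
    (beq a (chk x) ⊓ beq b (chk y)) ⊓ φ x y z ≤ iffB (Kb.App2 (opB φ) a b d) (beq d (chk z)) := by
  refine le_iff_ev.mpr (Filter.Eventually.of_forall fun U hU => ?_)
  rw [Ult.inf', Ult.inf'] at hU
  obtain ⟨⟨ha, hb⟩, hz⟩ := hU
  have h3 := (U.iffB').mp (U.mono (opB_val h2 x y z d) hz)
  have h4 : ∀ a' b' : BSet B, U (beq a a') → U (beq b b') →
      U (Kb.App2 (opB φ) a b d) → U (Kb.App2 (opB φ) a' b' d) := by
    intro a' b' h5 h6 h7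
    have h8 : U (Kb.App2 (opB φ) a' b d) :=
      U.mono (Kb.ext_App2_a (opB φ) b d a a') ((U.inf _ _).mpr ⟨h5, h7⟩)
    exact U.mono (Kb.ext_App2_b (opB φ) a' d b b') ((U.inf _ _).mpr ⟨h6, h8⟩)
  have h4' : ∀ a' b' : BSet B, U (beq a a') → U (beq b b') →
      U (Kb.App2 (opB φ) a' b' d) → U (Kb.App2 (opB φ) a b d) := by
    intro a' b' h5 h6 h7
    have h8 : U (Kb.App2 (opB φ) a b' d) :=
      U.mono (Kb.ext_App2_a (opB φ) b' d a' a) ((U.inf _ _).mpr ⟨ev_beq_symm h5, h7⟩)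
    exact U.mono (Kb.ext_App2_b (opB φ) a d b' b) ((U.inf _ _).mpr ⟨ev_beq_symm h6, h8⟩)
  rw [Ult.iffB']
  exact ⟨fun h => h3.mp (h4 _ _ ha hb h), fun h => h4' _ _ ha hb (h3.mpr h)⟩

theorem BinOp_opB {φ : X → X → X → B} (h1 : ∀ x y, ⨆ z, φ x y z = ⊤)
    (h2 : ∀ x y z z', z ≠ z' → φ x y z ⊓ φ x y z' = ⊥) : Kb.BinOp (cs (univ : Set X)) (opB φ) = ⊤ := by
  unfold Kb.BinOp
  refine iInf_eq_top.mpr fun a => iInf_eq_top.mpr fun b => ?_
  rw [himp_eq_top_iff, le_himp_iff, bmem_cs, bmem_cs, iSup_inf_eq]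
  refine iSup_le fun x => ?_
  rw [iSup_inf_eq]
  refine iSup_le fun _ => ?_
  rw [inf_iSup_eq]
  refine iSup_le fun y => ?_
  rw [inf_iSup_eq]
  refine iSup_le fun _ => ?_
  have h3 : beq a (chk x) ⊓ beq b (chk y) ≤ ⨆ z, (beq a (chk x) ⊓ beq b (chk y)) ⊓ φ x y z := by
    rw [← inf_iSup_eq, h1, inf_top_eq]
  refine h3.trans (iSup_le fun z => le_iSup_of_le (chk z) (le_inf ?_ ?_))
  · rw [bmem_chk_cs, tv_true' (mem_univ z)]
    exact le_top
  · exact le_iInf fun d => opB_val' h2 x y z a b d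

end Pool.MP_d8f801_lc.SC
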