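import Pool.Agent.Lib.MP_d8f801_lc.SC.V.Hb
import Pool.Agent.Lib.MP_d8f801_lc.SC.V.Clb

/-!
# SC/V: the instances of the principles for ground model `N` (module V-PresA)

Everything follows from `Val_chk`, `Val_le` (for arbitrary elements of the extension: `iInf_chk`, `iSup_chk`,
`mem_iSup₂'`, `mem_iInf₂'`), and the definitions `Pre1`, `Dec`. PROOFS.
`club_cst`: `Frame.onto` gives for `v < kk` a code of the constant function; `club_clo`.
`val0`: `Val_chk`; two different values at `⊥` are incompatible by `Frame.fn`.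
`pres_iff`: `Pres` says for `v < w1` (`iInf_chk`): `Val γ v ↔ Val 0 v`; for `v ∈ N`
both are forced (constant functions), for `v ∉ N` the right-hand side is `⊥` below `q`.
`atScc`: take `γ`; `Val 0 γ` is forced false by `val0`. `atSplit`: clear from `Val_chk`.
-/

set_option autoImplicit false

universe u

namespace Pool.MP_d8f801_lc.SC

open Set Filter Pool.Agent.Lib.MP_4d8715_gt.KR BSet

variable {X : Type u} [Stg X] {P : Type u} [Preorder P]

theorem club_cst {hn : X → X → X → RO P} (h : Frame P hn) : ∀ᶠ N in club X, CstCl hn N := by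
  classical
  have h1 : ∀ v : X, ∃ ξ : X, v < kk → ∀ ν, ν < kk → hn ξ ν v = ⊤ := by
    intro v
    by_cases hv : v < kk
    · have hl : IsFnK (P := P) (fun ν v' : X => if ν < kk ∧ v' = v then ⊤ else ⊥) := by
        refine ⟨?_, ?_, ?_⟩
        · intro ν v' hh
          refine if_neg fun h2 => hh ⟨h2.1, ?_⟩
          rw [h2.2]
          exact hv
        · intro ν hν
          refine top_unique (le_iSup_of_le v ?_)
          rw [if_pos ⟨hν, rfl⟩]
        · intro ν v' v'' hne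
          by_cases h2 : v' = v
          · have h3 : ¬ (ν < kk ∧ v'' = v) := fun h4 => hne (h2.trans h4.2.symm)
            rw [if_neg h3, inf_bot_eq]
          · have h3 : ¬ (ν < kk ∧ v' = v) := fun h4 => h2 h4.2
            rw [if_neg h3, bot_inf_eq]
      obtain ⟨ξ, hξ⟩ := h.onto _ hl
      refine ⟨ξ, fun _ ν hν => ?_⟩
      rw [hξ]
      exact if_pos ⟨hν, rfl⟩
    · exact ⟨v, fun hh => absurd hh hv⟩
  choose c hc using h1
  refine (club_clo (fun l : List X => c '' {v | v ∈ l})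
    (fun l => (List.finite_toSet l).countable.image c)).mono ?_
  rintro N ⟨-, hN⟩ v hv hvk
  refine ⟨c v, hN [v] (fun x hx => ?_) ⟨v, by simp, rfl⟩, hc v hvk⟩
  rw [List.mem_singleton] at hx
  rw [hx]
  exact hv

private theorem PresA_bot : (⊥ : X) < kk := lt_of_le_of_lt bot_le Stg.w1_lt

private theorem PresA_mem {hn : X → X → X → RO P} (h : Frame P hn) {N : Set X} {γ v ξ : X} {q : P}
    (hξ : ξ ∈ N) (hq : q ∈ (hn ξ γ v).carrier) :
    q ∈ (Kc.Val (hB hn) (cs N) (chk γ) (chk v)).carrier := by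
  rw [Val_chk h]
  have h1 : hn ξ γ v ≤ ⨆ ξ : X, ⨆ _ : ξ ∈ N, hn ξ γ v := le_iSup₂ (f := fun ξ (_ : ξ ∈ N) => hn ξ γ v) ξ hξ
  exact frc_mono h1 hq

private theorem PresA_not {hn : X → X → X → RO P} (h : Frame P hn) {N : Set X} {γ v : X} {q : P}
    (hq : ∀ ξ ∈ N, q ∈ ((hn ξ γ v)ᶜ).carrier) :
    q ∈ ((Kc.Val (hB hn) (cs N) (chk γ) (chk v))ᶜ).carrier := by
  rw [Val_chk h, RO.mem_compl]
  intro r hr hmem
  rw [mem_iSup₂'] at hmem
  obtain ⟨s, hs, ξ, hξ, hsξ⟩ := hmem r le_rfl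
  exact RO.mem_compl.1 (hq ξ hξ) s (hs.trans hr) hsξ

theorem val0 {hn : X → X → X → RO P} (h : Frame P hn) {N : Set X} (hc : CstCl hn N) {q : P} (hd : Dec hn N q)
    {v : X} (hv : v < kk) :
    (v ∈ N → q ∈ (Kc.Val (hB hn) (cs N) (chk (⊥ : X)) (chk v)).carrier) ∧
      (v ∉ N → q ∈ ((Kc.Val (hB hn) (cs N) (chk (⊥ : X)) (chk v))ᶜ).carrier) := by
  constructor
  · intro hvN
    obtain ⟨ξ, hξ, hξv⟩ := hc v hvN hv
    refine PresA_mem h hξ ?_
    rw [hξv ⊥ PresA_bot]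
    exact RO.mem_top q
  · intro hvN
    refine PresA_not h fun ξ hξ => ?_
    obtain ⟨v', hv', hq⟩ := hd ξ hξ
    rw [RO.mem_compl]
    intro r hr hrv
    have hne : v ≠ v' := fun e => hvN (e ▸ hv')
    have h1 := (h.fn ξ).disj ⊥ v v' hne
    have h2 : r ∈ (hn ξ ⊥ v ⊓ hn ξ ⊥ v').carrier := RO.mem_inf.2 ⟨hrv, frc_down hr hq⟩
    rw [h1] at h2
    exact RO.mem_bot r h2

theorem pres_iff {hn : X → X → X → RO P} (h : Frame P hn) {N : Set X} (hc : CstCl hn N) {q : P} (hd : Dec hn N q)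
    {γ : X} (hγ : γ < kk) :
    q ∈ (Kc.Pres (chk (w1 : X)) (chk (⊥ : X)) (hB hn) (cs N) (chk γ)).carrier ↔ Pre1 hn N γ q := by
  have h0 : Kc.Pres (chk (w1 : X)) (chk (⊥ : X)) (hB hn) (cs N) (chk γ) =
      ⨅ y : X, ⨅ _ : y ∈ Iio (w1 : X), iffB (Kc.Val (hB hn) (cs N) (chk γ) (chk y))
        (Kc.Val (hB hn) (cs N) (chk (⊥ : X)) (chk y)) := by
    unfold Kc.Pres
    exact iInf_chk (w1 : X) ((Kc.ext_Val_v _ _ _).iffB (Kc.ext_Val_v _ _ _))
  rw [h0, mem_iInf₂']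
  have hlt : ∀ v : X, v < w1 → v < kk := fun v hv => hv.trans Stg.w1_lt
  constructor
  · intro hp
    refine ⟨hγ, fun ξ hξ v hv hvN => ?_⟩
    rw [RO.mem_compl]
    intro r hr hrv
    have h1 := frc_iff.1 (hp v hv) r hr
    have h2 := h1.1 (PresA_mem h hξ hrv)
    exact RO.mem_compl.1 ((val0 h hc hd (hlt v hv)).2 hvN) r hr h2
  · rintro ⟨-, hp⟩ v hv
    rw [frc_iff]
    intro r hr
    by_cases hvN : v ∈ N
    · refine ⟨fun _ => frc_down hr ((val0 h hc hd (hlt v hv)).1 hvN), fun _ => ?_⟩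
      obtain ⟨ξ, hξ, hξv⟩ := hc v hvN (hlt v hv)
      refine PresA_mem h hξ ?_
      rw [hξv γ hγ]
      exact RO.mem_top r
    · constructor
      · intro h1
        exact absurd h1 (RO.mem_compl.1 (PresA_not h fun ξ hξ => hp ξ hξ v hv hvN) r hr)
      · intro h1
        exact absurd h1 (RO.mem_compl.1 ((val0 h hc hd (hlt v hv)).2 hvN) r hr)

theorem atScc {hn : X → X → X → RO P} (h : Frame P hn) {N : Set X} (hc : CstCl hn N) {q : P} (hd : Dec hn N q)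
    {γ : X} (hγ : γ ∉ N) (hp : Pre1 hn N γ q) :
    q ∈ (Kc.AtScc (chk (w1 : X)) (chk (kk : X)) (chk (⊥ : X)) (hB hn) (cs N)).carrier := by
  unfold Kc.AtScc
  refine frc_mono (le_iSup _ (chk γ)) ?_
  rw [RO.mem_inf, RO.mem_inf, bmem_chk, frc_tv]
  exact ⟨hp.1, (val0 h hc hd hp.1).2 hγ, (pres_iff h hc hd hp.1).2 hp⟩

theorem atSplit {hn : X → X → X → RO P} (h : Frame P hn) {N : Set X} (hc : CstCl hn N) {q : P} (hd : Dec hn N q)
    {γ γ' : X} (hp : Pre1 hn N γ q) (hp' : Pre1 hn N γ' q)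
    (h1 : ∃ ξ ∈ N, ∃ v, q ∈ (hn ξ γ v).carrier ∧ ∀ ξ' ∈ N, q ∈ ((hn ξ' γ' v)ᶜ).carrier)
    (h2 : ∃ ξ ∈ N, ∃ v, q ∈ (hn ξ γ' v).carrier ∧ ∀ ξ' ∈ N, q ∈ ((hn ξ' γ v)ᶜ).carrier) :
    q ∈ (Kc.AtSplit (chk (w1 : X)) (chk (kk : X)) (chk (⊥ : X)) (hB hn) (cs N)).carrier := by
  unfold Kc.AtSplit
  refine frc_mono (le_iSup_of_le (chk γ) (le_iSup _ (chk γ'))) ?_
  rw [RO.mem_inf, RO.mem_inf, RO.mem_inf, RO.mem_inf, RO.mem_inf, bmem_chk, bmem_chk, frc_tv, frc_tv]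
  refine ⟨hp.1, hp'.1, (pres_iff h hc hd hp.1).2 hp, (pres_iff h hc hd hp'.1).2 hp', ?_, ?_⟩
  · obtain ⟨ξ, hξ, v, hv, hv'⟩ := h1
    refine frc_mono (le_iSup _ (chk v)) ?_
    rw [RO.mem_inf]
    exact ⟨PresA_mem h hξ hv, PresA_not h hv'⟩
  · obtain ⟨ξ, hξ, v, hv, hv'⟩ := h2
    refine frc_mono (le_iSup _ (chk v)) ?_
    rw [RO.mem_inf]
    exact ⟨PresA_mem h hξ hv, PresA_not h hv'⟩

end Pool.MP_d8f801_lc.SC
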