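import Pool.Agent.Lib.MP_d8f801_lc.SC.V.Dec
import Pool.Agent.Lib.MP_d8f801_lc.SC.V.Op
import Pool.Agent.Lib.MP_d8f801_lc.SC.V.W1
import Pool.Agent.Lib.MP_d8f801_lc.SC.V.Kk
import Pool.Agent.Lib.MP_d8f801_lc.SC.V.PresA
import Pool.Agent.Lib.MP_d8f801_lc.SC.V.Cod

/-!
# SC/V: the positive results (module V-Pos)

PROOF of `club_top`. Let `F` be the function of the club in `hA` (combined with `club_clo`, ...), `Φ` from `exists_code F`,
`φ x y z = tv (z = z')` if `Φ x y = inl z'` and `φ x y z = hn ξ ⊥ z` if `Φ x y = inr ξ`. The witnesses are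
`w = chk om`, `o = chk w1`, `k = chk kk`, `e = chk ⊥`, `Z = cs univ`, `h = hB hn`, `Φ = opB φ` (`Omega_om`, `Omega1_w1`,
`Omega2_kk`, `chk_bot`, `Enum_hB`, `BinOp_opB`; `Sub w Z`: `chk_eq`). It remains that `Cl .. N ≤ A .. N` for every name `N`.
By `frc_dense` it is enough: for `p` which forces `Cl .. N` there is `q ≤ p` which forces `A .. N`. Take `q ≤ p` and `N0` from
`decide_set`, `q' ≤ q` from `decide_vals`. Then `Iio om ⊆ N0`, `N0` is closed under `Φ` (if `x, y ∈ N0` and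
`Φ x y = inl z` then `q'` forces `App2 (opB φ) x y z`, so `z ∈ N`), hence `Clo F N0`, and for `ξ ∈ N0` there are `x, y ∈ N0` with
`Φ x y = inr ξ`, `q'` forces `hn ξ ⊥ v` for some `v`, so it forces `v ∈ N`, and `v ∈ N0`: this is `Dec hn N0 q'`. Apply `hA`.
-/

set_option autoImplicit false

universe u

namespace Pool.MP_d8f801_lc.SC

open Set Filter Pool.Agent.Lib.MP_4d8715_gt.KR BSet

variable {X : Type u} [Stg X] {P : Type u} [Preorder P]

theorem club_top {hn : X → X → X → RO P} (h : Frame P hn)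
    (A : BSet (RO P) → BSet (RO P) → BSet (RO P) → BSet (RO P) → BSet (RO P) → RO P)
    (hext : ∀ o k e h, Ext (A o k e h))
    (hA : ∀ᶠ N in club X, ∀ p, Dec hn N p →
      ∃ q, q ≤ p ∧ q ∈ (A (chk (w1 : X)) (chk (kk : X)) (chk (⊥ : X)) (hB hn) (cs N)).carrier) :
    Kc.Club A = ⊤ := by
  obtain ⟨F, hF, hQ⟩ := hA
  obtain ⟨Φ, hΦ⟩ := exists_code F hF
  obtain ⟨φ, hφ⟩ : ∃ φ : X → X → X → RO P, φ = fun x y z =>
      Sum.elim (fun z' => tv (RO P) (z = z')) (fun ξ => hn ξ ⊥ z) (Φ x y) := ⟨_, rfl⟩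
  have hφl : ∀ x y z z', Φ x y = Sum.inl z' → φ x y z = tv (RO P) (z = z') := by
    intro x y z z' hz
    rw [hφ]
    simp only [hz, Sum.elim_inl]
  have hφr : ∀ x y z ξ, Φ x y = Sum.inr ξ → φ x y z = hn ξ ⊥ z := by
    intro x y z ξ hz
    rw [hφ]
    simp only [hz, Sum.elim_inr]
  have hbk : (⊥ : X) < kk := lt_of_le_of_lt bot_le (w1_lt_kk X)
  have e1 : Kb.Sub (chk (om X) : BSet (RO P)) (cs (univ : Set X)) = ⊤ := by
    unfold Kb.Sub
    rw [iInf_chk (om X) (ext_bmem_left (cs (univ : Set X)))]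
    refine iInf_eq_top.2 fun y => iInf_eq_top.2 fun _ => ?_
    rw [bmem_chk_cs, frc_top_iff]
    exact fun p => frc_tv.2 (mem_univ y)
  have e2 : Kb.BinOp (cs (univ : Set X)) (opB φ) = ⊤ := by
    refine BinOp_opB ?_ ?_
    · intro x y
      rcases hxy : Φ x y with z' | ξ
      · refine top_unique (le_iSup_of_le z' ?_)
        rw [hφl x y z' z' hxy]
        exact fun p _ => frc_tv.2 rfl
      · have : (fun z => φ x y z) = fun z => hn ξ ⊥ z := funext fun z => hφr x y z ξ hxy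
        rw [this]
        exact (h.fn ξ).tot ⊥ hbk
    · intro x y z z' hzz
      rcases hxy : Φ x y with z'' | ξ
      · rw [hφl x y z z'' hxy, hφl x y z' z'' hxy]
        refine bot_unique fun p hp => ?_
        exact absurd ((frc_tv.1 hp.1).trans (frc_tv.1 hp.2).symm) hzz
      · rw [hφr x y z ξ hxy, hφr x y z' ξ hxy]
        exact (h.fn ξ).disj ⊥ z z' hzz
  unfold Kc.Club
  refine top_unique ?_
  refine le_iSup_of_le (chk (om X)) (le_iSup_of_le (chk (w1 : X)) (le_iSup_of_le (chk (kk : X))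
    (le_iSup_of_le (chk (⊥ : X)) (le_iSup_of_le (cs (univ : Set X)) (le_iSup_of_le (hB hn)
      (le_iSup_of_le (opB φ) ?_))))))
  unfold Kc.Par
  rw [Omega_om, Omega1_w1 h.closed, Omega2_kk h, chk_bot, e1, Enum_hB h, e2]
  simp only [top_inf_eq]
  refine (frc_top_iff.2 fun p => ?_).ge
  rw [RO.mem_iInf]
  intro N
  rw [RO.mem_himp]
  intro q _ hcl
  rw [frc_dense]
  intro r hr
  have hclr := frc_down hr hcl
  obtain ⟨c1, c2, c3, c4, -⟩ := hclr
  obtain ⟨r1, hr1, N0, hN0, hb⟩ := decide_set h.closed c1 c3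
  obtain ⟨r2, hr2, hv⟩ := decide_vals h hN0 r1
  have hb2 := frc_down hr2 hb
  have memN : ∀ y : X, r2 ∈ (bmem (chk y) N).carrier → y ∈ N0 := by
    intro y hy
    have := frc_ext (ext_bmem_right (chk y)) hb2 hy
    rw [bmem_chk_cs] at this
    exact frc_tv.1 this
  have hbs : r2 ∈ (beq (cs N0) N).carrier := by rw [beq_symm]; exact hb2
  have Nmem : ∀ y ∈ N0, r2 ∈ (bmem (chk y) N).carrier := by
    intro y hy
    refine frc_ext (ext_bmem_right (chk y)) hbs ?_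
    rw [bmem_chk_cs]
    exact frc_tv.2 hy
  have c2' := frc_down (hr2.trans hr1) c2
  have c4' := frc_down (hr2.trans hr1) c4
  have hclo : ∀ x ∈ N0, ∀ y ∈ N0, ∀ z, r2 ∈ (φ x y z).carrier → z ∈ N0 := by
    intro x hx y hy z hz
    have c5 := RO.mem_iInf.1 (RO.mem_iInf.1 (RO.mem_iInf.1 c4' (chk x)) (chk y)) (chk z)
    have c6 := RO.mem_himp.1 c5 r2 le_rfl (Nmem x hx)
    have c7 := RO.mem_himp.1 c6 r2 le_rfl (Nmem y hy)
    refine memN z (RO.mem_himp.1 c7 r2 le_rfl ?_)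
    rw [App2_opB]
    exact hz
  obtain ⟨hC, hD⟩ := hΦ N0 (by
    intro y hy
    refine memN y (RO.mem_himp.1 (RO.mem_iInf.1 c2' (chk y)) r2 le_rfl ?_)
    rw [bmem_chk]
    exact frc_tv.2 hy) (by
    intro x hx y hy z hz
    refine hclo x hx y hy z ?_
    rw [hφl x y z z hz]
    exact frc_tv.2 rfl)
  have hdec : Dec hn N0 r2 := by
    intro ξ hξ
    obtain ⟨v, hv2⟩ := hv ξ hξ
    obtain ⟨x, hx, y, hy, hxy⟩ := hD ξ hξ
    refine ⟨v, hclo x hx y hy v ?_, hv2⟩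
    rw [hφr x y v ξ hxy]
    exact hv2
  obtain ⟨s, hs, hsA⟩ := hQ N0 hN0 hC r2 hdec
  refine ⟨s, hs.trans (hr2.trans hr1), ?_⟩
  exact frc_ext (hext _ _ _ _) (frc_down hs hbs) hsA

theorem club_scc {hn : X → X → X → RO P} (h : Frame P hn) (hp : PosScc hn) :
    Kc.Club (B := RO P) Kc.AtScc = ⊤ := by
  refine club_top h _ (fun o k e h => Kc.ext_AtScc_N o k e h) ?_
  filter_upwards [hp, club_cst h] with N h1 h2 p hd
  obtain ⟨q, hq, γ, hγ, hpre⟩ := h1 p hd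
  refine ⟨q, hq, atScc h h2 ?_ hγ hpre⟩
  intro ξ hξ
  obtain ⟨v, hv, hv2⟩ := hd ξ hξ
  exact ⟨v, hv, frc_down hq hv2⟩

theorem club_split {hn : X → X → X → RO P} (h : Frame P hn) (hp : PosSplit hn) :
    Kc.Club (B := RO P) Kc.AtSplit = ⊤ := by
  refine club_top h _ (fun o k e h => Kc.ext_AtSplit_N o k e h) ?_
  filter_upwards [hp, club_cst h] with N h1 h2 p hd
  obtain ⟨q, hq, γ, γ', hpre, hpre', h3, h4⟩ := h1 p hd
  refine ⟨q, hq, atSplit h h2 ?_ hpre hpre' h3 h4⟩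
  intro ξ hξ
  obtain ⟨v, hv, hv2⟩ := hd ξ hξ
  exact ⟨v, hv, frc_down hq hv2⟩

end Pool.MP_d8f801_lc.SC
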