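import Pool.Agent.Lib.MP_4d8715_gt.KR.E.Stmt

/-!
# SC/V: the principles, read in a structure for the language of set theory

`(M, E)` is a structure for the language of set theory. All definitions only quantify over elements of `M`; they
use the basic notions of `KR/E/Stmt.lean` (`Kr.Sub`, `Kr.App`, `Kr.FunOn`, ...).

For countable `N ⊆ Z`, where `h : Z → ^{ω₂}ω₂` is onto, `Val k h N γ` is the set of the `f(γ)`, `f ∈ h''N`. If `N` is
the trace of an elementary submodel `M` of some `H_θ`, this is `Sk(M ∪ {γ}) ∩ ω₂`.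
-/

set_option autoImplicit false

namespace Pool.MP_d8f801_lc.SC

open Pool.Agent.Lib.MP_4d8715_gt.KR

namespace Sc

variable {M : Type*} (E : M → M → Prop)

/-- `x` is transitive -/
def Trans (x : M) : Prop := ∀ y z, E y x → E z y → E z x

/-- `x` is an ordinal: a transitive set of transitive sets -/
def Ord (x : M) : Prop := Trans E x ∧ ∀ y, E y x → Trans E y

/-- some function with domain `a` takes all elements of `b` as values -/
def Cov (a b : M) : Prop := ∃ f, Kr.FunOn E f a ∧ ∀ z, E z b → ∃ i, E i a ∧ Kr.App E f i z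

/-- `o` is the ordinal `ω₁` (`w` is `ω`): the least ordinal which is not countable -/
def Omega1 (w o : M) : Prop := Ord E o ∧ ¬ Cov E w o ∧ ∀ x, E x o → Cov E w x

/-- `k` is the ordinal `ω₂` (`o` is `ω₁`): the least ordinal which is not covered by `ω₁` -/
def Omega2 (o k : M) : Prop := Ord E k ∧ ¬ Cov E o k ∧ ∀ x, E x k → Cov E o x

/-- `v = f(γ)` for some `f ∈ h''N` -/
def Val (h N γ v : M) : Prop := ∃ ξ f, E ξ N ∧ Kr.App E h ξ f ∧ Kr.App E f γ v

/-- the sets `Val γ` and `Val 0` have the same countable ordinals (`e` is the empty set) -/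
def Pres (o e h N γ : M) : Prop := ∀ v, E v o → (Val E h N γ v ↔ Val E h N e v)

/-- the instance of `SCC` for `N` -/
def AtScc (o k e h N : M) : Prop := ∃ γ, E γ k ∧ ¬ Val E h N e γ ∧ Pres E o e h N γ

/-- the instance of `SCC^cof` for `N` -/
def AtCof (o k e h N : M) : Prop := ∀ β, E β k → ∃ γ, E γ k ∧ ¬ E γ β ∧ Pres E o e h N γ

/-- the instance of `SCC^split` for `N` -/
def AtSplit (o k e h N : M) : Prop :=
  ∃ γ γ', E γ k ∧ E γ' k ∧ Pres E o e h N γ ∧ Pres E o e h N γ' ∧
    (∃ v, Val E h N γ v ∧ ¬ Val E h N γ' v) ∧ ∃ v, Val E h N γ' v ∧ ¬ Val E h N γ v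

/-- `h` is a function from `Z` onto the set of all functions from `k` to `k` -/
def Enum (k Z h : M) : Prop :=
  Kr.FunOn E h Z ∧ (∀ ξ f, Kr.App E h ξ f → Kr.FunTo E f k k) ∧
    ∀ f, Kr.FunTo E f k k → ∃ ξ, E ξ Z ∧ Kr.App E h ξ f

/-- `N` is a countable subset of `Z` which contains `w = ω` and is closed under the operation `Φ`, and the
countable ordinals in `Val 0` form an initial segment -/
def Cl (w o e Z h Φ N : M) : Prop :=
  Kr.Sub E N Z ∧ Kr.Sub E w N ∧ Cov E w N ∧ (∀ x y z, E x N → E y N → Kr.App2 E Φ x y z → E z N) ∧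
    ∀ v u, E v o → Val E h N e v → E u v → Val E h N e u

/-- the parameters -/
def Par (w o k e : M) : Prop := Kr.Omega E w ∧ Omega1 E w o ∧ Omega2 E o k ∧ Kr.Emp E e

/-- for club many countable subsets of some `Z`, which is mapped onto `^{ω₂}ω₂`, the instance holds -/
def Club (A : M → M → M → M → M → Prop) : Prop :=
  ∃ w o k e Z h Φ, Par E w o k e ∧ Kr.Sub E w Z ∧ Enum E k Z h ∧ Kr.BinOp E Z Φ ∧
    ∀ N, Cl E w o e Z h Φ N → A o k e h N

/-- Strong Chang's Conjecture -/
def SCC : Prop := Club E (AtScc E)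

/-- `SCC^cof` -/
def SCCcof : Prop := Club E (AtCof E)

/-- `SCC^split` -/
def SCCsplit : Prop := Club E (AtSplit E)

end Sc

end Pool.MP_d8f801_lc.SC
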