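import Pool.Agent.Lib.MP_d8f801_lc.SC.V.Hb
import Pool.Agent.Lib.MP_d8f801_lc.SC.V.Om

/-!
# SC/V: terms in an arbitrary structure (module V-TrmA)

`Z`, `h`, `Φ` are arbitrary names such that `p` forces that `h` is a function from `Z` onto `^kk kk` and that `Φ` is a binary
operation on `Z ⊇ ω` (`Str`). `z t` is a name of the value of the term `t`, where `of ξ` is a name of a
preimage of the function with name `hn ξ` (`Evl`).
PROOF of `exists_val`: recursion on terms: choose `z (of ξ)` with `mem_max` from `Enum` (onto; `FunTo_fB`, `IsFnK.isFnS`,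
`chk_eq`), `z (nm n) = chk n` if `n < om` and `chk ⊥` otherwise, `z (op s t)` with `mem_max` from `BinOp` (define `z` with a
choice function on pairs of names, then prove `Evl.mem`, `Evl.op` by induction). `exists_b`: `p` forces `z t ∈ Z`, hence
`App h (z t) f` for some name `f` (`FunOn`), and `FunTo f kk kk`, so `f = fB (Iio kk) (hn ξ)` for some `ξ`
(`exists_fB`, `Frame.onto`).
-/

set_option autoImplicit false

universe u

namespace Pool.MP_d8f801_lc.SC

open Set Filter Pool.Agent.Lib.MP_4d8715_gt.KR BSet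

variable {X : Type u} [Stg X] {P : Type u} [Preorder P]

private theorem TrmA_of {hn : X → X → X → RO P} (hF : Frame P hn) {Z h Φ : BSet (RO P)} {p : P}
    (hs : Str hn Z h Φ p) (ξ : X) : ∃ x, p ∈ (bmem x Z).carrier ∧
      p ∈ (Kb.App h x (fB (Iio (kk : X)) (hn ξ))).carrier := by
  obtain ⟨-, -, e3⟩ := hs.enum
  have h1 := RO.mem_iInf.1 e3 (fB (Iio (kk : X)) (hn ξ))
  have h2 : Kb.FunTo (fB (Iio (kk : X)) (hn ξ)) (chk (kk : X)) (chk (kk : X)) = ⊤ := by
    rw [chk_eq (kk : X)]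
    refine FunTo_fB (hF.fn ξ).isFnS ?_
    intro i _ v hv
    exact (hF.fn ξ).bd i v fun h => hv h.2
  rw [h2, top_himp] at h1
  obtain ⟨x, hx⟩ := mem_max ((ext_bmem_left Z).inf (Kb.ext_App_a h _)) h1
  exact ⟨x, hx.1, hx.2⟩

private theorem TrmA_op {hn : X → X → X → RO P} {Z h Φ : BSet (RO P)} {p : P}
    (hs : Str hn Z h Φ p) (a b : BSet (RO P)) : ∃ c, p ∈ (bmem a Z).carrier → p ∈ (bmem b Z).carrier →
      p ∈ (bmem c Z).carrier ∧ p ∈ (Kb.App2 Φ a b c).carrier := by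
  by_cases ha : p ∈ (bmem a Z).carrier
  · by_cases hb : p ∈ (bmem b Z).carrier
    · have h1 := RO.mem_himp.1 (RO.mem_himp.1 (RO.mem_iInf.1 (RO.mem_iInf.1 hs.bin a) b) p le_rfl ha)
        p le_rfl hb
      obtain ⟨c, hc⟩ := mem_max ((ext_bmem_left Z).inf (Ext.iInf fun d =>
        (ext_const (Kb.App2 Φ a b d)).iffB (ext_beq_right d))) h1
      refine ⟨c, fun _ _ => ⟨hc.1, ?_⟩⟩
      have h2 := RO.mem_iInf.1 hc.2 c
      rw [beq_refl] at h2
      exact (frc_iff.1 h2 p le_rfl).2 (RO.mem_top p)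
    · exact ⟨a, fun _ h => absurd h hb⟩
  · exact ⟨a, fun h => absurd h ha⟩

theorem exists_val {hn : X → X → X → RO P} (hF : Frame P hn) {Z h Φ : BSet (RO P)} {p : P}
    (hs : Str hn Z h Φ p) : ∃ z : Tm X → BSet (RO P), Evl hn Z h Φ p z := by
  have hc := TrmA_of hF hs
  choose c hc1 hc2 using hc
  have hg := TrmA_op hs
  choose! g hg1 hg2 using hg
  have h0 : ∀ n, n < om X → p ∈ (bmem (chk n) Z).carrier := by
    intro n hn'
    refine RO.mem_himp.1 (RO.mem_iInf.1 hs.sub (chk n)) p le_rfl ?_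
    rw [bmem_chk]
    exact frc_tv.2 hn'
  classical
  obtain ⟨d, hd⟩ : ∃ d : X → BSet (RO P), d = fun n => if n < om X then chk n else chk (⊥ : X) :=
    ⟨_, rfl⟩
  have hdm : ∀ n, p ∈ (bmem (d n) Z).carrier := by
    intro n
    rw [hd]
    by_cases hn' : n < om X
    · simp only [if_pos hn']
      exact h0 n hn'
    · simp only [if_neg hn']
      exact h0 ⊥ (bot_lt_om X)
  let z : Tm X → BSet (RO P) := fun t =>
    Tm.rec (motive := fun _ => BSet (RO P)) (fun ξ => c ξ) (fun n => d n) (fun _ _ a b => g a b) t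
  have hmem : ∀ t, p ∈ (bmem (z t) Z).carrier := by
    intro t
    induction t with
    | of ξ => exact hc1 ξ
    | nm n => exact hdm n
    | op s t hs' ht' => exact hg1 _ _ hs' ht'
  refine ⟨z, hmem, ?_, ?_, ?_⟩
  · intro n hn'
    show d n = chk n
    rw [hd]
    simp only [if_pos hn']
  · intro s t
    exact hg2 _ _ (hmem s) (hmem t)
  · intro ξ
    exact hc2 ξ

theorem exists_b {hn : X → X → X → RO P} (hF : Frame P hn) {Z h Φ : BSet (RO P)} {p : P}
    (hs : Str hn Z h Φ p) {z : Tm X → BSet (RO P)} (hz : Evl hn Z h Φ p z) :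
    ∃ b : Tm X → X, ∀ t, p ∈ (Kb.App h (z t) (fB (Iio (kk : X)) (hn (b t)))).carrier := by
  have key : ∀ t, ∃ ξ, p ∈ (Kb.App h (z t) (fB (Iio (kk : X)) (hn ξ))).carrier := by
    intro t
    obtain ⟨e1, e2, -⟩ := hs.enum
    have h1 := RO.mem_himp.1 (RO.mem_iInf.1 e1.2 (z t)) p le_rfl (hz.mem t)
    obtain ⟨f, hf⟩ := mem_max (Ext.iInf fun c =>
      (ext_const (Kb.App h (z t) c)).iffB (ext_beq_right c)) h1
    have h2 := RO.mem_iInf.1 hf f
    rw [beq_refl] at h2
    have h3 : p ∈ (Kb.App h (z t) f).carrier := (frc_iff.1 h2 p le_rfl).2 (RO.mem_top p)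
    have h4 := RO.mem_himp.1 (RO.mem_iInf.1 (RO.mem_iInf.1 e2 (z t)) f) p le_rfl h3
    rw [chk_eq (kk : X)] at h4
    obtain ⟨l, l1, l2, l3, l4⟩ := exists_fB (Iio (kk : X)) (Iio (kk : X))
      ⟨⊥, lt_of_le_of_lt bot_le (w1_lt_kk X)⟩ f
    have hl : IsFnK l := by
      refine ⟨?_, ?_, ?_⟩
      · intro ν v hv
        by_cases hν : ν < kk
        · exact l2 ν hν v fun h => hv ⟨hν, h⟩
        · exact l3 ν hν v
      · intro ν hν
        exact l1.tot ν hν
      · intro ν v v' hvv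
        by_cases hν : ν < kk
        · exact l1.disj ν hν v v' hvv
        · rw [l3 ν hν v, bot_inf_eq]
    obtain ⟨ξ, hξ⟩ := hF.onto l hl
    refine ⟨ξ, ?_⟩
    rw [hξ]
    exact frc_ext (Kb.ext_App_b h (z t)) (l4 h4) h3
  choose b hb using key
  exact ⟨b, hb⟩

end Pool.MP_d8f801_lc.SC
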