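import Pool.Agent.Lib.MP_d8f801_lc.SC.V.Ord

/-!
# SC/V: uniqueness of the parameters (module V-Unq)

PROOFS: `Omega1_unique`: by `ord_tri` it is enough that `Omega1 w o ⊓ Omega1 w o' ⊓ bmem o o' = ⊥`:
`Omega1 w o'` gives `Cov w o`. `Omega_unique`: each is a subset of the other (`Kb.Sub`), `beq_ext`.
-/

set_option autoImplicit false

universe u

namespace Pool.MP_d8f801_lc.SC

open Set Pool.Agent.Lib.MP_4d8715_gt.KR BSet

variable {B : Type u} [CompleteBooleanAlgebra B]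

/-- two least inductive sets are equal -/
theorem Omega_unique (w w' : BSet B) : Kb.Omega w ⊓ Kb.Omega w' ≤ beq w w' := by
  refine le_iff_ev.mpr (Filter.Eventually.of_forall fun U hU => ?_)
  rw [Ult.inf'] at hU
  obtain ⟨h1, h2⟩ := hU
  unfold Kb.Omega at h1 h2
  rw [Ult.inf'] at h1 h2
  have key : ∀ a b : BSet B, U (⨅ c, Kb.Ind c ⇨ Kb.Sub a c) → U (Kb.Ind b) → ∀ z, U (bmem z a) → U (bmem z b) := by
    intro a b h h' z hz
    have h3 := ult_iInf_le h b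
    rw [Ult.himp'] at h3
    have h4 := h3 h'
    unfold Kb.Sub at h4
    have h5 := ult_iInf_le h4 z
    rw [Ult.himp'] at h5
    exact h5 hz
  rw [ult_beq]
  exact fun z => ⟨key w w' h1.2 h2.1 z, key w' w h2.2 h1.1 z⟩

theorem Omega1_unique (w o o' : BSet B) : Kc.Omega1 w o ⊓ Kc.Omega1 w o' ≤ beq o o' := by
  refine le_iff_ev.mpr (Filter.Eventually.of_forall fun U hU => ?_)
  rw [Ult.inf'] at hU
  obtain ⟨h1, h2⟩ := hU
  unfold Kc.Omega1 at h1 h2
  rw [Ult.inf', Ult.inf', Ult.compl'] at h1 h2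
  obtain ⟨h1, h3, h4⟩ := h1
  obtain ⟨h2, h5, h6⟩ := h2
  have h7 : U (beq o o' ⊔ (bmem o o' ⊔ bmem o' o)) := by
    refine U.mono (ord_tri o o') ?_
    rw [Ult.inf']
    exact ⟨h1, h2⟩
  rw [Ult.sup', Ult.sup'] at h7
  rcases h7 with h7 | h7 | h7
  · exact h7
  · have h8 := ult_iInf_le h6 o
    rw [Ult.himp'] at h8
    exact (h3 (h8 h7)).elim
  · have h8 := ult_iInf_le h4 o'
    rw [Ult.himp'] at h8
    exact (h5 (h8 h7)).elim

theorem Omega2_unique (o k k' : BSet B) : Kc.Omega2 o k ⊓ Kc.Omega2 o k' ≤ beq k k' := Omega1_unique o k k'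

theorem Emp_unique (e e' : BSet B) : Kb.Emp e ⊓ Kb.Emp e' ≤ beq e e' := by
  rw [Kb.Emp_eq, Kb.Emp_eq, beq_symm e' empty]
  exact beq_trans e empty e'

end Pool.MP_d8f801_lc.SC
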